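import Pool.Agent.FZC.Defs

set_option autoImplicit false

open Polynomial

/-!
Algebra of the finite sections.
-/

namespace Pool.Agent.FZC

/- BEGIN fz_a1 : monic, degree, signs -/

theorem sg_mul (a b : Bool) : sg (a == b) = sg a * sg b := by
  cases a <;> cases b <;> simp [sg]

theorem sg_not (a : Bool) : sg (!a) = -sg a := by
  cases a <;> simp [sg]

theorem norm_sg (a : Bool) : ‖sg a‖ = 1 := by
  cases a <;> simp [sg]

private theorem fz_a1_deg (w : List Bool) : ((KK w).1.Monic ∧ (KK w).1.natDegree = w.length + 1) ∧
    ((KK w).2.Monic ∧ (KK w).2.natDegree = w.length) := by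
  induction w with
  | nil => exact ⟨⟨monic_X, natDegree_X⟩, monic_one, natDegree_one⟩
  | cons a w ih =>
    obtain ⟨⟨h1, h2⟩, h3, h4⟩ := ih
    have h5 : (X * (KK w).1).Monic := monic_X.mul h1
    have h6 : (X * (KK w).1).natDegree = w.length + 2 := by
      rw [monic_X.natDegree_mul h1, natDegree_X, h2]
      ring
    have h7 : (C (sg a) * (KK w).2).natDegree < (X * (KK w).1).natDegree := by
      rw [h6]
      have := natDegree_C_mul_le (sg a) (KK w).2
      omega
    have h8 : (KK (a :: w)).1 = X * (KK w).1 - C (sg a) * (KK w).2 := rfl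
    have h9 : (KK (a :: w)).2 = (KK w).1 := rfl
    rw [h8, h9]
    refine ⟨⟨h5.sub_of_left (degree_lt_degree h7), ?_⟩, h1, h2⟩
    rw [natDegree_sub_eq_left_of_natDegree_lt h7, h6]
    rfl

theorem D_monic (w : List Bool) : (D w).Monic := (fz_a1_deg w).1.1

theorem D_natDegree (w : List Bool) : (D w).natDegree = w.length + 1 := (fz_a1_deg w).1.2

theorem KS_zero (w : List Bool) : KS w 0 = 1 := rfl

theorem KS_last (w : List Bool) : KS w (w.length + 1) = D w := by
  rw [KS, if_neg (Nat.succ_ne_zero _), Nat.add_sub_cancel, List.take_length]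

/-- Only the letters of the first `j - 1` bonds matter. -/
theorem KS_append (w w' : List Bool) (j : ℕ) (h : j ≤ w.length + 1) : KS (w ++ w') j = KS w j := by
  rcases Nat.eq_zero_or_pos j with h0 | h0
  · rw [h0, KS_zero, KS_zero]
  · rw [KS, KS, if_neg (by omega), if_neg (by omega), List.take_append_of_le_length (by omega)]

/- END fz_a1 -/

/- BEGIN fz_a2 : expansion along a bond (induction on p; the case p = [] is the definition) -/

private theorem fz_a2_KS (b c : Bool) (p : List Bool) :
    KS (b :: c :: p) (p.length + 2) = X * KS (c :: p) (p.length + 1) -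
      C (sg b) * KS p p.length := by
  cases p with
  | nil => simp [KS, D, KK]
  | cons d r => simp [KS, D, KK]

theorem D_append (p q : List Bool) (a : Bool) :
    D (p ++ a :: q) = D p * D q - C (sg a) * KS p p.length * (KK q).2 := by
  match p with
  | [] =>
    show X * D q - C (sg a) * (KK q).2 = X * D q - C (sg a) * 1 * (KK q).2
    ring
  | [b] =>
    show X * (X * D q - C (sg a) * (KK q).2) - C (sg b) * D q =
      (X * X - C (sg b) * 1) * D q - C (sg a) * X * (KK q).2
    ring
  | b :: c :: p =>
    have h1 := D_append (c :: p) q a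
    have h2 := D_append p q a
    have h3 := fz_a2_KS b c p
    have e1 : D (b :: c :: p ++ a :: q) = X * D (c :: p ++ a :: q) - C (sg b) * D (p ++ a :: q) :=
      rfl
    have e2 : D (b :: c :: p) = X * D (c :: p) - C (sg b) * D p := rfl
    have e3 : (b :: c :: p).length = p.length + 2 := rfl
    have e4 : (c :: p).length = p.length + 1 := rfl
    rw [e4] at h1
    rw [e1, h1, h2, e2, e3, h3]
    ring

/-- Recursion from the right. -/
theorem KS_rec (w : List Bool) (j : ℕ) (h : j < w.length) :
    KS w (j + 2) = X * KS w (j + 1) - C (sg (w[j]'h)) * KS w j := by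
  have e1 : KS w (j + 2) = D (w.take (j + 1)) := rfl
  have e2 : KS w (j + 1) = D (w.take j) := rfl
  have e3 : w.take (j + 1) = w.take j ++ w[j]'h :: [] := List.take_succ_eq_append_getElem h
  have e4 : KS (w.take j) (w.take j).length = KS w j := by
    have h1 : (w.take j).length = j := by
      rw [List.length_take]
      omega
    rw [h1]
    have h2 := KS_append (w.take j) (w.drop j) j (by omega)
    rw [List.take_append_drop] at h2
    exact h2.symm
  rw [e1, e2, e3, D_append, e4]
  have e5 : D [] = X := rfl
  have e6 : (KK []).2 = 1 := rfl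
  rw [e5, e6]
  ring

/- END fz_a2 -/

/- BEGIN fz_a3 : reversal (from D_append with q = []) -/

private theorem fz_a3_step (b : Bool) (w : List Bool) (h : D w.reverse = D w) :
    (KK (b :: w)).2 = KS (b :: w).reverse (b :: w).length := by
  show D w = KS (b :: w).reverse (w.length + 1)
  rw [List.reverse_cons, KS_append _ _ _ (by rw [List.length_reverse])]
  have h1 := KS_last w.reverse
  rw [List.length_reverse] at h1
  rw [h1, h]

theorem D_reverse (w : List Bool) : D w.reverse = D w := by
  match w with
  | [] => rfl
  | [a] => rfl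
  | a :: b :: w =>
    have h1 := D_reverse (b :: w)
    have h2 := fz_a3_step b w (D_reverse w)
    rw [List.reverse_cons, D_append, h1, List.length_reverse, ← h2]
    show D (b :: w) * X - C (sg a) * (KK (b :: w)).2 * 1 =
      X * D (b :: w) - C (sg a) * (KK (b :: w)).2
    ring

theorem KK_snd (w : List Bool) : (KK w).2 = KS w.reverse w.length := by
  cases w with
  | nil => rfl
  | cons b w => exact fz_a3_step b w (D_reverse w)

/- END fz_a3 -/

/- BEGIN fz_a4 : the determinant identity for one block: `(KK w.dropLast).2` is the block without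
its first and last site (for `w ≠ []`); for `w = []` all terms are explicit. -/

private theorem fz_a4_aux (w : List Bool) : ∀ a : Bool,
    D (a :: w) * (KK (a :: w).dropLast).2 - (KK (a :: w)).2 * D (a :: w).dropLast
      = - C (sg (pb (a :: w))) := by
  induction w with
  | nil =>
    intro a
    simp only [D, KK, pb, List.dropLast_singleton, sg_mul]
    simp [sg]
  | cons b w ih =>
    intro a
    have h := ih b
    have e1 : (a :: b :: w).dropLast = a :: (b :: w).dropLast := rfl
    rw [e1]
    have e2 : D (a :: b :: w) = X * D (b :: w) - C (sg a) * (KK (b :: w)).2 := rfl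
    have e3 : (KK (a :: (b :: w).dropLast)).2 = D (b :: w).dropLast := rfl
    have e4 : (KK (a :: b :: w)).2 = D (b :: w) := rfl
    have e5 : D (a :: (b :: w).dropLast)
        = X * D (b :: w).dropLast - C (sg a) * (KK (b :: w).dropLast).2 := rfl
    have e6 : pb (a :: b :: w) = (a == pb (b :: w)) := rfl
    rw [e2, e3, e4, e5, e6, sg_mul, C_mul]
    linear_combination (C (sg a)) * h

theorem D_det (a : Bool) (w : List Bool) :
    D (a :: w) * (if w = [] then 1 else (KK (a :: w).dropLast).2)
      - (KK (a :: w)).2 * KS (a :: w) (w.length + 1) = - C (sg (pb (a :: w))) := by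
  have h := fz_a4_aux w a
  have e1 : KS (a :: w) (w.length + 1) = D (a :: w).dropLast := by
    rw [KS, if_neg (by omega), List.dropLast_eq_take]
    simp
  have e2 : (if w = [] then (1 : ℂ[X]) else (KK (a :: w).dropLast).2) = (KK (a :: w).dropLast).2 := by
    split_ifs with hw
    · subst hw; rfl
    · rfl
  rw [e1, e2]
  exact h

/- END fz_a4 -/

/- BEGIN fz_a5 : Euler's continuant identity.  `KS (p ++ x) (p.length - 1)` are the first
`|p| - 1` sites.  Both sides are 0-th order recursions in p (from the left) and y (from the right);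
e is minus the product of the last letter of p, the letters of x and the first letter of y.
Example: p = [a], y = [b], x = []: D [a,b] * D [] - D [a] * D [b] = - C (sg a * sg b). -/

private theorem fz_a5_right (y : List Bool) (hy : y ≠ []) (x : List Bool) :
    ∃ e : ℂ, ‖e‖ = 1 ∧ (KK (x ++ y)).2 * D x - (KK x).2 * D (x ++ y)
      = C e * KS (x ++ y).reverse (y.length - 1) := by
  induction x with
  | nil =>
    obtain ⟨b, y, rfl⟩ := List.exists_cons_of_ne_nil hy
    refine ⟨sg b, norm_sg b, ?_⟩
    have e1 : KS ([] ++ b :: y).reverse ((b :: y).length - 1) = (KK y).2 := by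
      rw [KK_snd]
      simp only [List.nil_append, List.reverse_cons, List.length_cons, Nat.add_sub_cancel]
      exact KS_append _ _ _ (by simp)
    rw [e1]
    have e2 : (KK ([] ++ b :: y)).2 = D y := rfl
    have e3 : D ([] : List Bool) = X := rfl
    have e4 : (KK ([] : List Bool)).2 = 1 := rfl
    have e5 : D ([] ++ b :: y) = X * D y - C (sg b) * (KK y).2 := rfl
    rw [e2, e3, e4, e5]
    ring
  | cons c x ih =>
    obtain ⟨e, he, h⟩ := ih
    refine ⟨sg c * e, by rw [norm_mul, norm_sg, he, one_mul], ?_⟩
    have e1 : KS (c :: x ++ y).reverse (y.length - 1) = KS (x ++ y).reverse (y.length - 1) := by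
      have : (c :: x ++ y).reverse = (x ++ y).reverse ++ [c] := by simp
      rw [this]
      exact KS_append _ _ _ (by simp; omega)
    rw [e1, C_mul]
    have e2 : (KK (c :: x ++ y)).2 = D (x ++ y) := rfl
    have e3 : D (c :: x) = X * D x - C (sg c) * (KK x).2 := rfl
    have e4 : (KK (c :: x)).2 = D x := rfl
    have e5 : D (c :: x ++ y) = X * D (x ++ y) - C (sg c) * (KK (x ++ y)).2 := rfl
    rw [e2, e3, e4, e5]
    linear_combination (C (sg c)) * h

theorem D_cont (p x y : List Bool) (hp : p ≠ []) (hy : y ≠ []) :
    ∃ e : ℂ, ‖e‖ = 1 ∧ D (p ++ x ++ y) * D x - D (p ++ x) * D (x ++ y)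
      = C e * KS (p ++ x) (p.length - 1) * KS (x ++ y).reverse (y.length - 1) := by
  obtain ⟨e, he, h⟩ := fz_a5_right y hy x
  obtain ⟨p', a, rfl⟩ : ∃ (p' : List Bool) (a : Bool), p = p' ++ [a] :=
    ⟨p.dropLast, p.getLast hp, (List.dropLast_append_getLast hp).symm⟩
  refine ⟨-(sg a * e), by rw [norm_neg, norm_mul, norm_sg, he, one_mul], ?_⟩
  have e1 : KS (p' ++ [a] ++ x) ((p' ++ [a]).length - 1) = KS p' p'.length := by
    have : p' ++ [a] ++ x = p' ++ ([a] ++ x) := by simp
    rw [this]
    have hl : (p' ++ [a]).length - 1 = p'.length := by simp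
    rw [hl]
    exact KS_append _ _ _ (by omega)
  have e2 : D (p' ++ [a] ++ x) = D p' * D x - C (sg a) * KS p' p'.length * (KK x).2 := by
    have : p' ++ [a] ++ x = p' ++ a :: x := by simp
    rw [this]
    exact D_append p' x a
  have e3 : D (p' ++ [a] ++ x ++ y)
      = D p' * D (x ++ y) - C (sg a) * KS p' p'.length * (KK (x ++ y)).2 := by
    have : p' ++ [a] ++ x ++ y = p' ++ a :: (x ++ y) := by simp
    rw [this]
    exact D_append p' (x ++ y) a
  rw [e1, e2, e3, C_neg, C_mul]
  linear_combination (-(C (sg a)) * KS p' p'.length) * h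

/- END fz_a5 -/

end Pool.Agent.FZC
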