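import Pool.Agent.FZC.Alg

set_option autoImplicit false

open Polynomial

/-!
Mirror blocks.  Modules `fz_t1` .. `fz_t4`.
-/

namespace Pool.Agent.FZC

/- BEGIN fz_t1 : lists -/

private theorem fz_t1_pb_append (v w : List Bool) : pb (v ++ w) = (pb v == pb w) := by
  induction v with
  | nil => cases h : pb w <;> simp [pb, h]
  | cons a v ih =>
    rw [List.cons_append, pb, pb, ih]
    cases a <;> cases pb v <;> cases pb w <;> rfl

theorem pb_reverse (v : List Bool) : pb v.reverse = pb v := by
  induction v with
  | nil => rfl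
  | cons a v ih =>
    rw [List.reverse_cons, fz_t1_pb_append, ih]
    simp only [pb]
    cases a <;> cases pb v <;> rfl

theorem P_reverse (v : List Bool) : P v.reverse = P v := by
  rw [P, P, D_reverse]

theorem J_length (pv a : Bool) (u : List Bool) : (J pv a u).length = u.length + 1 := by
  induction u generalizing a with
  | nil => rfl
  | cons c u ih => rw [J, List.length_cons, ih, List.length_cons]

/-- Every nonempty list of junction signs comes from a word. -/
theorem J_surj (pv : Bool) (as : List Bool) (h : as ≠ []) :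
    ∃ (a : Bool) (u : List Bool), J pv a u = as := by
  have key : ∀ (as : List Bool) (a : Bool), ∃ u : List Bool, J pv a u = a :: as := by
    intro as
    induction as with
    | nil => exact fun a => ⟨[], rfl⟩
    | cons b as ih =>
      intro a
      obtain ⟨u, hu⟩ := ih b
      have h1 : nx pv a (nx pv a b) = b := by
        cases pv <;> cases a <;> cases b <;> rfl
      refine ⟨nx pv a b :: u, ?_⟩
      rw [J, h1, hu]
  cases as with
  | nil => exact absurd rfl h
  | cons a as =>
    obtain ⟨u, hu⟩ := key as a
    exact ⟨a, u, hu⟩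

theorem W_length (v as : List Bool) :
    (W v as).length = (as.length + 1) * v.length + 2 * as.length := by
  induction as generalizing v with
  | nil => simp [W]
  | cons a as ih =>
    rw [W, List.length_append, List.length_cons, List.length_cons, ih, List.length_reverse,
      List.length_cons]
    ring

/- END fz_t1 -/

/- BEGIN fz_t2 : splitting off blocks on the left and on the right -/

theorem W_left (pv a : Bool) (v p : List Bool) :
    ∃ (P' v' : List Bool) (a' : Bool), (v' = v ∨ v' = v.reverse) ∧
      ∀ x : List Bool, W v (J pv a (p ++ x)) = P' ++ W v' (J pv a' x) := by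
  induction p generalizing v a with
  | nil => exact ⟨[], v, a, Or.inl rfl, fun x => rfl⟩
  | cons c p ih =>
    obtain ⟨P', v', a', h1, h2⟩ := ih (nx pv a c) v.reverse
    refine ⟨v ++ a :: (!a) :: P', v', a', ?_, fun x => ?_⟩
    · rw [List.reverse_reverse] at h1
      exact h1.symm
    · rw [List.cons_append, J, W, h2]
      simp

theorem W_right (pv a : Bool) (v x y : List Bool) :
    ∃ Y : List Bool, W v (J pv a (x ++ y)) = W v (J pv a x) ++ Y := by
  induction x generalizing v a with
  | nil =>
    cases y with
    | nil => exact ⟨[], (List.append_nil _).symm⟩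
    | cons c y =>
      -- W v (a :: J ..) = v ++ a :: !a :: W v.reverse (J ..), begins with v.reverse
      have hW : ∀ (v as : List Bool), ∃ Y : List Bool, W v as = v ++ Y := by
        intro v as
        cases as with
        | nil => exact ⟨[], (List.append_nil _).symm⟩
        | cons b bs => exact ⟨b :: (!b) :: W v.reverse bs, rfl⟩
      obtain ⟨Y, hY⟩ := hW v.reverse (J pv (nx pv a c) y)
      refine ⟨Y, ?_⟩
      show v ++ a :: (!a) :: W v.reverse (J pv (nx pv a c) y) =
        (v ++ a :: (!a) :: v.reverse) ++ Y
      rw [hY]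
      simp
  | cons c x ih =>
    obtain ⟨Y, hY⟩ := ih (nx pv a c) v.reverse
    refine ⟨Y, ?_⟩
    rw [List.cons_append, J, W, hY, J, W]
    simp

/-- `W v (J pv a u)` begins with the block `v`. -/
theorem W_head (v as : List Bool) : ∃ Y : List Bool, W v as = v ++ Y := by
  cases as with
  | nil => exact ⟨[], (List.append_nil _).symm⟩
  | cons b bs => exact ⟨b :: (!b) :: W v.reverse bs, rfl⟩

/- END fz_t2 -/

/- BEGIN fz_t3 : expansion at a junction site with opposite letters (D_append twice) -/

theorem D_junction (p q : List Bool) (a : Bool) :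
    D (p ++ a :: (!a) :: q) = X * D p * D q - C (sg a) * KS p p.length * D q
      + C (sg a) * D p * (KK q).2 := by
  rw [D_append]
  have h1 : D ((!a) :: q) = X * D q - C (sg (!a)) * (KK q).2 := rfl
  have h2 : (KK ((!a) :: q)).2 = D q := rfl
  rw [h1, h2, sg_not, C_neg]
  ring

/-- The determinant identity `D v * K(v minus first and last site) - ... `, in the form needed here:
for every right part `q'` and letter `b`. -/
private theorem fz_t3_key (v q : List Bool) (b : Bool) :
    D v * (KK (v ++ b :: q)).2 = (KK v).2 * D (v ++ b :: q) + C (sg (pb v) * sg b) * (KK q).2 := by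
  induction v with
  | nil =>
    show X * D q = 1 * (X * D q - C (sg b) * (KK q).2) + C (sg (pb []) * sg b) * (KK q).2
    have h1 : sg (pb []) = 1 := rfl
    rw [h1, one_mul (sg b)]
    ring
  | cons c v ih =>
    have h1 : D (c :: v) = X * D v - C (sg c) * (KK v).2 := rfl
    have h2 : (KK (c :: v ++ b :: q)).2 = D (v ++ b :: q) := rfl
    have h3 : (KK (c :: v)).2 = D v := rfl
    have h4 : D (c :: v ++ b :: q) = X * D (v ++ b :: q) - C (sg c) * (KK (v ++ b :: q)).2 := rfl
    have h5 : sg (pb (c :: v)) = sg c * sg (pb v) := by rw [pb, sg_mul]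
    rw [h1, h2, h3, h4, h5]
    have h6 : C (sg c * sg (pb v) * sg b) = C (sg c) * C (sg (pb v) * sg b) := by
      rw [← C_mul, mul_assoc]
    rw [h6]
    linear_combination C (sg c) * ih

/-- The response of a block `v` followed by anything. -/
theorem block_resp (v q : List Bool) (a : Bool) :
    D v * (KK (v ++ a :: (!a) :: q)).2
      = (KK v).2 * D (v ++ a :: (!a) :: q) + C (sg a * sg (pb v)) * D q := by
  rw [fz_t3_key v ((!a) :: q) a, mul_comm (sg a)]
  rfl

/- END fz_t3 -/

/- BEGIN fz_t4 : identity (T).  Put X' = P v.  From D_junction (p = v.reverse, q = W v (a' :: as'))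
and block_resp one gets
  D (W v.reverse (a :: a' :: as')) = X * D v * D (W v (a' :: as')) + C (sg a * sg a' * sg (pb v)) * D (W v.reverse as')
(use KK_snd: KS v.reverse v.length = (KK v).2), which is the recursion of (D u).comp (P v). -/

private theorem fz_t4_KS (v : List Bool) : KS v v.length = (KK v.reverse).2 := by
  rw [KK_snd, List.reverse_reverse, List.length_reverse]

private theorem fz_t4_sg (a : Bool) : sg a * sg a = 1 := by
  cases a <;> simp [sg]

private theorem fz_t4_nx (pv a c : Bool) : sg a * sg (nx pv a c) * sg pv = - sg c := by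
  rw [nx, sg_not, sg_mul, sg_mul]
  have h1 := fz_t4_sg a
  have h2 := fz_t4_sg pv
  linear_combination (- sg c * sg pv * sg pv) * h1 - sg c * h2

/-- the two-step recursion -/
private theorem fz_t4_step (v tl : List Bool) (a b : Bool) :
    D (W v (a :: b :: tl)) = P v * D (W v.reverse (b :: tl)) +
      C (sg a * sg b * sg (pb v)) * D (W v tl) := by
  have h1 : W v (a :: b :: tl) = v ++ a :: (!a) :: W v.reverse (b :: tl) := rfl
  have h2 : W v.reverse (b :: tl) = v.reverse ++ b :: (!b) :: W v tl := by
    show v.reverse ++ b :: (!b) :: W v.reverse.reverse tl = _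
    rw [List.reverse_reverse]
  have h3 := block_resp v.reverse (W v tl) b
  rw [← h2, D_reverse, pb_reverse] at h3
  rw [h1, D_junction, P, fz_t4_KS]
  have h4 : C (sg a * sg b * sg (pb v)) = C (sg a) * C (sg b * sg (pb v)) := by
    rw [← C_mul, mul_assoc]
  rw [h4]
  linear_combination C (sg a) * h3

private theorem fz_t4_all (u : List Bool) : ∀ (v : List Bool) (a : Bool), ∃ tl : List Bool,
    J (pb v) a u = a :: tl ∧ D (W v (a :: tl)) = D v * (D u).comp (P v) ∧
      D (W v.reverse tl) = D v * ((KK u).2).comp (P v) := by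
  induction u with
  | nil =>
    intro v a
    refine ⟨[], rfl, ?_, ?_⟩
    · have h1 : W v [a] = v ++ a :: (!a) :: v.reverse := rfl
      have h2 : D ([] : List Bool) = X := rfl
      rw [h1, D_junction, h2, X_comp, D_reverse, fz_t4_KS, P]
      ring
    · have h2 : (KK ([] : List Bool)).2 = 1 := rfl
      have h3 : W v.reverse [] = v.reverse := rfl
      rw [h2, one_comp, mul_one, h3, D_reverse]
  | cons c u ih =>
    intro v a
    obtain ⟨tl, h1, h2, h3⟩ := ih v.reverse (nx (pb v) a c)
    rw [pb_reverse] at h1
    rw [P_reverse, D_reverse] at h2 h3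
    rw [List.reverse_reverse] at h3
    refine ⟨nx (pb v) a c :: tl, ?_, ?_, ?_⟩
    · rw [J, h1]
    · rw [fz_t4_step, h2, h3, fz_t4_nx]
      have h4 : D (c :: u) = X * D u - C (sg c) * (KK u).2 := rfl
      rw [h4, sub_comp, mul_comp, X_comp, mul_comp, C_comp, C_neg]
      ring
    · have h4 : (KK (c :: u)).2 = D u := rfl
      rw [h2, h4]

theorem D_W (v : List Bool) (a : Bool) (u : List Bool) :
    D (W v (J (pb v) a u)) = D v * (D u).comp (P v) := by
  obtain ⟨tl, h1, h2, -⟩ := fz_t4_all u v a
  rw [h1, h2]

/- END fz_t4 -/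

/- BEGIN fz_t5 : P v maps decay to decay with the same constant.  For j ≥ 1 write
KS u j = D (u.take (j-1)); by D_W and W_right both D u and KS u j at P v (z) are quotients by D v (z)
of D W and D W' = KS W (W'.length + 1), W' a prefix of W; for j = 0 use KS W (v.length + 1) = D v. -/

theorem DecU_ne_zero {M : ℝ} {z : ℂ} (h : DecU M z) (w : List Bool) : (D w).eval z ≠ 0 := by
  intro h0
  have h1 := h w 0 (Nat.zero_le _)
  rw [KS_zero, h0, norm_zero, mul_zero, eval_one, norm_one, mul_one, Nat.cast_zero, sub_zero] at h1
  have h2 : (0 : ℝ) ≤ w.length := Nat.cast_nonneg _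
  linarith

private theorem fz_t5_pre {M : ℝ} {z : ℂ} (h : DecU M z) (w y : List Bool) (hy : 1 ≤ y.length) :
    (y.length : ℝ) * ‖(D w).eval z‖ ≤ M * ‖(D (w ++ y)).eval z‖ := by
  have h1 := h (w ++ y) (w.length + 1) (by rw [List.length_append]; omega)
  rw [KS_append w y (w.length + 1) (le_refl _), KS_last, List.length_append, Nat.cast_add,
    Nat.cast_add, Nat.cast_one] at h1
  have h2 : (w.length : ℝ) + y.length - (w.length + 1) + 1 = y.length := by ring
  rwa [h2] at h1

private theorem fz_t5_final {M d x y c c' : ℝ} (hd : 0 < d) (hx : 0 ≤ x) (hc : c ≤ c')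
    (h : c' * (d * x) ≤ M * (d * y)) : c * x ≤ M * y := by
  have h1 : d * (c' * x) ≤ d * (M * y) := by
    calc d * (c' * x) = c' * (d * x) := by ring
      _ ≤ M * (d * y) := h
      _ = d * (M * y) := by ring
  exact (mul_le_mul_of_nonneg_right hc hx).trans (le_of_mul_le_mul_left h1 hd)

theorem DecU_P {M : ℝ} {z : ℂ} (h : DecU M z) (v : List Bool) : DecU M ((P v).eval z) := by
  have hd : 0 < ‖(D v).eval z‖ := norm_pos_iff.2 (DecU_ne_zero h v)
  have hDW : ∀ u : List Bool, ‖(D (W v (J (pb v) true u))).eval z‖ =
      ‖(D v).eval z‖ * ‖(D u).eval ((P v).eval z)‖ := by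
    intro u
    rw [D_W, eval_mul, eval_comp, norm_mul]
  have hlen : ∀ u : List Bool, (W v (J (pb v) true u)).length =
      (u.length + 2) * v.length + 2 * (u.length + 1) := by
    intro u
    rw [W_length, J_length]
  intro u j hj
  rcases Nat.eq_zero_or_pos j with rfl | hj0
  · obtain ⟨Y, hY⟩ := W_head v (J (pb v) true u)
    have h1 : Y.length = (u.length + 1) * (v.length + 2) := by
      have h2 := hlen u
      rw [hY, List.length_append] at h2
      have h3 : (u.length + 2) * v.length + 2 * (u.length + 1) =
          v.length + (u.length + 1) * (v.length + 2) := by ring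
      omega
    have hYpos : 1 ≤ Y.length := by
      rw [h1]
      exact Nat.succ_le_of_lt (Nat.mul_pos (Nat.succ_pos _) (Nat.succ_pos _))
    have h2 := fz_t5_pre h v Y hYpos
    rw [← hY, hDW, h1] at h2
    rw [KS_zero, eval_one, norm_one]
    refine fz_t5_final hd zero_le_one ?_ (by rw [mul_one]; exact h2)
    push_cast
    have h3 : (0 : ℝ) ≤ u.length := Nat.cast_nonneg _
    have h4 : (0 : ℝ) ≤ v.length := Nat.cast_nonneg _
    nlinarith
  · obtain ⟨i, rfl⟩ := Nat.exists_eq_succ_of_ne_zero (Nat.pos_iff_ne_zero.1 hj0)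
    have hKS : KS u (i + 1) = D (u.take i) := by
      rw [KS, if_neg (Nat.succ_ne_zero i), Nat.add_sub_cancel]
    obtain ⟨Y, hY⟩ := W_right (pb v) true v (u.take i) (u.drop i)
    rw [List.take_append_drop] at hY
    have hi : (u.take i).length = i := by
      rw [List.length_take]
      omega
    have h1 : Y.length = (u.length - i) * (v.length + 2) := by
      have h2 := hlen u
      rw [hY, List.length_append, hlen, hi] at h2
      obtain ⟨e, he⟩ := Nat.exists_eq_add_of_le (show i ≤ u.length by omega)
      rw [he] at h2 ⊢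
      rw [Nat.add_sub_cancel_left]
      have h3 : (i + e + 2) * v.length + 2 * (i + e + 1) =
          (i + 2) * v.length + 2 * (i + 1) + e * (v.length + 2) := by ring
      omega
    have hYpos : 1 ≤ Y.length := by
      rw [h1]
      exact Nat.succ_le_of_lt (Nat.mul_pos (by omega) (Nat.succ_pos _))
    have h2 := fz_t5_pre h (W v (J (pb v) true (u.take i))) Y hYpos
    rw [← hY, hDW, hDW, h1] at h2
    show ((u.length : ℝ) - ((i + 1 : ℕ) : ℝ) + 1) * ‖(KS u (i + 1)).eval _‖ ≤ _
    rw [hKS]
    refine fz_t5_final hd (norm_nonneg _) ?_ h2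
    rw [Nat.cast_mul, Nat.cast_sub (by omega)]
    push_cast
    have h3 : (0 : ℝ) ≤ (u.length : ℝ) - i := by
      have : ((i : ℕ) : ℝ) ≤ u.length := by exact_mod_cast (show i ≤ u.length by omega)
      linarith
    have h4 : (0 : ℝ) ≤ v.length := Nat.cast_nonneg _
    nlinarith [mul_nonneg h3 h4]

/- END fz_t5 -/

end Pool.Agent.FZC
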