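import Pool.Agent.FZC.Defs

set_option autoImplicit false

/-!
The combinatorial lemma.  Modules `fz_c1` .. `fz_c5`.  Only lists and integers.
-/

namespace Pool.Agent.FZC

/- BEGIN fz_c1 : first claim and prolongation of the contexts -/

private theorem fz_c1_loc {N : List Bool → ℤ} {s : ℕ} (h : Loc N s) (p x y w : List Bool)
    (hx : s ≤ x.length) (hw : w = p ++ x ++ y) : N w = N (p ++ x) + N (x ++ y) - N x := by
  have h1 := h p x y hx
  rw [hw]
  linarith

theorem Cl_base {N : List Bool → ℤ} {s : ℕ} (h : Loc N s) : Cl N s s := by
  intro p y q hp hq hy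
  unfold mix
  rw [fz_c1_loc h (p ++ [true]) y ([true] ++ q) (p ++ [true] ++ y ++ [true] ++ q) hy (by simp),
    fz_c1_loc h (p ++ [true]) y ([false] ++ q) (p ++ [true] ++ y ++ [false] ++ q) hy (by simp),
    fz_c1_loc h (p ++ [false]) y ([true] ++ q) (p ++ [false] ++ y ++ [true] ++ q) hy (by simp),
    fz_c1_loc h (p ++ [false]) y ([false] ++ q) (p ++ [false] ++ y ++ [false] ++ q) hy (by simp)]
  ring

/-- Prolongation on the left and on the right does not change the mixed difference. -/
theorem mix_left {N : List Bool → ℤ} {s : ℕ} (h : Loc N s) (r p y q : List Bool)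
    (hp : s ≤ p.length) : mix N (r ++ p) y q = mix N p y q := by
  unfold mix
  rw [fz_c1_loc h r p ([true] ++ y ++ [true] ++ q) (r ++ p ++ [true] ++ y ++ [true] ++ q) hp
      (by simp),
    fz_c1_loc h r p ([true] ++ y ++ [false] ++ q) (r ++ p ++ [true] ++ y ++ [false] ++ q) hp
      (by simp),
    fz_c1_loc h r p ([false] ++ y ++ [true] ++ q) (r ++ p ++ [false] ++ y ++ [true] ++ q) hp
      (by simp),
    fz_c1_loc h r p ([false] ++ y ++ [false] ++ q) (r ++ p ++ [false] ++ y ++ [false] ++ q) hp
      (by simp)]
  simp only [List.append_assoc]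
  ring

theorem mix_right {N : List Bool → ℤ} {s : ℕ} (h : Loc N s) (r p y q : List Bool)
    (hq : s ≤ q.length) : mix N p y (q ++ r) = mix N p y q := by
  unfold mix
  rw [fz_c1_loc h (p ++ [true] ++ y ++ [true]) q r (p ++ [true] ++ y ++ [true] ++ (q ++ r)) hq
      (by simp),
    fz_c1_loc h (p ++ [true] ++ y ++ [false]) q r (p ++ [true] ++ y ++ [false] ++ (q ++ r)) hq
      (by simp),
    fz_c1_loc h (p ++ [false] ++ y ++ [true]) q r (p ++ [false] ++ y ++ [true] ++ (q ++ r)) hq
      (by simp),
    fz_c1_loc h (p ++ [false] ++ y ++ [false]) q r (p ++ [false] ++ y ++ [false] ++ (q ++ r)) hq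
      (by simp)]
  ring

/- END fz_c1 -/

/- BEGIN fz_c2 : the mixed difference does not depend on the contexts.
Flip the letters of p one at a time: the flipped letter and the letter behind y are separated by
at least r + 1 letters, so `Cl N s (r+1)` applies after a prolongation of p on the left (mix_left)
by a word of length s.  So p may be replaced by `replicate p.length true`, and then by
`replicate s true` (mix_left again, `replicate (a+b) = replicate a ++ replicate b`).
Same for q. -/

private theorem fz_c2_flip {N : List Bool → ℤ} {s r : ℕ} (h : Loc N s) (hc : Cl N s (r + 1))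
    (y p₁ p₂ q : List Bool) (hy : y.length = r) (hp : s ≤ (p₁ ++ [true] ++ p₂).length)
    (hq : s ≤ q.length) (a : Bool) :
    mix N (p₁ ++ [a] ++ p₂) y q = mix N (p₁ ++ [true] ++ p₂) y q := by
  cases a
  · have hp' : s ≤ (p₁ ++ [false] ++ p₂).length := by
      simpa using hp
    have e1 := mix_left h (List.replicate s true) (p₁ ++ [false] ++ p₂) y q hp'
    have e2 := mix_left h (List.replicate s true) (p₁ ++ [true] ++ p₂) y q hp
    rw [← e1, ← e2]
    have h1 := hc (List.replicate s true ++ p₁) (p₂ ++ [true] ++ y) q (by simp) hq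
      (by simp; omega)
    have h2 := hc (List.replicate s true ++ p₁) (p₂ ++ [false] ++ y) q (by simp) hq
      (by simp; omega)
    unfold mix at h1 h2 ⊢
    simp only [List.append_assoc] at h1 h2 ⊢
    linarith
  · rfl

private theorem fz_c2_flip' {N : List Bool → ℤ} {s r : ℕ} (h : Loc N s) (hc : Cl N s (r + 1))
    (y p q₁ q₂ : List Bool) (hy : y.length = r) (hp : s ≤ p.length)
    (hq : s ≤ (q₁ ++ [true] ++ q₂).length) (a : Bool) :
    mix N p y (q₁ ++ [a] ++ q₂) = mix N p y (q₁ ++ [true] ++ q₂) := by
  cases a
  · have hq' : s ≤ (q₁ ++ [false] ++ q₂).length := by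
      simpa using hq
    have e1 := mix_right h (List.replicate s true) p y (q₁ ++ [false] ++ q₂) hq'
    have e2 := mix_right h (List.replicate s true) p y (q₁ ++ [true] ++ q₂) hq
    rw [← e1, ← e2]
    have h1 := hc p (y ++ [true] ++ q₁) (q₂ ++ List.replicate s true) hp (by simp)
      (by simp; omega)
    have h2 := hc p (y ++ [false] ++ q₁) (q₂ ++ List.replicate s true) hp (by simp)
      (by simp; omega)
    unfold mix at h1 h2 ⊢
    simp only [List.append_assoc] at h1 h2 ⊢
    linarith
  · rfl

private theorem fz_c2_all {N : List Bool → ℤ} {s r : ℕ} (h : Loc N s) (hc : Cl N s (r + 1))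
    (y q : List Bool) (hy : y.length = r) (hq : s ≤ q.length) :
    ∀ p p₁ : List Bool, s ≤ (p₁ ++ p).length →
      mix N (p₁ ++ p) y q = mix N (p₁ ++ List.replicate p.length true) y q := by
  intro p
  induction p with
  | nil => intro p₁ _; rfl
  | cons a p ih =>
    intro p₁ hp
    have h1 := ih (p₁ ++ [a]) (by simpa using hp)
    have h2 := fz_c2_flip h hc y p₁ (List.replicate p.length true) q hy (by simpa using hp) hq a
    have e1 : p₁ ++ a :: p = p₁ ++ [a] ++ p := by simp
    have e2 : p₁ ++ List.replicate (a :: p).length true =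
        p₁ ++ [true] ++ List.replicate p.length true := by
      simp [List.replicate_succ]
    rw [e1, e2, h1, h2]

private theorem fz_c2_all' {N : List Bool → ℤ} {s r : ℕ} (h : Loc N s) (hc : Cl N s (r + 1))
    (y p : List Bool) (hy : y.length = r) (hp : s ≤ p.length) :
    ∀ q q₁ : List Bool, s ≤ (q₁ ++ q).length →
      mix N p y (q₁ ++ q) = mix N p y (q₁ ++ List.replicate q.length true) := by
  intro q
  induction q with
  | nil => intro q₁ _; rfl
  | cons a q ih =>
    intro q₁ hq
    have h1 := ih (q₁ ++ [a]) (by simpa using hq)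
    have h2 := fz_c2_flip' h hc y p q₁ (List.replicate q.length true) hy hp (by simpa using hq) a
    have e1 : q₁ ++ a :: q = q₁ ++ [a] ++ q := by simp
    have e2 : q₁ ++ List.replicate (a :: q).length true =
        q₁ ++ [true] ++ List.replicate q.length true := by
      simp [List.replicate_succ]
    rw [e1, e2, h1, h2]

theorem mix_const {N : List Bool → ℤ} {s r : ℕ} (h : Loc N s) (hc : Cl N s (r + 1))
    (y p q : List Bool) (hy : y.length = r) (hp : s ≤ p.length) (hq : s ≤ q.length) :
    mix N p y q = mix N (List.replicate s true) y (List.replicate s true) := by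
  have h1 := fz_c2_all h hc y q hy hq p [] (by simpa using hp)
  have h2 := fz_c2_all' h hc y (List.replicate s true) hy (by simp) q [] (by simpa using hq)
  rw [List.nil_append, List.nil_append] at h1 h2
  have e1 : List.replicate p.length true =
      List.replicate (p.length - s) true ++ List.replicate s true := by
    rw [← List.replicate_add]
    congr 1
    omega
  have e2 : List.replicate q.length true =
      List.replicate s true ++ List.replicate (q.length - s) true := by
    rw [← List.replicate_add]
    congr 1
    omega
  rw [h1, e1, mix_left h _ _ _ _ (by simp), h2, e2, mix_right h _ _ _ _ (by simp)]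

/- END fz_c2 -/

/- BEGIN fz_c3 : four letters.  f (s,t,u,z) = N (A ++ [s,t] ++ y ++ [u,z] ++ B), contexts long. -/

theorem four_letters {N : List Bool → ℤ} {s r : ℕ} (h : Loc N s) (hc : Cl N s (r + 1))
    (y A B : List Bool) (hy : y.length = r) (hA : s ≤ A.length) (hB : s ≤ B.length) :
    N (A ++ [true, false] ++ y ++ [true, false] ++ B)
      - N (A ++ [false, true] ++ y ++ [true, false] ++ B)
      - N (A ++ [true, false] ++ y ++ [false, true] ++ B)
      + N (A ++ [false, true] ++ y ++ [false, true] ++ B)
      = - mix N (List.replicate s true) y (List.replicate s true) := by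
  have h13 := hc A ([false] ++ y) ([false] ++ B) hA (by simp; omega) (by simp; omega)
  have h14 := hc A ([false] ++ y ++ [false]) B hA hB (by simp; omega)
  have h24 := hc (A ++ [false]) (y ++ [false]) B (by simp; omega) hB (by simp; omega)
  have h23 := mix_const h hc y (A ++ [false]) ([false] ++ B) hy (by simp; omega) (by simp; omega)
  rw [← h23]
  unfold mix at h13 h14 h24 ⊢
  simp only [List.append_assoc, List.cons_append, List.nil_append] at h13 h14 h24 ⊢
  linarith

/- END fz_c3 -/

/- BEGIN fz_c4 : a long chain of mirror blocks contains the four words of `four_letters`.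
With v = y.reverse (if the number of blocks on the left is odd; or v = y) and
as = replicate k true ++ a :: c :: replicate k true:
W v as = A ++ [a, !a] ++ y ++ [c, !c] ++ B with A, B independent of a, c and of length ≥ s.
(Suggestion: prove a lemma W v (as ++ bs) = Wpre v as ++ W v' bs with v' = v or v.reverse
according to the parity of as.length.) -/

private theorem fz_c4_pre (v : List Bool) (m : ℕ) : ∃ A₀ : List Bool, 2 * m ≤ A₀.length ∧
    ∀ bs : List Bool, W v (List.replicate (2 * m) true ++ bs) = A₀ ++ W v bs := by
  induction m with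
  | zero => exact ⟨[], by simp, fun bs => by simp⟩
  | succ m ih =>
    obtain ⟨A₀, h1, h2⟩ := ih
    refine ⟨v ++ true :: false :: (v.reverse ++ true :: false :: A₀), by simp; omega, ?_⟩
    intro bs
    have e : List.replicate (2 * (m + 1)) true ++ bs =
        true :: true :: (List.replicate (2 * m) true ++ bs) := by
      rw [show 2 * (m + 1) = (2 * m + 1) + 1 by ring, List.replicate_succ, List.replicate_succ]
      rfl
    rw [e]
    show v ++ true :: (!true) :: (v.reverse ++ true :: (!true) :: W v.reverse.reverse _) = _
    rw [List.reverse_reverse, h2]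
    simp

private theorem fz_c4_len : ∀ (as v : List Bool), 2 * as.length ≤ (W v as).length := by
  intro as
  induction as with
  | nil => intro v; simp
  | cons a as ih =>
    intro v
    have h1 := ih v.reverse
    show 2 * (as.length + 1) ≤ (v ++ a :: (!a) :: W v.reverse as).length
    rw [List.length_append, List.length_cons, List.length_cons]
    omega

theorem chain (s : ℕ) (y : List Bool) : ∃ v A B : List Bool, s ≤ A.length ∧ s ≤ B.length ∧
    ∃ n : ℕ, ∀ a c : Bool, ∃ as : List Bool, as.length = n ∧
      W v as = A ++ [a, !a] ++ y ++ [c, !c] ++ B := by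
  obtain ⟨A₀, h1, h2⟩ := fz_c4_pre y.reverse s
  refine ⟨y.reverse, A₀ ++ y.reverse, W y.reverse (List.replicate s true), ?_, ?_,
    2 * s + (2 + s), ?_⟩
  · rw [List.length_append]
    omega
  · have := fz_c4_len (List.replicate s true) y.reverse
    rw [List.length_replicate] at this
    omega
  · intro a c
    refine ⟨List.replicate (2 * s) true ++ (a :: c :: List.replicate s true), ?_, ?_⟩
    · simp
      omega
    · rw [h2]
      show A₀ ++ (y.reverse ++ a :: (!a) :: (y.reverse.reverse ++ c :: (!c) ::
        W y.reverse.reverse.reverse _)) = _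
      rw [List.reverse_reverse]
      simp

theorem Cl_step {N : List Bool → ℤ} {s r : ℕ} (h : Loc N s) (hb : BRel N) (hc : Cl N s (r + 1)) :
    Cl N s r := by
  intro p y q hp hq hy
  by_cases hy1 : r + 1 ≤ y.length
  · exact hc p y q hp hq hy1
  · have hy2 : y.length = r := by omega
    rw [mix_const h hc y p q hy2 hp hq]
    obtain ⟨v, A, B, hA, hB, n, hn⟩ := chain s y
    have h4 := four_letters h hc y A B hy2 hA hB
    have hv : ∀ a c : Bool, N (A ++ [a, !a] ++ y ++ [c, !c] ++ B) = ((n : ℤ) + 1) * N v := by
      intro a c
      obtain ⟨as, h5, h6⟩ := hn a c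
      rw [← h6, hb.blk, h5]
    have e1 : N (A ++ [true, false] ++ y ++ [true, false] ++ B) = ((n : ℤ) + 1) * N v :=
      hv true true
    have e2 : N (A ++ [false, true] ++ y ++ [true, false] ++ B) = ((n : ℤ) + 1) * N v :=
      hv false true
    have e3 : N (A ++ [true, false] ++ y ++ [false, true] ++ B) = ((n : ℤ) + 1) * N v :=
      hv true false
    have e4 : N (A ++ [false, true] ++ y ++ [false, true] ++ B) = ((n : ℤ) + 1) * N v :=
      hv false false
    rw [e1, e2, e3, e4] at h4
    linarith

/- END fz_c4 -/

/- BEGIN fz_c5 : conclusion.  From Cl N s 0: flipping one letter with contexts of length ≥ s costs a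
constant δ; N (replicate n false) = 0 and N (p ++ replicate t true ++ q) =
N (p ++ replicate s true) + N (replicate s true ++ q) (t ≥ s) give δ = 0; so N is bounded; then
hb.blk with as long gives N = 0. -/

private theorem fz_c5_flip {N : List Bool → ℤ} {s : ℕ} (h : Loc N s) (hc : Cl N s 0)
    (p₁ p₂ q : List Bool) (hp : s ≤ (p₁ ++ [true] ++ p₂).length) (hq : s ≤ q.length) (a : Bool) :
    N (p₁ ++ [a] ++ p₂ ++ [false] ++ q) - N (p₁ ++ [a] ++ p₂ ++ [true] ++ q) =
      N (p₁ ++ [true] ++ p₂ ++ [false] ++ q) - N (p₁ ++ [true] ++ p₂ ++ [true] ++ q) := by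
  cases a
  · have hp' : s ≤ (p₁ ++ [false] ++ p₂).length := by
      simpa using hp
    have h1 := hc (List.replicate s true ++ p₁) p₂ q (by simp) hq (by simp)
    have e : ∀ b c : Bool, N (List.replicate s true ++ p₁ ++ [b] ++ p₂ ++ [c] ++ q) =
        N (List.replicate s true ++ (p₁ ++ [b] ++ p₂)) + N (p₁ ++ [b] ++ p₂ ++ ([c] ++ q)) -
          N (p₁ ++ [b] ++ p₂) := by
      intro b c
      refine fz_c1_loc h (List.replicate s true) (p₁ ++ [b] ++ p₂) ([c] ++ q) _ ?_ (by simp)
      simpa using hp
    unfold mix at h1
    rw [e, e, e, e] at h1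
    simp only [List.append_assoc] at h1 ⊢
    linarith
  · rfl

private theorem fz_c5_flip' {N : List Bool → ℤ} {s : ℕ} (h : Loc N s) (hc : Cl N s 0)
    (p q₁ q₂ : List Bool) (hp : s ≤ p.length) (hq : s ≤ (q₁ ++ [true] ++ q₂).length) (a : Bool) :
    N (p ++ [false] ++ (q₁ ++ [a] ++ q₂)) - N (p ++ [true] ++ (q₁ ++ [a] ++ q₂)) =
      N (p ++ [false] ++ (q₁ ++ [true] ++ q₂)) - N (p ++ [true] ++ (q₁ ++ [true] ++ q₂)) := by
  cases a
  · have h1 := hc p q₁ (q₂ ++ List.replicate s true) hp (by simp) (by simp)
    have e : ∀ b c : Bool, N (p ++ [b] ++ q₁ ++ [c] ++ (q₂ ++ List.replicate s true)) =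
        N (p ++ [b] ++ (q₁ ++ [c] ++ q₂)) + N (q₁ ++ [c] ++ q₂ ++ List.replicate s true) -
          N (q₁ ++ [c] ++ q₂) := by
      intro b c
      refine fz_c1_loc h (p ++ [b]) (q₁ ++ [c] ++ q₂) (List.replicate s true) _ ?_ (by simp)
      simpa using hq
    unfold mix at h1
    rw [e, e, e, e] at h1
    linarith
  · rfl

private theorem fz_c5_all {N : List Bool → ℤ} {s : ℕ} (h : Loc N s) (hc : Cl N s 0)
    (q : List Bool) (hq : s ≤ q.length) :
    ∀ p p₁ : List Bool, s ≤ (p₁ ++ p).length →
      N (p₁ ++ p ++ [false] ++ q) - N (p₁ ++ p ++ [true] ++ q) =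
      N (p₁ ++ List.replicate p.length true ++ [false] ++ q) -
        N (p₁ ++ List.replicate p.length true ++ [true] ++ q) := by
  intro p
  induction p with
  | nil => intro p₁ _; rfl
  | cons a p ih =>
    intro p₁ hp
    have h1 := ih (p₁ ++ [a]) (by simpa using hp)
    have h2 := fz_c5_flip h hc p₁ (List.replicate p.length true) q (by simpa using hp) hq a
    have e1 : p₁ ++ a :: p = p₁ ++ [a] ++ p := by simp
    have e2 : p₁ ++ List.replicate (a :: p).length true =
        p₁ ++ [true] ++ List.replicate p.length true := by
      simp [List.replicate_succ]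
    rw [e1, e2, h1, h2]

private theorem fz_c5_all' {N : List Bool → ℤ} {s : ℕ} (h : Loc N s) (hc : Cl N s 0)
    (p : List Bool) (hp : s ≤ p.length) :
    ∀ q q₁ : List Bool, s ≤ (q₁ ++ q).length →
      N (p ++ [false] ++ (q₁ ++ q)) - N (p ++ [true] ++ (q₁ ++ q)) =
      N (p ++ [false] ++ (q₁ ++ List.replicate q.length true)) -
        N (p ++ [true] ++ (q₁ ++ List.replicate q.length true)) := by
  intro q
  induction q with
  | nil => intro q₁ _; rfl
  | cons a q ih =>
    intro q₁ hq
    have h1 := ih (q₁ ++ [a]) (by simpa using hq)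
    have h2 := fz_c5_flip' h hc p q₁ (List.replicate q.length true) hp (by simpa using hq) a
    have e1 : q₁ ++ a :: q = q₁ ++ [a] ++ q := by simp
    have e2 : q₁ ++ List.replicate (a :: q).length true =
        q₁ ++ [true] ++ List.replicate q.length true := by
      simp [List.replicate_succ]
    rw [e1, e2, h1, h2]

theorem flip_const {N : List Bool → ℤ} {s : ℕ} (h : Loc N s) (hc : Cl N s 0) :
    ∃ δ : ℤ, ∀ p q : List Bool, s ≤ p.length → s ≤ q.length →
      N (p ++ [false] ++ q) - N (p ++ [true] ++ q) = δ := by
  refine ⟨N (List.replicate s true ++ [false] ++ List.replicate s true) -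
    N (List.replicate s true ++ [true] ++ List.replicate s true), ?_⟩
  intro p q hp hq
  have h1 := fz_c5_all h hc q hq p [] (by simpa using hp)
  have h2 := fz_c5_all' h hc (List.replicate s true) (by simp) q [] (by simpa using hq)
  rw [List.nil_append, List.nil_append] at h1 h2
  have e1 : List.replicate p.length true =
      List.replicate (p.length - s) true ++ List.replicate s true := by
    rw [← List.replicate_add]
    congr 1
    omega
  have e2 : List.replicate q.length true =
      List.replicate s true ++ List.replicate (q.length - s) true := by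
    rw [← List.replicate_add]
    congr 1
    omega
  have e3 : ∀ c : Bool, N (List.replicate p.length true ++ [c] ++ q) =
      N (List.replicate (p.length - s) true ++ List.replicate s true) +
        N (List.replicate s true ++ ([c] ++ q)) - N (List.replicate s true) := by
    intro c
    exact fz_c1_loc h (List.replicate (p.length - s) true) (List.replicate s true) ([c] ++ q) _
      (by simp) (by rw [e1]; simp)
  have e4 : ∀ c : Bool, N (List.replicate s true ++ [c] ++ List.replicate q.length true) =
      N (List.replicate s true ++ [c] ++ List.replicate s true) +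
        N (List.replicate s true ++ List.replicate (q.length - s) true) -
        N (List.replicate s true) := by
    intro c
    exact fz_c1_loc h (List.replicate s true ++ [c]) (List.replicate s true)
      (List.replicate (q.length - s) true) _
      (by simp) (by rw [e2]; simp)
  rw [e3, e3] at h1
  rw [e4, e4] at h2
  simp only [List.append_assoc] at h1 h2 ⊢
  linarith

private theorem fz_c5_mid {N : List Bool → ℤ} {s : ℕ} (h : Loc N s) (b : Bool)
    (hpos : ∀ n : ℕ, N (List.replicate n b) = 0) (p q : List Bool) (t : ℕ) (ht : s ≤ t) :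
    N (p ++ List.replicate t b ++ q)
      = N (p ++ List.replicate s b) + N (List.replicate s b ++ q) := by
  have h1 := h p (List.replicate t b) q (by simpa using ht)
  have h2 := h p (List.replicate s b) (List.replicate (t - s) b) (by simp)
  have h3 := h (List.replicate (t - s) b) (List.replicate s b) q (by simp)
  rw [List.append_assoc, ← List.replicate_add] at h2
  rw [← List.replicate_add] at h3
  rw [show s + (t - s) = t by omega] at h2
  rw [show t - s + s = t by omega] at h3
  rw [hpos] at h1
  rw [hpos, hpos] at h2
  rw [hpos, hpos] at h3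
  linarith

theorem N_middle {N : List Bool → ℤ} {s : ℕ} (h : Loc N s)
    (hpos : ∀ n : ℕ, N (List.replicate n true) = 0) (p q : List Bool) (t : ℕ) (ht : s ≤ t) :
    N (p ++ List.replicate t true ++ q)
      = N (p ++ List.replicate s true) + N (List.replicate s true ++ q) :=
  fz_c5_mid h true hpos p q t ht

private theorem fz_c5_word {N : List Bool → ℤ} {s : ℕ} {δ : ℤ}
    (hδ : ∀ p q : List Bool, s ≤ p.length → s ≤ q.length →
      N (p ++ [false] ++ q) - N (p ++ [true] ++ q) = δ) (q : List Bool) (hq : s ≤ q.length) :
    ∀ m p : List Bool, s ≤ p.length →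
      N (p ++ m ++ q) = N (p ++ List.replicate m.length true ++ q) + (m.count false : ℤ) * δ := by
  intro m
  induction m with
  | nil => intro p _; simp
  | cons a m ih =>
    intro p hp
    have h1 := ih (p ++ [a]) (by simp; omega)
    have e1 : p ++ a :: m ++ q = p ++ [a] ++ m ++ q := by simp
    have e2 : p ++ List.replicate (a :: m).length true ++ q =
        p ++ [true] ++ (List.replicate m.length true ++ q) := by
      simp [List.replicate_succ]
    rw [e1, e2, h1]
    cases a
    · have h2 := hδ p (List.replicate m.length true ++ q) hp (by simp; omega)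
      rw [List.count_cons_self]
      push_cast
      simp only [List.append_assoc] at h2 ⊢
      linarith
    · rw [List.count_cons_of_ne (by simp)]
      simp only [List.append_assoc]

theorem N_bdd {N : List Bool → ℤ} {s : ℕ} (h : Loc N s) (hb : BRel N) (hc : Cl N s 0) :
    ∃ B : ℤ, ∀ w : List Bool, |N w| ≤ B := by
  obtain ⟨δ, hδ⟩ := flip_const h hc
  have hw := fz_c5_word hδ
  -- δ = 0
  have hm : ∀ m : ℕ, s ≤ m → (m : ℤ) * δ =
      N (List.replicate s true ++ List.replicate s false) +
        N (List.replicate s false ++ List.replicate s true) := by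
    intro m hm
    have h1 := hw (List.replicate s true) (by simp) (List.replicate m false)
      (List.replicate s true) (by simp)
    have h2 := fz_c5_mid h false hb.neg (List.replicate s true) (List.replicate s true) m hm
    rw [h2, List.length_replicate, ← List.replicate_add, ← List.replicate_add, hb.pos,
      List.count_replicate_self] at h1
    linarith
  have hδ0 : δ = 0 := by
    have h1 := hm s le_rfl
    have h2 := hm (s + 1) (by omega)
    push_cast at h2
    linarith
  -- finitely many short words
  obtain ⟨B, hB⟩ : ∃ B : ℤ, ∀ w : List Bool, w.length < 3 * s + 1 → |N w| ≤ B := by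
    have hfin : ({w : List Bool | w.length < 3 * s + 1}).Finite := List.finite_length_lt Bool _
    obtain ⟨B, hB⟩ := (hfin.image (fun w => |N w|)).bddAbove
    exact ⟨B, fun w hw => hB ⟨w, hw, rfl⟩⟩
  have hB0 : 0 ≤ B := le_trans (abs_nonneg _) (hB [] (by simp))
  refine ⟨2 * B, ?_⟩
  intro w
  by_cases hl : w.length < 3 * s + 1
  · have := hB w hl
    linarith
  · have hsplit : w = w.take s ++ (w.drop s).take (w.length - 2 * s) ++
        (w.drop s).drop (w.length - 2 * s) := by
      rw [List.append_assoc, List.take_append_drop, List.take_append_drop]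
    have hl1 : (w.take s).length = s := by
      rw [List.length_take]
      omega
    have hl2 : ((w.drop s).take (w.length - 2 * s)).length = w.length - 2 * s := by
      rw [List.length_take, List.length_drop]
      omega
    have hl3 : ((w.drop s).drop (w.length - 2 * s)).length = s := by
      rw [List.length_drop, List.length_drop]
      omega
    have h1 := hw ((w.drop s).drop (w.length - 2 * s)) (by omega)
      ((w.drop s).take (w.length - 2 * s)) (w.take s) (by omega)
    rw [← hsplit, hδ0, mul_zero, add_zero,
      N_middle h hb.pos _ _ _ (by rw [hl2]; omega)] at h1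
    rw [h1]
    refine (abs_add_le _ _).trans ?_
    have h2 := hB (w.take s ++ List.replicate s true) (by
      rw [List.length_append, List.length_replicate]
      omega)
    have h3 := hB (List.replicate s true ++ (w.drop s).drop (w.length - 2 * s)) (by
      rw [List.length_append, List.length_replicate]
      omega)
    linarith

theorem comb {N : List Bool → ℤ} {s : ℕ} (h : Loc N s) (hb : BRel N) (w : List Bool) :
    N w = 0 := by
  have hc : ∀ j : ℕ, j ≤ s → Cl N s (s - j) := by
    intro j
    induction j with
    | zero => intro _; exact Cl_base h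
    | succ j ih =>
      intro hj
      have h1 := ih (by omega)
      rw [show s - j = s - (j + 1) + 1 by omega] at h1
      exact Cl_step h hb h1
  have hc0 : Cl N s 0 := by
    have h1 := hc s le_rfl
    rw [Nat.sub_self] at h1
    exact h1
  obtain ⟨B, hB⟩ := N_bdd h hb hc0
  by_contra hne
  have hB0 : 0 ≤ B := le_trans (abs_nonneg _) (hB w)
  have h1 := hB (W w (List.replicate B.toNat true))
  rw [hb.blk, List.length_replicate, abs_mul] at h1
  have h2 : 1 ≤ |N w| := Int.one_le_abs hne
  have h3 : (B.toNat : ℤ) = B := Int.toNat_of_nonneg hB0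
  rw [h3, abs_of_nonneg (by linarith : (0 : ℤ) ≤ B + 1)] at h1
  nlinarith

/- END fz_c5 -/

end Pool.Agent.FZC
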