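import Mathlib

set_option autoImplicit false

open Polynomial

/-!
# The Feinberg-Zee spectrum is connected: definitions

Words are `List Bool`, `true` is the sign `+1`, `false` is `-1`.  A word `w` of length `n` is the
subdiagonal of the `(n+1) x (n+1)` matrix `A_w` (superdiagonal 1); its `n + 1` rows are called sites.
Text: store MP_1366af_an_connected_helper29.md.
-/

namespace Pool.Agent.FZC

/-- The sign of a letter. -/
def sg (a : Bool) : ℂ := if a then 1 else -1

/-- `(KK w).1 = det (X - A_w)`; `(KK w).2` is the same polynomial for the matrix without its first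
row and column (`1` if `w = []`). -/
noncomputable def KK : List Bool → ℂ[X] × ℂ[X]
  | [] => (X, 1)
  | a :: w => (X * (KK w).1 - C (sg a) * (KK w).2, (KK w).1)

/-- `D w = det (X - A_w)`, monic of degree `w.length + 1`. -/
noncomputable def D (w : List Bool) : ℂ[X] := (KK w).1

/-- The characteristic polynomial of the first `j` sites of `w` (for `j ≤ w.length + 1`). -/
noncomputable def KS (w : List Bool) (j : ℕ) : ℂ[X] := if j = 0 then 1 else D (w.take (j - 1))

/-- `P v = X * D v`. -/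
noncomputable def P (v : List Bool) : ℂ[X] := X * D v

/-- The product of the signs of the letters, as a letter. -/
def pb : List Bool → Bool
  | [] => true
  | a :: w => a == pb w

/-- The next junction sign: `sg (nx pv a c) = - sg pv * sg a * sg c`. -/
def nx (pv a c : Bool) : Bool := !((a == c) == pv)

/-- The junction signs which realise the word `u` (first junction sign `a`). -/
def J (pv : Bool) : Bool → List Bool → List Bool
  | a, [] => [a]
  | a, c :: u => a :: J pv (nx pv a c) u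

/-- `W v [a₀, .., a_l] = v a₀ (-a₀) v^R a₁ (-a₁) v a₂ (-a₂) ...` (`l + 2` blocks). -/
def W : List Bool → List Bool → List Bool
  | v, [] => v
  | v, a :: as => v ++ a :: (!a) :: W v.reverse as

/-- Decay of the resolvent of all finite sections at `z` with constant `M`. -/
def DecU (M : ℝ) (z : ℂ) : Prop :=
  ∀ (w : List Bool) (j : ℕ), j ≤ w.length →
    ((w.length : ℝ) - j + 1) * ‖(KS w j).eval z‖ ≤ M * ‖(D w).eval z‖

open Classical in
/-- The number of roots of `F` in `U`, with multiplicity. -/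
noncomputable def cnt (U : Set ℂ) (F : ℂ[X]) : ℕ := F.roots.countP (fun z => z ∈ U)

/-- `N_Q(w) - (|w| + 1) N_Q([])` of the text. -/
noncomputable def NQ (U : Set ℂ) (Q : ℂ[X]) (w : List Bool) : ℤ :=
  (cnt U ((D w).comp Q) : ℤ) - ((w.length : ℤ) + 1) * (cnt U Q : ℤ)

/-- Locality with separators of length `s`. -/
def Loc (N : List Bool → ℤ) (s : ℕ) : Prop :=
  ∀ p x y : List Bool, s ≤ x.length → N (p ++ x ++ y) + N x = N (p ++ x) + N (x ++ y)

/-- The block relations (B') and the normalisation (C). -/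
structure BRel (N : List Bool → ℤ) : Prop where
  blk : ∀ v as : List Bool, N (W v as) = ((as.length : ℤ) + 1) * N v
  pos : ∀ n : ℕ, N (List.replicate n true) = 0
  neg : ∀ n : ℕ, N (List.replicate n false) = 0

/-- Mixed second difference of `N` in two letters with the word `y` between them. -/
def mix (N : List Bool → ℤ) (p y q : List Bool) : ℤ :=
  N (p ++ [true] ++ y ++ [true] ++ q) - N (p ++ [true] ++ y ++ [false] ++ q)
    - N (p ++ [false] ++ y ++ [true] ++ q) + N (p ++ [false] ++ y ++ [false] ++ q)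

/-- Two letters at distance at least `r + 1`, far from the ends, do not interact. -/
def Cl (N : List Bool → ℤ) (s r : ℕ) : Prop :=
  ∀ p y q : List Bool, s ≤ p.length → s ≤ q.length → r ≤ y.length → mix N p y q = 0

/-- There is a bounded nonzero solution of `A_b ψ = z ψ` for some sign sequence `b`. -/
def BddSol (z : ℂ) : Prop :=
  ∃ b : ℤ → ℂ, (∀ n, b n = 1 ∨ b n = -1) ∧ ∃ ψ : ℤ → ℂ, (∃ C : ℝ, ∀ n, ‖ψ n‖ ≤ C) ∧
    (∃ n, ψ n ≠ 0) ∧ ∀ n, ψ (n + 1) + b (n - 1) * ψ (n - 1) = z * ψ n

/-- Residual in the symmetric gauge. -/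
def Rs (c : ℤ → ℂ) (z : ℂ) (φ : ℤ → ℂ) (n : ℤ) : ℂ :=
  c n * φ (n + 1) + c (n - 1) * φ (n - 1) - z * φ n

/-- The uniform sup-norm lower bound at `z`, symmetric gauge. -/
def Unif (m : ℝ) (z : ℂ) : Prop :=
  ∀ c : ℤ → ℂ, (∀ n, c n = 1 ∨ c n = Complex.I) → ∀ φ : ℤ → ℂ, (∃ C : ℝ, ∀ n, ‖φ n‖ ≤ C) →
    ∀ δ : ℝ, (∀ n, ‖Rs c z φ n‖ ≤ δ) → ∀ n, m * ‖φ n‖ ≤ δ

/-- The letters `β k, .., β (k + n - 1)`. -/
def LL (β : ℤ → Bool) (k : ℤ) (n : ℕ) : List Bool := (List.range n).map (fun j => β (k + (j : ℤ)))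

/-- The Feinberg-Zee spectrum, verbatim the set of the frozen statement S03875. -/
def Sig : Set ℂ :=
  {z : ℂ | ∃ b : ℤ → ℂ, (∀ n, b n = 1 ∨ b n = -1) ∧
      ¬ ∃ B : lp (fun _ : ℤ => ℂ) 2 →L[ℂ] lp (fun _ : ℤ => ℂ) 2,
        ∀ x y : lp (fun _ : ℤ => ℂ) 2,
          (∀ n : ℤ, y n = x (n + 1) + b (n - 1) * x (n - 1) - z * x n) ↔ B y = x}

end Pool.Agent.FZC
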