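import Pool.Agent.FZC.Gau

set_option autoImplicit false

/-!
`z ∈ Sig ↔ BddSol z`.  Modules `fz_f1` .. `fz_f4`.
-/

namespace Pool.Agent.FZC

/- BEGIN fz_f1 : a bounded solution excludes an inverse.  ψ_M = ψ on [-M,M], 0 outside;
r_M = (A_b - z) ψ_M is supported in {-M-1,-M,M,M+1}, entries bounded by (|z|+2) C;
ψ j = ψ_M j = ⟪e_j, B r_M⟫ = ⟪B† e_j, r_M⟫, and the coordinates of B† e_j tend to 0. -/

private noncomputable abbrev f1_E := lp (fun _ : ℤ => ℂ) 2

private theorem f1_summable (x : f1_E) : Summable (fun n : ℤ => ‖x n‖ ^ 2) := by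
  have h := lp.memℓp x
  have := (memℓp_gen_iff (p := 2) (by norm_num)).mp h
  simpa using this

private theorem f1_memlp {f : ℤ → ℂ} (h : Summable (fun n : ℤ => ‖f n‖ ^ 2)) :
    Memℓp f 2 := by
  rw [memℓp_gen_iff (by norm_num)]
  simpa using h

private theorem f1_small (x : f1_E) (ε : ℝ) (hε : 0 < ε) :
    ∃ s : Finset ℤ, ∀ n, n ∉ s → ‖x n‖ < ε := by
  have h := (f1_summable x).tendsto_cofinite_zero
  have h2 := h.eventually_lt_const (show (0 : ℝ) < ε ^ 2 by positivity)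
  rw [Filter.eventually_cofinite] at h2
  refine ⟨h2.toFinset, fun n hn => ?_⟩
  rw [Set.Finite.mem_toFinset] at hn
  simp only [Set.mem_ofPred_eq, not_not] at hn
  exact lt_of_pow_lt_pow_left₀ 2 hε.le hn

private theorem f1_fin {f : ℤ → ℂ} (s : Finset ℤ) (h : ∀ n, n ∉ s → f n = 0) :
    Memℓp f 2 := by
  apply f1_memlp
  apply summable_of_ne_finset_zero (s := s)
  intro n hn
  rw [h n hn]; simp

theorem mem_Sig_of_bddSol {z : ℂ} (h : BddSol z) : z ∈ Sig := by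
  obtain ⟨b, hb, ψ, ⟨C, hC⟩, ⟨j, hj⟩, hψ⟩ := h
  refine ⟨b, hb, ?_⟩
  rintro ⟨B, hB⟩
  apply hj
  have hb1 : ∀ n, ‖b n‖ = 1 := fun n => by rcases hb n with h | h <;> simp [h]
  have hC0 : 0 ≤ C := (norm_nonneg _).trans (hC 0)
  -- the functional x ↦ (B x) j
  let L : f1_E →L[ℂ] ℂ := ((lp.evalCLM ℂ (fun _ : ℤ => ℂ) 2 j).comp B : f1_E →L[ℂ] ℂ)
  let a : f1_E := (InnerProductSpace.toDual ℂ f1_E).symm L
  have ha : ∀ x : f1_E, inner ℂ a x = B x j := fun x =>
    InnerProductSpace.toDual_symm_apply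
  have hest : ∀ ε : ℝ, 0 < ε → ‖ψ j‖ ≤ 4 * (ε * ((‖z‖ + 2) * C)) := by
    intro ε hε
    obtain ⟨s, hs⟩ := f1_small a ε hε
    obtain ⟨M, hM1, hM2⟩ : ∃ M : ℤ, |j| ≤ M ∧ ∀ n ∈ s, |n| < M := by
      refine ⟨|j| + ∑ n ∈ s, |n| + 1, ?_, fun n hn => ?_⟩
      · have : 0 ≤ ∑ n ∈ s, |n| := Finset.sum_nonneg (fun n _ => abs_nonneg n)
        linarith
      · have h1 : |n| ≤ ∑ n ∈ s, |n| :=
          Finset.single_le_sum (f := fun n : ℤ => |n|) (fun n _ => abs_nonneg n) hn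
        have := abs_nonneg j
        linarith
    let f : ℤ → ℂ := fun n => if |n| ≤ M then ψ n else 0
    have hf1 : ∀ n, |n| ≤ M → f n = ψ n := fun n hn => if_pos hn
    have hf0 : ∀ n, ¬ |n| ≤ M → f n = 0 := fun n hn => if_neg hn
    have hfC : ∀ n, ‖f n‖ ≤ C := fun n => by
      by_cases h : |n| ≤ M
      · rw [hf1 n h]; exact hC n
      · rw [hf0 n h, norm_zero]; exact hC0
    let r : ℤ → ℂ := fun n => f (n + 1) + b (n - 1) * f (n - 1) - z * f n
    let F : Finset ℤ := {-M - 1, -M, M, M + 1}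
    have hr0 : ∀ n, n ∉ F → r n = 0 := by
      intro n hn
      simp only [F, Finset.mem_insert, Finset.mem_singleton, not_or] at hn
      obtain ⟨h1, h2, h3, h4⟩ := hn
      show f (n + 1) + b (n - 1) * f (n - 1) - z * f n = 0
      by_cases h : |n| < M
      · rw [abs_lt] at h
        rw [hf1 (n + 1) (abs_le.mpr (by omega)), hf1 (n - 1) (abs_le.mpr (by omega)),
          hf1 n (abs_le.mpr (by omega)), hψ n, sub_self]
      · have h5 : M + 1 < n ∨ n < -M - 1 := by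
          rw [abs_lt] at h
          omega
        have h6 : ∀ k : ℤ, M < k ∨ k < -M → f k = 0 := fun k hk => hf0 k (by
          rw [abs_le]; omega)
        rw [h6 (n + 1) (by omega), h6 (n - 1) (by omega), h6 n (by omega)]
        ring
    have hrC : ∀ n, ‖r n‖ ≤ (‖z‖ + 2) * C := by
      intro n
      have e1 : ‖r n‖ ≤ ‖f (n + 1)‖ + ‖b (n - 1) * f (n - 1)‖ + ‖z * f n‖ :=
        (norm_sub_le _ _).trans (add_le_add (norm_add_le _ _) le_rfl)
      rw [norm_mul, norm_mul, hb1, one_mul] at e1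
      have e2 := mul_le_mul_of_nonneg_left (hfC n) (norm_nonneg z)
      linarith [hfC (n + 1), hfC (n - 1)]
    have hfm : Memℓp f 2 := f1_fin (Finset.Icc (-M) M) (fun n hn => hf0 n (by
      rw [abs_le]; rwa [Finset.mem_Icc] at hn))
    have hrm : Memℓp r 2 := f1_fin F hr0
    let X : f1_E := ⟨f, hfm⟩
    let Y : f1_E := ⟨r, hrm⟩
    have hBY : B Y = X := (hB X Y).mp (fun n => rfl)
    have e1 : ψ j = inner ℂ a Y := by
      rw [ha, hBY]
      exact (hf1 j hM1).symm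
    have e2 : inner ℂ a Y = ∑ n ∈ F, inner ℂ (a n) (Y n) := by
      rw [lp.inner_eq_tsum]
      apply tsum_eq_sum
      intro n hn
      have : Y n = 0 := hr0 n hn
      rw [this, inner_zero_right]
    have hF : ∀ n ∈ F, n ∉ s := by
      intro n hn hns
      have h3 := abs_lt.mp (hM2 n hns)
      simp only [F, Finset.mem_insert, Finset.mem_singleton] at hn
      omega
    have hcard : F.card ≤ 4 := Finset.card_le_four
    rw [e1, e2]
    calc ‖∑ n ∈ F, inner ℂ (a n) (Y n)‖ ≤ ∑ n ∈ F, ‖inner ℂ (a n) (Y n)‖ := norm_sum_le _ _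
      _ ≤ ∑ n ∈ F, ε * ((‖z‖ + 2) * C) := by
          apply Finset.sum_le_sum
          intro n hn
          refine (norm_inner_le_norm _ _).trans ?_
          exact mul_le_mul (hs n (hF n hn)).le (hrC n) (norm_nonneg _) hε.le
      _ = F.card * (ε * ((‖z‖ + 2) * C)) := by rw [Finset.sum_const, nsmul_eq_mul]
      _ ≤ 4 * (ε * ((‖z‖ + 2) * C)) := by
          apply mul_le_mul_of_nonneg_right
          · exact_mod_cast hcard
          · have := norm_nonneg z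
            positivity
  by_contra hne
  have hpos : 0 < ‖ψ j‖ := norm_pos_iff.mpr hne
  have hK : 0 < 4 * ((‖z‖ + 2) * C) + 1 := by
    have := norm_nonneg z
    positivity
  have h1 := hest (‖ψ j‖ / (4 * ((‖z‖ + 2) * C) + 1)) (by positivity)
  have h2 : 4 * (‖ψ j‖ / (4 * ((‖z‖ + 2) * C) + 1) * ((‖z‖ + 2) * C)) < ‖ψ j‖ := by
    rw [show 4 * (‖ψ j‖ / (4 * ((‖z‖ + 2) * C) + 1) * ((‖z‖ + 2) * C))
      = ‖ψ j‖ * (4 * ((‖z‖ + 2) * C)) / (4 * ((‖z‖ + 2) * C) + 1) by ring,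
      div_lt_iff₀ hK]
    nlinarith
  linarith

/- END fz_f1 -/

/- BEGIN fz_f2 : the operator on ℓ² -/

private theorem f2_shift (β : ℤ → ℂ) (hβ : ∀ n, ‖β n‖ ≤ 1) (k : ℤ) :
    ∃ T : f1_E →L[ℂ] f1_E, ∀ (x : f1_E) (n : ℤ), T x n = β n * x (n + k) := by
  have hs : ∀ x : f1_E, Summable (fun n : ℤ => ‖x (n + k)‖ ^ 2) := fun x =>
    (f1_summable x).comp_injective (add_left_injective k)
  have hle : ∀ (x : f1_E) (n : ℤ), ‖β n * x (n + k)‖ ^ 2 ≤ ‖x (n + k)‖ ^ 2 := fun x n => by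
    rw [norm_mul, mul_pow]
    have : ‖β n‖ ^ 2 ≤ 1 := pow_le_one₀ (norm_nonneg _) (hβ n)
    exact mul_le_of_le_one_left (by positivity) this
  have hm : ∀ x : f1_E, Memℓp (fun n => β n * x (n + k)) 2 := fun x =>
    f1_memlp (Summable.of_nonneg_of_le (fun _ => by positivity) (hle x) (hs x))
  let T0 : f1_E →ₗ[ℂ] f1_E :=
    { toFun := fun x => ⟨fun n => β n * x (n + k), hm x⟩
      map_add' := fun x y => by
        ext n
        show β n * (x + y) (n + k) = β n * x (n + k) + β n * y (n + k)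
        rw [lp.coeFn_add, Pi.add_apply]; ring
      map_smul' := fun c x => by
        ext n
        show β n * (c • x) (n + k) = c * (β n * x (n + k))
        rw [lp.coeFn_smul, Pi.smul_apply, smul_eq_mul]; ring }
  refine ⟨T0.mkContinuous 1 (fun x => ?_), fun x n => rfl⟩
  rw [one_mul]
  have h1 : ‖T0 x‖ ^ 2 = ∑' n : ℤ, ‖β n * x (n + k)‖ ^ 2 := by
    have h0 := lp.norm_rpow_eq_tsum (p := 2) (by norm_num) (T0 x)
    have h00 : ‖T0 x‖ ^ 2 = ∑' n : ℤ, ‖(T0 x) n‖ ^ 2 := by simpa using h0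
    exact h00
  have h2 : ‖x‖ ^ 2 = ∑' n : ℤ, ‖x n‖ ^ 2 := by
    have := lp.norm_rpow_eq_tsum (p := 2) (by norm_num) x
    simpa using this
  have h3 : ∑' n : ℤ, ‖x (n + k)‖ ^ 2 = ∑' n : ℤ, ‖x n‖ ^ 2 :=
    (Equiv.addRight k).tsum_eq (fun n => ‖x n‖ ^ 2)
  have h4 : ‖T0 x‖ ^ 2 ≤ ‖x‖ ^ 2 := by
    rw [h1, h2, ← h3]
    exact Summable.tsum_le_tsum (hle x)
      (Summable.of_nonneg_of_le (fun _ => by positivity) (hle x) (hs x)) (hs x)
  exact le_of_sq_le_sq h4 (norm_nonneg _)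

theorem exists_op (b : ℤ → ℂ) (hb : ∀ n, b n = 1 ∨ b n = -1) (z : ℂ) :
    ∃ T : lp (fun _ : ℤ => ℂ) 2 →L[ℂ] lp (fun _ : ℤ => ℂ) 2,
      ∀ (x : lp (fun _ : ℤ => ℂ) 2) (n : ℤ),
        T x n = x (n + 1) + b (n - 1) * x (n - 1) - z * x n := by
  have hb1 : ∀ n, ‖b n‖ ≤ 1 := fun n => by rcases hb n with h | h <;> simp [h]
  obtain ⟨T1, h1⟩ := f2_shift (fun _ => 1) (fun _ => by simp) 1
  obtain ⟨T2, h2⟩ := f2_shift (fun n => b (n - 1)) (fun n => hb1 _) (-1)
  refine ⟨T1 + T2 - z • ContinuousLinearMap.id ℂ _, fun x n => ?_⟩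
  show (T1 x + T2 x - z • x) n = _
  rw [lp.coeFn_sub, Pi.sub_apply, lp.coeFn_add, Pi.add_apply, h1, h2, lp.coeFn_smul, Pi.smul_apply,
    smul_eq_mul, one_mul, ← sub_eq_add_neg]

/- END fz_f2 -/

/- BEGIN fz_f3 : lower bound on ℓ² by cut-offs.  For every n and R ≥ 1, Unif_b for φ x with
φ i = max 0 (1 - |i-n|/R) gives m |x n| ≤ max_{|i-n| ≤ R} |y i| + (2/R) max_{|i-n| ≤ R+1} |x i|,
y = T x; square (bound the max² by the sum), sum over n, choose R with 8 (2R+3)/R² ≤ m²/2. -/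

private theorem f3_nsq (x : f1_E) : ‖x‖ ^ 2 = ∑' n : ℤ, ‖x n‖ ^ 2 := by
  have := lp.norm_rpow_eq_tsum (p := 2) (by norm_num) x
  simpa using this

private noncomputable def f3_W (x : f1_E) (L : ℕ) (n : ℤ) : ℝ :=
  ∑ i ∈ Finset.Icc (-(L : ℤ)) L, ‖x (n + i)‖ ^ 2

private theorem f3_le (x : f1_E) (L : ℕ) (n k : ℤ) (h : |k - n| ≤ L) :
    ‖x k‖ ≤ Real.sqrt (f3_W x L n) := by
  apply Real.le_sqrt_of_sq_le
  have e : k = n + (k - n) := by ring
  have h2 : (k - n) ∈ Finset.Icc (-(L : ℤ)) L := by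
    rw [Finset.mem_Icc]; exact abs_le.mp h
  have h3 := Finset.single_le_sum (f := fun i : ℤ => ‖x (n + i)‖ ^ 2)
    (fun i _ => by positivity) h2
  simp only at h3
  rw [← e] at h3
  exact h3

private theorem f3_nonneg (x : f1_E) (L : ℕ) (n : ℤ) : 0 ≤ f3_W x L n :=
  Finset.sum_nonneg (fun _ _ => by positivity)

private theorem f3_sumW (x : f1_E) (L : ℕ) :
    Summable (f3_W x L) ∧ ∑' n : ℤ, f3_W x L n = (2 * (L : ℝ) + 1) * ‖x‖ ^ 2 := by
  have hs : ∀ i : ℤ, Summable (fun n : ℤ => ‖x (n + i)‖ ^ 2) := fun i =>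
    (f1_summable x).comp_injective (add_left_injective i)
  constructor
  · exact summable_sum (fun i _ => hs i)
  · unfold f3_W
    rw [Summable.tsum_finsetSum (fun i _ => hs i)]
    have e : ∀ i : ℤ, ∑' n : ℤ, ‖x (n + i)‖ ^ 2 = ‖x‖ ^ 2 := fun i => by
      rw [f3_nsq]
      exact (Equiv.addRight i).tsum_eq (fun n => ‖x n‖ ^ 2)
    simp only [e, Finset.sum_const, nsmul_eq_mul]
    congr 1
    rw [Int.card_Icc]
    have : ((L : ℤ) + 1 - -(L : ℤ)).toNat = 2 * L + 1 := by omega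
    rw [this]; push_cast; ring

private noncomputable def f3_f (n : ℤ) (R : ℕ) (i : ℤ) : ℝ :=
  max 0 (1 - |((i - n : ℤ) : ℝ)| / R)

private theorem f3_f_nonneg (n : ℤ) (R : ℕ) (i : ℤ) : 0 ≤ f3_f n R i := le_max_left _ _

private theorem f3_f_le (n : ℤ) (R : ℕ) (i : ℤ) : f3_f n R i ≤ 1 := by
  unfold f3_f
  apply max_le zero_le_one
  have : 0 ≤ |((i - n : ℤ) : ℝ)| / R := by positivity
  linarith

private theorem f3_f_zero (n : ℤ) (R : ℕ) (hR : 1 ≤ R) (i : ℤ) (h : (R : ℤ) ≤ |i - n|) :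
    f3_f n R i = 0 := by
  have hR' : (0 : ℝ) < R := by exact_mod_cast hR
  unfold f3_f
  apply max_eq_left
  have h1 : (R : ℝ) ≤ |((i - n : ℤ) : ℝ)| := by exact_mod_cast h
  have h2 : 1 ≤ |((i - n : ℤ) : ℝ)| / R := by rwa [le_div_iff₀ hR', one_mul]
  linarith

private theorem f3_f_self (n : ℤ) (R : ℕ) : f3_f n R n = 1 := by
  unfold f3_f; simp

private theorem f3_f_lip (n : ℤ) (R : ℕ) (hR : 1 ≤ R) (i j : ℤ) (hij : |i - j| ≤ 1) :
    |f3_f n R i - f3_f n R j| ≤ 1 / R := by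
  have hR' : (0 : ℝ) < R := by exact_mod_cast hR
  unfold f3_f
  refine (abs_max_sub_max_le_max _ _ _ _).trans ?_
  rw [sub_self, abs_zero]
  refine max_le (by positivity) ?_
  have e : 1 - |((i - n : ℤ) : ℝ)| / R - (1 - |((j - n : ℤ) : ℝ)| / R)
      = (|((j - n : ℤ) : ℝ)| - |((i - n : ℤ) : ℝ)|) / R := by ring
  rw [e, abs_div, abs_of_pos hR']
  apply div_le_div_of_nonneg_right _ hR'.le
  refine (abs_abs_sub_abs_le_abs_sub _ _).trans ?_
  have e2 : ((j - n : ℤ) : ℝ) - ((i - n : ℤ) : ℝ) = ((j - i : ℤ) : ℝ) := by push_cast; ring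
  rw [e2]
  have : |j - i| ≤ 1 := by rwa [abs_sub_comm]
  exact_mod_cast this

private theorem f3_point {m : ℝ} {z : ℂ} (h : Unif m z) (b : ℤ → ℂ)
    (hb : ∀ n, b n = 1 ∨ b n = -1) (x y : f1_E)
    (hxy : ∀ n, y n = x (n + 1) + b (n - 1) * x (n - 1) - z * x n) (R : ℕ) (hR : 1 ≤ R) (n : ℤ) :
    m * ‖x n‖ ≤ Real.sqrt (f3_W y R n) + 2 / R * Real.sqrt (f3_W x (R + 1) n) := by
  have hR' : (0 : ℝ) < R := by exact_mod_cast hR
  have hb1 : ∀ n, ‖b n‖ = 1 := fun n => by rcases hb n with h | h <;> simp [h]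
  have hx1 : ∀ k, ‖x k‖ ≤ ‖x‖ := fun k => lp.norm_apply_le_norm (by norm_num) x k
  have hA := Real.sqrt_nonneg (f3_W y R n)
  have hB := Real.sqrt_nonneg (f3_W x (R + 1) n)
  have key := Unif_b h b hb (fun i => (f3_f n R i : ℂ) * x i) ⟨‖x‖, fun i => by
    rw [norm_mul, Complex.norm_real, Real.norm_of_nonneg (f3_f_nonneg n R i)]
    exact (mul_le_of_le_one_left (norm_nonneg _) (f3_f_le n R i)).trans (hx1 i)⟩
    (Real.sqrt (f3_W y R n) + 2 / R * Real.sqrt (f3_W x (R + 1) n)) (fun i => by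
      have e : (f3_f n R (i + 1) : ℂ) * x (i + 1) + b (i - 1) * ((f3_f n R (i - 1) : ℂ) * x (i - 1))
          - z * ((f3_f n R i : ℂ) * x i)
          = (f3_f n R i : ℂ) * y i
            + (((f3_f n R (i + 1) - f3_f n R i : ℝ) : ℂ) * x (i + 1)
            + b (i - 1) * (((f3_f n R (i - 1) - f3_f n R i : ℝ) : ℂ) * x (i - 1))) := by
        rw [hxy i]; push_cast; ring
      have e1 : ‖(f3_f n R i : ℂ) * y i‖ ≤ Real.sqrt (f3_W y R n) := by
        rw [norm_mul, Complex.norm_real, Real.norm_of_nonneg (f3_f_nonneg n R i)]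
        by_cases hi : |i - n| ≤ R
        · exact (mul_le_of_le_one_left (norm_nonneg _) (f3_f_le n R i)).trans (f3_le y R n i hi)
        · rw [f3_f_zero n R hR i (by omega), zero_mul]; exact hA
      have e2 : ∀ k : ℤ, |k - i| ≤ 1 →
          ‖((f3_f n R k - f3_f n R i : ℝ) : ℂ) * x k‖ ≤ 1 / R * Real.sqrt (f3_W x (R + 1) n) := by
        intro k hk
        rw [norm_mul, Complex.norm_real, Real.norm_eq_abs]
        by_cases hi : |k - n| ≤ ((R + 1 : ℕ) : ℤ)
        · exact mul_le_mul (f3_f_lip n R hR k i hk) (f3_le x (R + 1) n k hi) (norm_nonneg _)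
            (by positivity)
        · push_cast at hi
          have h1 : (R : ℤ) ≤ |k - n| := by omega
          have h2 : (R : ℤ) ≤ |i - n| := by
            rw [abs_le] at hk
            have h3 : ¬ (-((R : ℤ) + 1) ≤ k - n ∧ k - n ≤ (R : ℤ) + 1) := by
              rw [← abs_le]; exact hi
            rw [le_abs]; omega
          rw [f3_f_zero n R hR k h1, f3_f_zero n R hR i h2, sub_zero, abs_zero, zero_mul]
          positivity
      have e3 := e2 (i + 1) (by simp)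
      have e4 := e2 (i - 1) (by simp)
      show ‖(f3_f n R (i + 1) : ℂ) * x (i + 1) + b (i - 1) * ((f3_f n R (i - 1) : ℂ) * x (i - 1))
          - z * ((f3_f n R i : ℂ) * x i)‖ ≤ _
      rw [e]
      have e5 : 2 / (R : ℝ) * Real.sqrt (f3_W x (R + 1) n)
          = 1 / R * Real.sqrt (f3_W x (R + 1) n) + 1 / R * Real.sqrt (f3_W x (R + 1) n) := by ring
      rw [e5]
      refine (norm_add_le _ _).trans (add_le_add e1 ((norm_add_le _ _).trans (add_le_add e3 ?_)))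
      rw [norm_mul, hb1, one_mul]
      exact e4) n
  simp only [f3_f_self, Complex.ofReal_one, one_mul] at key
  exact key

theorem l2_lower {m : ℝ} (hm : 0 < m) {z : ℂ} (h : Unif m z) :
    ∃ κ : ℝ, 0 < κ ∧ ∀ b : ℤ → ℂ, (∀ n, b n = 1 ∨ b n = -1) →
      ∀ x y : lp (fun _ : ℤ => ℂ) 2,
        (∀ n, y n = x (n + 1) + b (n - 1) * x (n - 1) - z * x n) → κ * ‖x‖ ≤ ‖y‖ := by
  obtain ⟨R, hR⟩ := exists_nat_ge (80 / m ^ 2 + 1)
  have hR1 : (1 : ℝ) ≤ R := by
    have : 0 ≤ 80 / m ^ 2 := by positivity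
    linarith
  have hR1' : 1 ≤ R := by exact_mod_cast hR1
  have hR0 : (0 : ℝ) < R := by linarith
  have hR2 : 80 ≤ m ^ 2 * R := by
    have h1 : 80 / m ^ 2 ≤ R := by linarith
    rw [div_le_iff₀ (by positivity)] at h1
    linarith
  have hR3 : 8 / (R : ℝ) ^ 2 * (2 * ((R + 1 : ℕ) : ℝ) + 1) ≤ m ^ 2 / 2 := by
    rw [div_mul_eq_mul_div, div_le_iff₀ (by positivity)]
    push_cast
    nlinarith
  refine ⟨m / (2 * Real.sqrt (2 * (R : ℝ) + 1)), by positivity, fun b hb x y hxy => ?_⟩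
  have hp := f3_point h b hb x y hxy R hR1'
  have hsq : ∀ n, m ^ 2 * ‖x n‖ ^ 2 ≤ 2 * f3_W y R n + 8 / (R : ℝ) ^ 2 * f3_W x (R + 1) n := by
    intro n
    have h1 := hp n
    have h0 : 0 ≤ m * ‖x n‖ := by positivity
    have hA := Real.sqrt_nonneg (f3_W y R n)
    have hB := Real.sqrt_nonneg (f3_W x (R + 1) n)
    have h2 : (m * ‖x n‖) ^ 2 ≤ (Real.sqrt (f3_W y R n) + 2 / R * Real.sqrt (f3_W x (R + 1) n)) ^ 2 :=
      pow_le_pow_left₀ h0 h1 2
    have h3 : (Real.sqrt (f3_W y R n) + 2 / R * Real.sqrt (f3_W x (R + 1) n)) ^ 2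
        ≤ 2 * (Real.sqrt (f3_W y R n)) ^ 2 + 2 * (2 / R * Real.sqrt (f3_W x (R + 1) n)) ^ 2 := by
      nlinarith [sq_nonneg (Real.sqrt (f3_W y R n) - 2 / R * Real.sqrt (f3_W x (R + 1) n))]
    rw [mul_pow, Real.sq_sqrt (f3_nonneg _ _ _)] at h3
    rw [Real.sq_sqrt (f3_nonneg _ _ _)] at h3
    rw [mul_pow] at h2
    calc m ^ 2 * ‖x n‖ ^ 2 ≤ _ := h2
      _ ≤ _ := h3
      _ = _ := by rw [div_pow]; ring
  obtain ⟨sA, tA⟩ := f3_sumW y R
  obtain ⟨sB, tB⟩ := f3_sumW x (R + 1)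
  have htot : m ^ 2 * ‖x‖ ^ 2 ≤ 2 * ((2 * (R : ℝ) + 1) * ‖y‖ ^ 2)
      + 8 / (R : ℝ) ^ 2 * ((2 * ((R + 1 : ℕ) : ℝ) + 1) * ‖x‖ ^ 2) := by
    rw [f3_nsq x, ← tsum_mul_left]
    have h1 := Summable.tsum_le_tsum hsq ((f1_summable x).mul_left _)
      ((sA.mul_left _).add (sB.mul_left _))
    refine h1.trans (le_of_eq ?_)
    rw [Summable.tsum_add (sA.mul_left _) (sB.mul_left _), tsum_mul_left, tsum_mul_left, tA, tB,
      f3_nsq x]
  have h4 : m ^ 2 / 2 * ‖x‖ ^ 2 ≤ 2 * ((2 * (R : ℝ) + 1) * ‖y‖ ^ 2) := by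
    have h5 : 8 / (R : ℝ) ^ 2 * ((2 * ((R + 1 : ℕ) : ℝ) + 1) * ‖x‖ ^ 2) ≤ m ^ 2 / 2 * ‖x‖ ^ 2 := by
      rw [← mul_assoc]
      exact mul_le_mul_of_nonneg_right hR3 (by positivity)
    nlinarith
  have hs : 0 < Real.sqrt (2 * (R : ℝ) + 1) := by positivity
  rw [div_mul_eq_mul_div, div_le_iff₀ (by positivity)]
  apply le_of_sq_le_sq _ (by positivity)
  have h6 : (‖y‖ * (2 * Real.sqrt (2 * (R : ℝ) + 1))) ^ 2 = 4 * ((2 * (R : ℝ) + 1) * ‖y‖ ^ 2) := by
    rw [mul_pow, mul_pow, Real.sq_sqrt (by positivity)]; ring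
  rw [h6, mul_pow]
  linarith

/- END fz_f3 -/

/- BEGIN fz_f4 : invertibility.  T is bounded below, so injective with closed range; if x is
orthogonal to the range, ⟪x, T e_n⟫ = 0 gives for y = conj x: y (n-1) + b n * y (n+1) = z * y n;
with d n (signs, d n = b n * d (n+1); exists_prod) ψ = d⁻¹ y is a bounded solution, so x = 0 by
¬ BddSol z.  So T is a bijection; B = inverse. -/

private theorem f4_single (i k : ℤ) (a : ℂ) :
    (lp.single 2 i a : f1_E) k = if k = i then a else 0 := by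
  rw [lp.coeFn_single]
  by_cases h : k = i
  · subst h; simp
  · rw [if_neg h, Pi.single_eq_of_ne h]

private theorem f4_ortho (b : ℤ → ℂ) (z : ℂ) (T : f1_E →L[ℂ] f1_E)
    (hT : ∀ (x : f1_E) (n : ℤ), T x n = x (n + 1) + b (n - 1) * x (n - 1) - z * x n)
    (x : f1_E) (hx : ∀ v : f1_E, inner ℂ x (T v) = 0) (n : ℤ) :
    (starRingEnd ℂ) (x (n - 1)) + b n * (starRingEnd ℂ) (x (n + 1))
      = z * (starRingEnd ℂ) (x n) := by
  have e : T (lp.single 2 n (1 : ℂ)) = lp.single 2 (n - 1) (1 : ℂ) + lp.single 2 (n + 1) (b n)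
      - lp.single 2 n z := by
    ext k
    rw [hT, lp.coeFn_sub, Pi.sub_apply, lp.coeFn_add, Pi.add_apply]
    simp only [f4_single]
    have c1 : (k + 1 = n) = (k = n - 1) := propext ⟨fun h => by omega, fun h => by omega⟩
    have c2 : (k - 1 = n) = (k = n + 1) := propext ⟨fun h => by omega, fun h => by omega⟩
    simp only [c1, c2]
    congr 1
    · congr 1
      by_cases h : k = n + 1
      · subst h; simp
      · simp [h]
    · by_cases h : k = n
      · simp [h]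
      · simp [h]
  have h0 := hx (lp.single 2 n (1 : ℂ))
  rw [e, inner_sub_right, inner_add_right, lp.inner_single_right, lp.inner_single_right,
    lp.inner_single_right] at h0
  simp only [RCLike.inner_apply] at h0
  linear_combination h0

theorem not_mem_Sig {z : ℂ} (h : ¬ BddSol z) : z ∉ Sig := by
  rintro ⟨b, hb, hB⟩
  apply hB
  obtain ⟨m, hm, hU⟩ := exists_unif {z} isCompact_singleton (by
    intro w hw
    rw [Set.mem_singleton_iff.mp hw]
    exact h)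
  have hU := hU z rfl
  obtain ⟨κ, hκ, hlow⟩ := l2_lower hm hU
  obtain ⟨T, hT⟩ := exists_op b hb z
  have hlow' : ∀ x : f1_E, κ * ‖x‖ ≤ ‖T x‖ := fun x => hlow b hb x (T x) (hT x)
  have hanti : AntilipschitzWith (Real.toNNReal κ⁻¹) T := by
    apply AddMonoidHomClass.antilipschitz_of_bound
    intro x
    rw [Real.coe_toNNReal _ (inv_nonneg.mpr hκ.le), le_inv_mul_iff₀ hκ]
    exact hlow' x
  have hker : T.ker = ⊥ := by
    rw [LinearMap.ker_eq_bot]
    exact hanti.injective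
  have hclosed : IsClosed (T.range : Set f1_E) := hanti.isClosed_range T.uniformContinuous
  have hperp : T.rangeᗮ = ⊥ := by
    rw [Submodule.eq_bot_iff]
    intro x hx
    rw [Submodule.mem_orthogonal'] at hx
    have hx' : ∀ v : f1_E, inner ℂ x (T v) = 0 := fun v => hx (T v) ⟨v, rfl⟩
    by_contra hne
    apply h
    have hb1 : ∀ n, ‖b n‖ = 1 := fun n => by rcases hb n with h | h <;> simp [h]
    have hbb : ∀ n, b n * b n = 1 := fun n => by rcases hb n with h | h <;> simp [h]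
    obtain ⟨d, hd1, hd2⟩ := exists_prod b hb1
    have hdn : ∀ n, d n ≠ 0 := fun n h0 => by
      have := hd1 n
      rw [h0, norm_zero] at this
      exact zero_ne_one this
    refine ⟨b, hb, fun n => (d n)⁻¹ * (starRingEnd ℂ) (x n), ⟨‖x‖, fun n => ?_⟩, ?_, fun n => ?_⟩
    · rw [norm_mul, norm_inv, hd1, inv_one, one_mul, RCLike.norm_conj]
      exact lp.norm_apply_le_norm (by norm_num) x n
    · by_contra hcon
      push Not at hcon
      apply hne
      ext n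
      have h1 := hcon n
      have h2 := (mul_eq_zero.mp h1).resolve_left (inv_ne_zero (hdn n))
      rw [map_eq_zero] at h2
      rw [h2]; rfl
    · have h1 := f4_ortho b z T hT x hx' n
      have e1 : (d (n + 1))⁻¹ = b n * (d n)⁻¹ := by
        rw [hd2 n, mul_inv]
        congr 1
        rw [inv_eq_iff_eq_inv, eq_comm, inv_eq_iff_eq_inv]
        exact (eq_inv_of_mul_eq_one_left (hbb n))
      have e2 : b (n - 1) * (d (n - 1))⁻¹ = (d n)⁻¹ := by
        have h3 := hd2 (n - 1)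
        rw [sub_add_cancel] at h3
        rw [h3, mul_inv]
        congr 1
        exact (eq_inv_of_mul_eq_one_left (hbb _))
      show (d (n + 1))⁻¹ * (starRingEnd ℂ) (x (n + 1))
        + b (n - 1) * ((d (n - 1))⁻¹ * (starRingEnd ℂ) (x (n - 1)))
        = z * ((d n)⁻¹ * (starRingEnd ℂ) (x n))
      rw [e1]
      linear_combination (d n)⁻¹ * h1 + (starRingEnd ℂ) (x (n - 1)) * e2
  have hrange : T.range = ⊤ := by
    have : CompleteSpace T.range := hclosed.completeSpace_coe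
    exact Submodule.orthogonal_eq_bot_iff.mp hperp
  refine ⟨(ContinuousLinearEquiv.ofBijective T hker hrange).symm, fun x y => ?_⟩
  have e1 : (∀ n : ℤ, y n = x (n + 1) + b (n - 1) * x (n - 1) - z * x n) ↔ y = T x := by
    constructor
    · intro h1
      ext n
      rw [h1 n, hT x n]
    · rintro rfl n
      exact hT x n
  rw [e1]
  show y = T x ↔ (ContinuousLinearEquiv.ofBijective T hker hrange).symm y = x
  rw [ContinuousLinearEquiv.symm_apply_eq]
  rfl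

theorem Sig_eq : Sig = {z : ℂ | BddSol z} := by
  ext z
  constructor
  · intro hz
    by_contra hb
    exact not_mem_Sig hb hz
  · exact mem_Sig_of_bddSol

/- END fz_f4 -/

end Pool.Agent.FZC
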