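import Pool.Agent.FZC.Main
import Pool.Agent.FZC.Fav

set_option autoImplicit false

open Polynomial

/-!
The spectrum is connected.  Module `fz_z1` (helper29).
-/

namespace Pool.Agent.FZC

/- BEGIN fz_z1 : conclusion -/

theorem no_piece (U : Set ℂ) (hU : IsOpen U) (hb : Bornology.IsBounded U) (h0 : (0 : ℂ) ∉ U)
    (hf : ∀ z ∈ frontier U, z ∉ Sig) (z : ℂ) (hz : z ∈ U) : z ∉ Sig := by
  have hK : IsCompact (frontier U) := by
    refine Metric.isCompact_of_isClosed_isBounded isClosed_frontier ?_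
    exact hb.closure.subset frontier_subset_closure
  have hnb : ∀ z ∈ frontier U, ¬ BddSol z := by
    intro z hz hB
    exact hf z hz (mem_Sig_of_bddSol hB)
  obtain ⟨m, hm, hun⟩ := exists_unif (frontier U) hK hnb
  have hd : ∀ z ∈ frontier U, DecU (4 / m ^ 2 + 1 / m) z := fun z hz => DecU_of_Unif hm (hun z hz)
  have hn : ∀ w : List Bool, cnt U (D w) = 0 := fun w => cnt_D U hU _ hd h0 w
  have hD := DecU_inside U hU hb _ hd hn z hz
  exact not_mem_Sig (not_bddSol_of_DecU hD)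

private theorem z1_aux (u v : Set ℂ) (hu : IsOpen u) (hv : IsOpen v) (hs : Sig ⊆ u ∪ v)
    (h0 : (0 : ℂ) ∈ u) (h0S : (0 : ℂ) ∈ Sig) (he : ¬ (Sig ∩ (u ∩ v)).Nonempty)
    (x : ℂ) (hx : x ∈ Sig) (hxv : x ∈ v) : False := by
  have hnot : ∀ z ∈ Sig, z ∈ u → z ∈ v → False := fun z hz h1 h2 => he ⟨z, hz, h1, h2⟩
  have hSc : IsCompact Sig := by
    rw [Sig_eq]; exact isCompact_bddSol
  have hK : IsCompact (Sig \ u) := hSc.diff hu
  have hKv : Sig \ u ⊆ v := by
    rintro z ⟨hz, hzu⟩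
    rcases hs hz with h | h
    · exact absurd h hzu
    · exact h
  obtain ⟨δ, hδ, hδv⟩ := hK.exists_cthickening_subset_open hv hKv
  set U := Metric.thickening δ (Sig \ u) with hUdef
  have hUo : IsOpen U := Metric.isOpen_thickening
  have hUc : closure U ⊆ v := (Metric.closure_thickening_subset_cthickening δ _).trans hδv
  have hUb : Bornology.IsBounded U := hK.isBounded.thickening
  have hKU : Sig \ u ⊆ U := Metric.self_subset_thickening hδ _
  have h0U : (0 : ℂ) ∉ U := fun h => hnot 0 h0S h0 (hUc (subset_closure h))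
  have hf : ∀ z ∈ frontier U, z ∉ Sig := by
    intro z hz hzS
    have hzv : z ∈ v := hUc (frontier_subset_closure hz)
    have hzu : z ∉ u := fun h => hnot z hzS h hzv
    have hzU : z ∈ U := hKU ⟨hzS, hzu⟩
    rw [hUo.frontier_eq] at hz
    exact hz.2 hzU
  have hxU : x ∈ U := hKU ⟨hx, fun h => hnot x hx h hxv⟩
  exact no_piece U hUo hUb h0U hf x hxU hx

theorem Sig_connected : IsConnected Sig := by
  have h0S : (0 : ℂ) ∈ Sig := by
    have := bdd_real 0 (by simp)
    simpa using mem_Sig_of_bddSol this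
  refine ⟨⟨0, h0S⟩, ?_⟩
  intro u v hu hv hs hsu hsv
  by_contra he
  obtain ⟨x, hx, hxu⟩ := hsu
  obtain ⟨y, hy, hyv⟩ := hsv
  rcases hs h0S with h0 | h0
  · exact z1_aux u v hu hv hs h0 h0S he y hy hyv
  · refine z1_aux v u hv hu ?_ h0 h0S ?_ x hx hxu
    · rw [Set.union_comm]; exact hs
    · rw [Set.inter_comm v u]; exact he

/- END fz_z1 -/

end Pool.Agent.FZC
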