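import Pool.Agent.FZC.Alg

set_option autoImplicit false

open Polynomial

/-!
Uniform bounds off the set of bounded solutions.  Modules `fz_g1` .. `fz_g5`.
-/

namespace Pool.Agent.FZC

/- BEGIN fz_g1 : gauge.  c n ^ 2 = b n, d (n+1) = c n * d n, ψ = d φ, |d n| = 1. -/

private noncomputable def g1_d (c : ℤ → ℂ) : ℤ → ℂ
  | Int.ofNat k => ∏ j ∈ Finset.range k, c (j : ℤ)
  | Int.negSucc k => ∏ j ∈ Finset.range (k + 1), (c (Int.negSucc j))⁻¹

private theorem g1_step (c : ℤ → ℂ) (hc : ∀ n, c n ≠ 0) (n : ℤ) :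
    g1_d c (n + 1) = c n * g1_d c n := by
  rcases n with k | k
  · have h : (Int.ofNat k + 1 : ℤ) = Int.ofNat (k + 1) := by simp
    rw [h]
    show ∏ j ∈ Finset.range (k + 1), c (j : ℤ) = c (k : ℤ) * ∏ j ∈ Finset.range k, c (j : ℤ)
    rw [Finset.prod_range_succ, mul_comm]
  · rcases k with _ | k
    · have h : (Int.negSucc 0 + 1 : ℤ) = Int.ofNat 0 := by rfl
      rw [h]
      show ∏ j ∈ Finset.range 0, c (j : ℤ)
        = c (Int.negSucc 0) * ∏ j ∈ Finset.range (0 + 1), (c (Int.negSucc j))⁻¹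
      simp [mul_inv_cancel₀ (hc (Int.negSucc 0))]
      rw [mul_inv_cancel₀ (hc _)]
    · have h : (Int.negSucc (k + 1) + 1 : ℤ) = Int.negSucc k := by
        rw [Int.negSucc_eq, Int.negSucc_eq]; push_cast; ring
      rw [h]
      show ∏ j ∈ Finset.range (k + 1), (c (Int.negSucc j))⁻¹
        = c (Int.negSucc (k + 1)) * ∏ j ∈ Finset.range (k + 1 + 1), (c (Int.negSucc j))⁻¹
      rw [Finset.prod_range_succ _ (k + 1), mul_comm (∏ j ∈ Finset.range (k + 1), _),
        ← mul_assoc, mul_inv_cancel₀ (hc _), one_mul]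

private theorem g1_norm (c : ℤ → ℂ) (hc : ∀ n, ‖c n‖ = 1) (n : ℤ) : ‖g1_d c n‖ = 1 := by
  rcases n with k | k
  · show ‖∏ j ∈ Finset.range k, c (j : ℤ)‖ = 1
    rw [norm_prod]
    exact Finset.prod_eq_one (fun j _ => hc _)
  · show ‖∏ j ∈ Finset.range (k + 1), (c (Int.negSucc j))⁻¹‖ = 1
    rw [norm_prod]
    exact Finset.prod_eq_one (fun j _ => by rw [norm_inv, hc, inv_one])

/-- A product sequence on `ℤ`. -/
theorem exists_prod (c : ℤ → ℂ) (hc : ∀ n, ‖c n‖ = 1) :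
    ∃ d : ℤ → ℂ, (∀ n, ‖d n‖ = 1) ∧ ∀ n, d (n + 1) = c n * d n := by
  refine ⟨g1_d c, g1_norm c hc, g1_step c ?_⟩
  intro n h
  have := hc n
  rw [h, norm_zero] at this
  exact zero_ne_one this

private theorem g1_ne {w : ℂ} (h : ‖w‖ = 1) : w ≠ 0 := by
  rintro rfl
  rw [norm_zero] at h
  exact zero_ne_one h

private theorem g1_nc {w : ℂ} (h : w = 1 ∨ w = Complex.I) : ‖w‖ = 1 := by
  rcases h with h | h <;> simp [h]

/-- The gauge identity. -/
private theorem g1_gauge (c d : ℤ → ℂ) (z : ℂ) (hc : ∀ n, ‖c n‖ = 1)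
    (hd : ∀ n, d (n + 1) = c n * d n) (φ : ℤ → ℂ) (n : ℤ) :
    d (n + 1) * φ (n + 1) + (c (n - 1)) ^ 2 * (d (n - 1) * φ (n - 1)) - z * (d n * φ n)
      = d n * Rs c z φ n := by
  have h1 : d n = c (n - 1) * d (n - 1) := by
    have := hd (n - 1)
    rwa [sub_add_cancel] at this
  rw [hd n, Rs]
  have h2 : (c (n - 1)) ^ 2 * (d (n - 1) * φ (n - 1)) = d n * (c (n - 1) * φ (n - 1)) := by
    rw [h1]; ring
  rw [h2]; ring

/-- A square root sequence. -/
private theorem g1_sqrt (b : ℤ → ℂ) (hb : ∀ n, b n = 1 ∨ b n = -1) :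
    ∃ c : ℤ → ℂ, (∀ n, c n = 1 ∨ c n = Complex.I) ∧ ∀ n, (c n) ^ 2 = b n := by
  classical
  refine ⟨fun n => if b n = 1 then 1 else Complex.I, fun n => ?_, fun n => ?_⟩
  · by_cases h : b n = 1 <;> simp [h]
  · by_cases h : b n = 1
    · simp [h]
    · rcases hb n with h' | h'
      · exact absurd h' h
      · simp [h', h]
        intro h3
        exfalso
        rw [h'] at h
        exact h h3

theorem bddSol_iff (z : ℂ) : BddSol z ↔
    ∃ c : ℤ → ℂ, (∀ n, c n = 1 ∨ c n = Complex.I) ∧ ∃ φ : ℤ → ℂ, (∃ C : ℝ, ∀ n, ‖φ n‖ ≤ C) ∧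
      (∃ n, φ n ≠ 0) ∧ ∀ n, Rs c z φ n = 0 := by
  constructor
  · rintro ⟨b, hb, ψ, ⟨C, hC⟩, ⟨n₀, hn₀⟩, hψ⟩
    obtain ⟨c, hc, hcb⟩ := g1_sqrt b hb
    obtain ⟨d, hd1, hd2⟩ := exists_prod c (fun n => g1_nc (hc n))
    have hdn : ∀ n, d n ≠ 0 := fun n => g1_ne (hd1 n)
    refine ⟨c, hc, fun n => (d n)⁻¹ * ψ n, ⟨C, fun n => ?_⟩, ⟨n₀, ?_⟩, fun n => ?_⟩
    · rw [norm_mul, norm_inv, hd1, inv_one, one_mul]
      exact hC n
    · exact mul_ne_zero (inv_ne_zero (hdn _)) hn₀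
    · have h := g1_gauge c d z (fun n => g1_nc (hc n)) hd2 (fun n => (d n)⁻¹ * ψ n) n
      have e : ∀ k, d k * ((d k)⁻¹ * ψ k) = ψ k := fun k => by
        rw [← mul_assoc, mul_inv_cancel₀ (hdn k), one_mul]
      simp only [e] at h
      rw [hcb (n - 1), hψ n, sub_self] at h
      exact (mul_eq_zero.mp h.symm).resolve_left (hdn n)
  · rintro ⟨c, hc, φ, ⟨C, hC⟩, ⟨n₀, hn₀⟩, hφ⟩
    obtain ⟨d, hd1, hd2⟩ := exists_prod c (fun n => g1_nc (hc n))
    refine ⟨fun n => (c n) ^ 2, fun n => ?_, fun n => d n * φ n, ⟨C, fun n => ?_⟩, ⟨n₀, ?_⟩,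
      fun n => ?_⟩
    · rcases hc n with h | h
      · left; simp [h]
      · right; simp [h]
    · rw [norm_mul, hd1, one_mul]
      exact hC n
    · exact mul_ne_zero (g1_ne (hd1 _)) hn₀
    · have h := g1_gauge c d z (fun n => g1_nc (hc n)) hd2 φ n
      rw [hφ n, mul_zero] at h
      exact sub_eq_zero.mp h

/-- The uniform bound in the original gauge. -/
theorem Unif_b {m : ℝ} {z : ℂ} (h : Unif m z) (b : ℤ → ℂ) (hb : ∀ n, b n = 1 ∨ b n = -1)
    (ψ : ℤ → ℂ) (hψ : ∃ C : ℝ, ∀ n, ‖ψ n‖ ≤ C) (δ : ℝ)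
    (hδ : ∀ n, ‖ψ (n + 1) + b (n - 1) * ψ (n - 1) - z * ψ n‖ ≤ δ) (n : ℤ) :
    m * ‖ψ n‖ ≤ δ := by
  obtain ⟨c, hc, hcb⟩ := g1_sqrt b hb
  obtain ⟨d, hd1, hd2⟩ := exists_prod c (fun n => g1_nc (hc n))
  have hdn : ∀ n, d n ≠ 0 := fun n => g1_ne (hd1 n)
  have e : ∀ k, d k * ((d k)⁻¹ * ψ k) = ψ k := fun k => by
    rw [← mul_assoc, mul_inv_cancel₀ (hdn k), one_mul]
  have e2 : ∀ k, ‖(d k)⁻¹ * ψ k‖ = ‖ψ k‖ := fun k => by
    rw [norm_mul, norm_inv, hd1, inv_one, one_mul]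
  obtain ⟨C, hC⟩ := hψ
  have h1 := h c hc (fun n => (d n)⁻¹ * ψ n) ⟨C, fun n => by rw [e2]; exact hC n⟩ δ (fun k => by
    have h := g1_gauge c d z (fun n => g1_nc (hc n)) hd2 (fun n => (d n)⁻¹ * ψ n) k
    simp only [e] at h
    rw [hcb (k - 1)] at h
    have h3 : ‖Rs c z (fun n => (d n)⁻¹ * ψ n) k‖
        = ‖ψ (k + 1) + b (k - 1) * ψ (k - 1) - z * ψ k‖ := by
      rw [h, norm_mul, hd1, one_mul]
    rw [h3]
    exact hδ k) n
  rwa [e2] at h1

/- END fz_g1 -/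

/- BEGIN fz_g2 : compactness.  If not, for every k the set
F_k = {(z, c, φ) : z ∈ K, c n ∈ {1, I}, |φ n| ≤ 1, |φ 0| ≥ 1/2, |Rs c z φ n| ≤ 1/(k+1) for all n}
⊆ ℂ × (ℤ → ℂ) × (ℤ → ℂ) is compact, nonempty (normalise by the supremum and shift) and
decreasing; a point of the intersection is a bounded solution. -/

private theorem g2_sup (φ : ℤ → ℂ) (hC : ∃ C : ℝ, ∀ n, ‖φ n‖ ≤ C) (hne : ∃ n, φ n ≠ 0) :
    ∃ S : ℝ, 0 < S ∧ (∀ n, ‖φ n‖ ≤ S) ∧ ∀ t < S, ∃ n, t < ‖φ n‖ := by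
  obtain ⟨C, hC⟩ := hC
  obtain ⟨n₀, hn₀⟩ := hne
  have hb : BddAbove (Set.range fun n => ‖φ n‖) := ⟨C, by rintro _ ⟨n, rfl⟩; exact hC n⟩
  refine ⟨⨆ n, ‖φ n‖, ?_, fun n => le_ciSup hb n, fun t ht => ?_⟩
  · exact lt_of_lt_of_le (norm_pos_iff.mpr hn₀) (le_ciSup hb n₀)
  · exact exists_lt_of_lt_ciSup ht

private def g2_F (K : Set ℂ) (k : ℕ) : Set (ℂ × (ℤ → ℂ) × (ℤ → ℂ)) :=
  {p | p.1 ∈ K ∧ (∀ n, p.2.1 n = 1 ∨ p.2.1 n = Complex.I) ∧ (∀ n, ‖p.2.2 n‖ ≤ 1) ∧
    1 / 2 ≤ ‖p.2.2 0‖ ∧ ∀ n, ‖Rs p.2.1 p.1 p.2.2 n‖ ≤ 1 / ((k : ℝ) + 1)}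

private theorem g2_closed (K : Set ℂ) (hK : IsClosed K) (k : ℕ) : IsClosed (g2_F K k) := by
  unfold g2_F
  refine IsClosed.inter (hK.preimage continuous_fst) ?_
  refine IsClosed.inter ?_ ?_
  · show IsClosed {p : ℂ × (ℤ → ℂ) × (ℤ → ℂ) | ∀ n, p.2.1 n = 1 ∨ p.2.1 n = Complex.I}
    rw [Set.ofPred_forall]
    refine isClosed_iInter (fun n => ?_)
    have hc : Continuous fun p : ℂ × (ℤ → ℂ) × (ℤ → ℂ) => p.2.1 n :=
      (continuous_apply n).comp (continuous_fst.comp continuous_snd)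
    exact (isClosed_eq hc continuous_const).union (isClosed_eq hc continuous_const)
  refine IsClosed.inter ?_ ?_
  · show IsClosed {p : ℂ × (ℤ → ℂ) × (ℤ → ℂ) | ∀ n, ‖p.2.2 n‖ ≤ 1}
    rw [Set.ofPred_forall]
    refine isClosed_iInter (fun n => ?_)
    have hc : Continuous fun p : ℂ × (ℤ → ℂ) × (ℤ → ℂ) => p.2.2 n :=
      (continuous_apply n).comp (continuous_snd.comp continuous_snd)
    exact isClosed_le hc.norm continuous_const
  refine IsClosed.inter ?_ ?_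
  · show IsClosed {p : ℂ × (ℤ → ℂ) × (ℤ → ℂ) | 1 / 2 ≤ ‖p.2.2 0‖}
    have hc : Continuous fun p : ℂ × (ℤ → ℂ) × (ℤ → ℂ) => p.2.2 0 :=
      (continuous_apply (0 : ℤ)).comp (continuous_snd.comp continuous_snd)
    exact isClosed_le continuous_const hc.norm
  · show IsClosed {p : ℂ × (ℤ → ℂ) × (ℤ → ℂ) | ∀ n, ‖Rs p.2.1 p.1 p.2.2 n‖ ≤ 1 / ((k : ℝ) + 1)}
    rw [Set.ofPred_forall]
    refine isClosed_iInter (fun n => ?_)
    refine isClosed_le (Continuous.norm ?_) continuous_const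
    unfold Rs
    fun_prop

private theorem g2_compact (K : Set ℂ) (hK : IsCompact K) (k : ℕ) : IsCompact (g2_F K k) := by
  have h1 : IsCompact (K ×ˢ ((Set.pi Set.univ (fun _ : ℤ => ({1, Complex.I} : Set ℂ))) ×ˢ
      (Set.pi Set.univ (fun _ : ℤ => Metric.closedBall (0 : ℂ) 1)))) := by
    refine hK.prod (IsCompact.prod ?_ ?_)
    · exact isCompact_univ_pi (fun _ => (Set.toFinite _).isCompact)
    · exact isCompact_univ_pi (fun _ => isCompact_closedBall _ _)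
  refine h1.of_isClosed_subset (g2_closed K hK.isClosed k) ?_
  rintro ⟨z, c, φ⟩ ⟨h1, h2, h3, -, -⟩
  refine ⟨h1, ?_, ?_⟩
  · intro n _
    exact h2 n
  · intro n _
    simpa using h3 n

theorem exists_unif (K : Set ℂ) (hK : IsCompact K) (h : ∀ z ∈ K, ¬ BddSol z) :
    ∃ m : ℝ, 0 < m ∧ ∀ z ∈ K, Unif m z := by
  by_contra hcon
  push Not at hcon
  have hne : ∀ k, (g2_F K k).Nonempty := by
    intro k
    obtain ⟨z, hz, hU⟩ := hcon (1 / ((k : ℝ) + 1)) (by positivity)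
    unfold Unif at hU
    push Not at hU
    obtain ⟨c, hc, φ, hφ, δ, hδ, n₀, hn₀⟩ := hU
    have hδ0 : 0 ≤ δ := le_trans (norm_nonneg _) (hδ 0)
    have hne : ∃ n, φ n ≠ 0 := by
      refine ⟨n₀, fun h0 => ?_⟩
      rw [h0, norm_zero, mul_zero] at hn₀
      linarith
    obtain ⟨S, hS, hS1, hS2⟩ := g2_sup φ hφ hne
    obtain ⟨n₁, hn₁⟩ := hS2 (S / 2) (by linarith)
    have hδS : δ ≤ 1 / ((k : ℝ) + 1) * S :=
      le_of_lt (lt_of_lt_of_le hn₀ (mul_le_mul_of_nonneg_left (hS1 n₀) (by positivity)))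
    have hnS : ‖((S : ℂ))⁻¹‖ = S⁻¹ := by
      rw [norm_inv, Complex.norm_real, Real.norm_of_nonneg hS.le]
    refine ⟨(z, fun n => c (n + n₁), fun n => (S : ℂ)⁻¹ * φ (n + n₁)), hz, fun n => hc _,
      fun n => ?_, ?_, fun n => ?_⟩
    · show ‖(S : ℂ)⁻¹ * φ (n + n₁)‖ ≤ 1
      rw [norm_mul, hnS, inv_mul_le_iff₀ hS, mul_one]
      exact hS1 _
    · show 1 / 2 ≤ ‖(S : ℂ)⁻¹ * φ (0 + n₁)‖
      rw [norm_mul, hnS, zero_add, le_inv_mul_iff₀ hS]
      linarith
    · show ‖Rs (fun n => c (n + n₁)) z (fun n => (S : ℂ)⁻¹ * φ (n + n₁)) n‖ ≤ _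
      have e : Rs (fun n => c (n + n₁)) z (fun n => (S : ℂ)⁻¹ * φ (n + n₁)) n
          = (S : ℂ)⁻¹ * Rs c z φ (n + n₁) := by
        unfold Rs
        have e1 : n + 1 + n₁ = n + n₁ + 1 := by ring
        have e2 : n - 1 + n₁ = n + n₁ - 1 := by ring
        simp only [e1, e2]
        ring
      rw [e, norm_mul, hnS, inv_mul_le_iff₀ hS, mul_comm]
      exact (hδ _).trans hδS
  have hmono : ∀ k, g2_F K (k + 1) ⊆ g2_F K k := by
    rintro k ⟨z, c, φ⟩ ⟨h1, h2, h3, h4, h5⟩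
    refine ⟨h1, h2, h3, h4, fun n => (h5 n).trans ?_⟩
    apply one_div_le_one_div_of_le
    · positivity
    · push_cast; linarith
  obtain ⟨⟨z, c, φ⟩, hp⟩ := IsCompact.nonempty_iInter_of_sequence_nonempty_isCompact_isClosed
    (g2_F K) hmono hne (g2_compact K hK 0) (g2_closed K hK.isClosed)
  rw [Set.mem_iInter] at hp
  obtain ⟨h1, h2, h3, h4, -⟩ := hp 0
  refine h z h1 ((bddSol_iff z).mpr ⟨c, h2, φ, ⟨1, h3⟩, ⟨0, fun h0 => ?_⟩, fun n => ?_⟩)
  · have h4' : 1 / 2 ≤ ‖φ 0‖ := h4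
    rw [h0, norm_zero] at h4'
    norm_num at h4'
  · rw [← norm_le_zero_iff]
    exact ge_of_tendsto' tendsto_one_div_add_atTop_nhds_zero_nat (fun k => (hp k).2.2.2.2 n)

/- END fz_g2 -/

/- BEGIN fz_g3 : finite blocks by odd reflection with period 2(N+1).  For j : ℤ let
r = (j % (2*(N+1))).toNat; φ j = x r if r ≤ N+1, else - x (2*(N+1) - r); c j = y r if r ≤ N, else
y (2*N+1-r).  The residual at 0 and N+1 is 0, at the mirror sites it is minus the residual. -/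

private theorem g3_succ (T j : ℤ) (hT : 0 < T) :
    (j + 1) % T = if j % T + 1 = T then 0 else j % T + 1 := by
  have h0 := Int.emod_nonneg j hT.ne'
  have h1 := Int.emod_lt_of_pos j hT
  have h2 : j + 1 = (j % T + 1) + T * (j / T) := by
    have := Int.emod_add_mul_ediv j T
    linarith
  have h3 : (j + 1) % T = (j % T + 1) % T := by
    conv_lhs => rw [h2]
    rw [Int.add_mul_emod_self_left]
  rw [h3]
  split_ifs with h
  · rw [h, Int.emod_self]
  · rw [Int.emod_eq_of_lt (by omega) (by omega)]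

private def g3_X (N : ℕ) (x : ℕ → ℂ) (r : ℕ) : ℂ :=
  if r ≤ N + 1 then x r else - x (2 * (N + 1) - r)

private def g3_Y (N : ℕ) (y : ℕ → ℂ) (r : ℕ) : ℂ :=
  if r ≤ N then y r else y (2 * N + 1 - r)

private theorem g3_X1 {N : ℕ} {x : ℕ → ℂ} {r : ℕ} (h : r ≤ N + 1) : g3_X N x r = x r := by
  rw [g3_X, if_pos h]

private theorem g3_X2 {N : ℕ} {x : ℕ → ℂ} (hx : x (N + 1) = 0) {r : ℕ} (h : N + 1 ≤ r) :
    g3_X N x r = - x (2 * (N + 1) - r) := by
  rw [g3_X]
  split_ifs with h1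
  · have h2 : r = N + 1 := le_antisymm h1 h
    have h3 : 2 * (N + 1) - r = N + 1 := by omega
    rw [h3, h2, hx, neg_zero]
  · rfl

private theorem g3_Y1 {N : ℕ} {y : ℕ → ℂ} {r : ℕ} (h : r ≤ N) : g3_Y N y r = y r := by
  rw [g3_Y, if_pos h]

private theorem g3_Y2 {N : ℕ} {y : ℕ → ℂ} {r : ℕ} (h : N + 1 ≤ r) :
    g3_Y N y r = y (2 * N + 1 - r) := by
  rw [g3_Y, if_neg (by omega)]

private theorem g3_core (z : ℂ) (N : ℕ) (y : ℕ → ℂ) (x : ℕ → ℂ) (hx0 : x 0 = 0)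
    (hxN : x (N + 1) = 0) (δ : ℝ) (hδ : 0 ≤ δ)
    (hr : ∀ i, 1 ≤ i → i ≤ N → ‖y i * x (i + 1) + y (i - 1) * x (i - 1) - z * x i‖ ≤ δ)
    (r r' r'' : ℕ) (hrT : r < 2 * (N + 1))
    (h1 : r + 1 = 2 * (N + 1) ∧ r' = 0 ∨ r + 1 < 2 * (N + 1) ∧ r' = r + 1)
    (h2 : r'' + 1 = 2 * (N + 1) ∧ r = 0 ∨ r'' + 1 < 2 * (N + 1) ∧ r = r'' + 1) :
    ‖g3_Y N y r * g3_X N x r' + g3_Y N y r'' * g3_X N x r'' - z * g3_X N x r‖ ≤ δ := by
  -- the value of X at r' from the right half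
  have hX' : N + 1 ≤ r → g3_X N x r' = - x (2 * (N + 1) - r - 1) := by
    intro h
    rcases h1 with ⟨h3, h4⟩ | ⟨h3, h4⟩
    · rw [h4, g3_X1 (by omega), hx0]
      have : 2 * (N + 1) - r - 1 = 0 := by omega
      rw [this, hx0, neg_zero]
    · rw [h4, g3_X2 hxN (by omega)]
      rfl
  rcases Nat.lt_or_ge r (N + 1) with hA | hA
  · rcases Nat.eq_zero_or_pos r with hB | hB
    · -- r = 0
      have e1 : r'' = 2 * N + 1 := by omega
      have e2 : r' = 1 := by omega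
      subst hB
      rw [e1, e2, g3_Y1 (by omega), g3_X1 (by omega), g3_Y2 (by omega), g3_X2 hxN (by omega),
        g3_X1 (by omega), hx0]
      have e3 : 2 * N + 1 - (2 * N + 1) = 0 := by omega
      have e4 : 2 * (N + 1) - (2 * N + 1) = 1 := by omega
      rw [e3, e4]
      have e5 : y 0 * x 1 + y 0 * -x 1 - z * 0 = 0 := by ring
      rw [e5, norm_zero]
      exact hδ
    · -- 1 ≤ r ≤ N
      have e1 : r'' = r - 1 := by omega
      have e2 : r' = r + 1 := by omega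
      rw [e1, e2, g3_Y1 (by omega), g3_X1 (by omega), g3_Y1 (by omega), g3_X1 (by omega),
        g3_X1 (by omega)]
      exact hr r hB (by omega)
  · rcases Nat.lt_or_ge (N + 1) r with hB | hB
    · -- r ≥ N + 2
      have e1 : r'' = r - 1 := by omega
      rw [hX' hA, e1, g3_Y2 (by omega), g3_Y2 (by omega), g3_X2 hxN (by omega),
        g3_X2 hxN (by omega)]
      obtain ⟨s, hs⟩ : ∃ s, s = 2 * (N + 1) - r := ⟨_, rfl⟩
      have hs1 : 1 ≤ s := by omega
      have hs2 : s ≤ N := by omega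
      have e3 : 2 * N + 1 - r = s - 1 := by omega
      have e4 : 2 * N + 1 - (r - 1) = s := by omega
      have e5 : 2 * (N + 1) - (r - 1) = s + 1 := by omega
      rw [e3, e4, e5, ← hs]
      have e6 : y (s - 1) * -x (s - 1) + y s * -x (s + 1) - z * -x s
          = -(y s * x (s + 1) + y (s - 1) * x (s - 1) - z * x s) := by ring
      rw [e6, norm_neg]
      exact hr s hs1 hs2
    · -- r = N + 1
      have e0 : r = N + 1 := le_antisymm hB hA
      have e1 : r'' = N := by omega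
      rw [hX' hA, e1, e0, g3_Y2 (by omega), g3_Y1 (by omega), g3_X1 (by omega), g3_X1 (by omega),
        hxN]
      have e3 : 2 * N + 1 - (N + 1) = N := by omega
      have e4 : 2 * (N + 1) - (N + 1) - 1 = N := by omega
      rw [e3, e4]
      have e5 : y N * -x N + y N * x N - z * 0 = 0 := by ring
      rw [e5, norm_zero]
      exact hδ

theorem block_bound {m : ℝ} {z : ℂ} (h : Unif m z) (N : ℕ) (y : ℕ → ℂ)
    (hy : ∀ i, y i = 1 ∨ y i = Complex.I) (x : ℕ → ℂ) (hx0 : x 0 = 0) (hxN : x (N + 1) = 0)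
    (δ : ℝ) (hδ : 0 ≤ δ)
    (hr : ∀ i, 1 ≤ i → i ≤ N → ‖y i * x (i + 1) + y (i - 1) * x (i - 1) - z * x i‖ ≤ δ)
    (i : ℕ) (hi : i ≤ N) : m * ‖x i‖ ≤ δ := by
  obtain ⟨T, hT⟩ : ∃ T : ℤ, T = 2 * ((N : ℤ) + 1) := ⟨_, rfl⟩
  have hT0 : 0 < T := by omega
  have hb : ∃ C : ℝ, ∀ r : ℕ, r < 2 * (N + 1) → ‖g3_X N x r‖ ≤ C := by
    refine ⟨∑ r ∈ Finset.range (2 * (N + 1)), ‖g3_X N x r‖, fun r hr => ?_⟩
    exact Finset.single_le_sum (f := fun r => ‖g3_X N x r‖) (fun _ _ => norm_nonneg _)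
      (Finset.mem_range.mpr hr)
  obtain ⟨C, hC⟩ := hb
  have hlt : ∀ j : ℤ, (j % T).toNat < 2 * (N + 1) := by
    intro j
    have h0 := Int.emod_nonneg j hT0.ne'
    have h1 := Int.emod_lt_of_pos j hT0
    omega
  have key := h (fun j => g3_Y N y (j % T).toNat)
    (fun j => by unfold g3_Y; split_ifs <;> exact hy _)
    (fun j => g3_X N x (j % T).toNat) ⟨C, fun j => hC _ (hlt j)⟩ δ (fun j => by
      unfold Rs
      refine g3_core z N y x hx0 hxN δ hδ hr _ _ _ (hlt j) ?_ ?_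
      · have h0 := Int.emod_nonneg j hT0.ne'
        have h1 := Int.emod_lt_of_pos j hT0
        rw [g3_succ T j hT0]
        split_ifs with h2
        · left; constructor
          · omega
          · rfl
        · right; constructor <;> omega
      · have h0 := Int.emod_nonneg (j - 1) hT0.ne'
        have h1 := Int.emod_lt_of_pos (j - 1) hT0
        have h3 := g3_succ T (j - 1) hT0
        rw [sub_add_cancel] at h3
        rw [h3]
        split_ifs with h2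
        · left; constructor
          · omega
          · rfl
        · right; constructor <;> omega) (i : ℤ)
  have e1 : ((i : ℤ) % T).toNat = i := by
    rw [Int.emod_eq_of_lt (by omega) (by omega)]
    simp
  simp only [e1] at key
  rwa [g3_X1 (by omega)] at key

/- END fz_g3 -/

/- BEGIN fz_g4 : from the block bound to the decay.  N = |w| + 1 sites, y i ^ 2 = sg (w[i-1]) for
1 ≤ i ≤ N-1, x i = (∏ j in [i, N-1], y j) * (KS w (i-1)).eval z for 1 ≤ i ≤ N, x 0 = x (N+1) = 0: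
residual 0 at 1 .. N-1 (KS_rec) and of norm |D w (z)| at N.  Apply block_bound to x (gives
m |KS w j| ≤ |D w|) and to φ x, φ i = min 1 ((N-i)/t), t = |w| - j ≥ 1 (gives
m² t |KS w j| ≤ 2 |D w|).  M = 4/m^2 + 1/m. -/

/-- gauge letters: `y i ^ 2 = sg w[i-1]`. -/
private noncomputable def g4_y (w : List Bool) (i : ℕ) : ℂ :=
  if w.getD (i - 1) true then 1 else Complex.I

private theorem g4_y_or (w : List Bool) (i : ℕ) : g4_y w i = 1 ∨ g4_y w i = Complex.I := by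
  unfold g4_y; split_ifs
  · left; rfl
  · right; rfl

private theorem g4_y_norm (w : List Bool) (i : ℕ) : ‖g4_y w i‖ = 1 := by
  rcases g4_y_or w i with h | h <;> simp [h]

private theorem g4_y_sq (w : List Bool) (i : ℕ) (h : i < w.length) :
    (g4_y w (i + 1)) ^ 2 = sg (w[i]'h) := by
  have e : w.getD i true = w[i]'h := by simp [h]
  unfold g4_y sg
  rw [Nat.add_sub_cancel, e]
  cases w[i] <;> simp

/-- the trial vector, `i` from 1 to `|w| + 1`; `x 0 = 0`, `x i = 0` for `i > |w| + 1`. -/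
private noncomputable def g4_x (w : List Bool) (z : ℂ) (i : ℕ) : ℂ :=
  if i = 0 then 0 else if w.length + 1 < i then 0 else
    (∏ j ∈ Finset.Ico i (w.length + 1), g4_y w j) * (KS w (i - 1)).eval z

private theorem g4_x_mid (w : List Bool) (z : ℂ) (i : ℕ) (h : i ≤ w.length) :
    g4_x w z (i + 1)
      = (∏ j ∈ Finset.Ico (i + 1) (w.length + 1), g4_y w j) * (KS w i).eval z := by
  rw [g4_x, if_neg (by omega), if_neg (by omega), Nat.add_sub_cancel]

private theorem g4_x_norm (w : List Bool) (z : ℂ) (i : ℕ) (h : i ≤ w.length) :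
    ‖g4_x w z (i + 1)‖ = ‖(KS w i).eval z‖ := by
  rw [g4_x_mid w z i h, norm_mul, norm_prod, Finset.prod_eq_one (fun j _ => g4_y_norm w j), one_mul]

private theorem g4_KS_one (w : List Bool) : KS w 1 = X := by
  rw [KS, if_neg one_ne_zero]
  rfl

/-- inner residuals vanish -/
private theorem g4_res (w : List Bool) (z : ℂ) (i : ℕ) (h1 : 1 ≤ i) (h2 : i ≤ w.length) :
    g4_y w i * g4_x w z (i + 1) + g4_y w (i - 1) * g4_x w z (i - 1) - z * g4_x w z i = 0 := by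
  obtain ⟨k, rfl⟩ : ∃ k, i = k + 1 := ⟨i - 1, by omega⟩
  rw [Nat.add_sub_cancel]
  have ea : g4_x w z (k + 1 + 1)
      = (∏ j ∈ Finset.Ico (k + 1 + 1) (w.length + 1), g4_y w j) * (KS w (k + 1)).eval z :=
    g4_x_mid w z (k + 1) h2
  have eb : g4_x w z (k + 1)
      = g4_y w (k + 1) * (∏ j ∈ Finset.Ico (k + 1 + 1) (w.length + 1), g4_y w j)
        * (KS w k).eval z := by
    rw [g4_x_mid w z k (by omega), Finset.prod_eq_prod_Ico_succ_bot (by omega)]
  rcases k with _ | k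
  · have e0 : g4_x w z 0 = 0 := by rw [g4_x, if_pos rfl]
    rw [ea, eb, e0, KS_zero, g4_KS_one]
    simp only [eval_X, eval_one]
    ring
  · have ec : g4_x w z (k + 1)
        = g4_y w (k + 1) * (g4_y w (k + 1 + 1) *
          (∏ j ∈ Finset.Ico (k + 1 + 1 + 1) (w.length + 1), g4_y w j)) * (KS w k).eval z := by
      rw [g4_x_mid w z k (by omega), Finset.prod_eq_prod_Ico_succ_bot (by omega),
        Finset.prod_eq_prod_Ico_succ_bot (by omega)]
    rw [ea, eb, ec, KS_rec w k (by omega)]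
    simp only [eval_sub, eval_mul, eval_X, eval_C]
    rw [← g4_y_sq w k (by omega)]
    ring

/-- last residual -/
private theorem g4_last (w : List Bool) (z : ℂ) :
    ‖g4_y w w.length * g4_x w z w.length - z * g4_x w z (w.length + 1)‖ = ‖(D w).eval z‖ := by
  rw [← KS_last w]
  have eb : g4_x w z (w.length + 1) = (KS w w.length).eval z := by
    rw [g4_x_mid w z w.length le_rfl]; simp
  rw [eb]
  rcases Nat.eq_zero_or_pos w.length with h | h
  · rw [h]
    have e0 : g4_x w z 0 = 0 := by rw [g4_x, if_pos rfl]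
    rw [e0, KS_zero, g4_KS_one]
    simp
  · obtain ⟨k, hk⟩ : ∃ k, w.length = k + 1 := ⟨w.length - 1, by omega⟩
    have ec : g4_x w z (k + 1) = g4_y w (k + 1) * (KS w k).eval z := by
      rw [g4_x_mid w z k (by omega), hk, Finset.prod_eq_prod_Ico_succ_bot (by omega)]
      simp
    rw [hk, ec, KS_rec w k (by omega)]
    simp only [eval_sub, eval_mul, eval_X, eval_C]
    rw [← g4_y_sq w k (by omega)]
    rw [← norm_neg]
    congr 1
    ring

private theorem g4_x_last (w : List Bool) (z : ℂ) : g4_x w z (w.length + 1 + 1) = 0 := by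
  rw [g4_x, if_neg (by omega), if_pos (by omega)]

/-- first bound -/
private theorem g4_b1 {m : ℝ} {z : ℂ} (h : Unif m z) (w : List Bool) (i : ℕ)
    (hi : i ≤ w.length + 1 + 1) : m * ‖g4_x w z i‖ ≤ ‖(D w).eval z‖ := by
  rcases Nat.lt_or_ge (w.length + 1) i with hA | hA
  · have : i = w.length + 1 + 1 := by omega
    rw [this, g4_x_last, norm_zero, mul_zero]
    exact norm_nonneg _
  refine block_bound h (w.length + 1) (g4_y w) (g4_y_or w) (g4_x w z) (by rw [g4_x, if_pos rfl])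
    (g4_x_last w z) _ (norm_nonneg _) (fun i h1 h2 => ?_) i hA
  rcases Nat.lt_or_ge w.length i with h3 | h3
  · have : i = w.length + 1 := by omega
    subst this
    rw [g4_x_last, mul_zero, zero_add, Nat.add_sub_cancel, g4_last]
  · rw [g4_res w z i h1 h3, norm_zero]
    exact norm_nonneg _

/-- cut-off -/
private noncomputable def g4_f (n t : ℕ) (i : ℕ) : ℝ := min 1 (((n : ℝ) - i) / t)

private theorem g4_f_lip (n t : ℕ) (ht : 1 ≤ t) (i : ℕ) : |g4_f n t (i + 1) - g4_f n t i| ≤ 1 / t := by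
  have ht' : (0 : ℝ) < t := by exact_mod_cast ht
  unfold g4_f
  refine (abs_min_sub_min_le_max _ _ _ _).trans ?_
  rw [sub_self, abs_zero]
  refine max_le (by positivity) ?_
  rw [← sub_div]
  push_cast
  have : (n : ℝ) - (i + 1) - (n - i) = -1 := by ring
  rw [this, abs_div, abs_neg, abs_one, abs_of_pos ht']

private theorem g4_b2 {m : ℝ} (hm : 0 < m) {z : ℂ} (h : Unif m z) (w : List Bool) (t : ℕ)
    (ht : 1 ≤ t) (i : ℕ) (hi : i + t ≤ w.length) :
    m ^ 2 * t * ‖(KS w i).eval z‖ ≤ 2 * ‖(D w).eval z‖ := by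
  have ht' : (0 : ℝ) < t := by exact_mod_cast ht
  set n := w.length + 1 with hn
  set Dz := ‖(D w).eval z‖ with hD
  have hD0 : 0 ≤ Dz := norm_nonneg _
  have hb : ∀ k, k ≤ n + 1 → ‖g4_x w z k‖ ≤ Dz / m := fun k hk => by
    rw [le_div_iff₀ hm, mul_comm]
    exact g4_b1 h w k hk
  have hfn : g4_f n t n = 0 := by
    unfold g4_f; simp
  have key := block_bound h n (g4_y w) (g4_y_or w) (fun k => (g4_f n t k : ℂ) * g4_x w z k)
    (by
      have : g4_x w z 0 = 0 := by rw [g4_x, if_pos rfl]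
      simp only [this, mul_zero])
    (by
      show (g4_f n t (n + 1) : ℂ) * g4_x w z (n + 1) = 0
      rw [hn, g4_x_last, mul_zero])
    (2 / t * (Dz / m)) (by positivity) (fun k h1 h2 => by
      have hl1 := g4_f_lip n t ht k
      have hl2 : |g4_f n t (k - 1) - g4_f n t k| ≤ 1 / t := by
        have := g4_f_lip n t ht (k - 1)
        rw [Nat.sub_add_cancel h1] at this
        rwa [abs_sub_comm]
      have hN : ∀ (a : ℝ) (u v : ℂ), |a| ≤ 1 / t → ‖u‖ = 1 → ‖v‖ ≤ Dz / m →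
          ‖u * ((a : ℂ) * v)‖ ≤ 1 / t * (Dz / m) := by
        intro a u v ha hu hv
        rw [norm_mul, norm_mul, hu, one_mul, Complex.norm_real, Real.norm_eq_abs]
        exact mul_le_mul ha hv (norm_nonneg _) (by positivity)
      have e1 := hN _ (g4_y w k) (g4_x w z (k + 1)) hl1 (g4_y_norm w k) (hb _ (by omega))
      have e2 := hN _ (g4_y w (k - 1)) (g4_x w z (k - 1)) hl2 (g4_y_norm w _) (hb _ (by omega))
      have e3 : g4_y w k * ((g4_f n t (k + 1) : ℂ) * g4_x w z (k + 1))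
          + g4_y w (k - 1) * ((g4_f n t (k - 1) : ℂ) * g4_x w z (k - 1))
          - z * ((g4_f n t k : ℂ) * g4_x w z k)
          = g4_y w k * (((g4_f n t (k + 1) - g4_f n t k : ℝ) : ℂ) * g4_x w z (k + 1))
            + g4_y w (k - 1) * (((g4_f n t (k - 1) - g4_f n t k : ℝ) : ℂ) * g4_x w z (k - 1))
            + (g4_f n t k : ℂ) * (g4_y w k * g4_x w z (k + 1)
              + g4_y w (k - 1) * g4_x w z (k - 1) - z * g4_x w z k) := by
        push_cast; ring
      have e4 : (g4_f n t k : ℂ) * (g4_y w k * g4_x w z (k + 1)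
              + g4_y w (k - 1) * g4_x w z (k - 1) - z * g4_x w z k) = 0 := by
        rcases Nat.lt_or_ge w.length k with h3 | h3
        · have : k = n := by omega
          rw [this, hfn]; simp
        · rw [g4_res w z k h1 h3, mul_zero]
      rw [e3, e4, add_zero]
      refine (norm_add_le _ _).trans ?_
      have : 2 / (t : ℝ) * (Dz / m) = 1 / t * (Dz / m) + 1 / t * (Dz / m) := by ring
      rw [this]
      exact add_le_add e1 e2) (i + 1) (by omega)
  have hf1 : g4_f n t (i + 1) = 1 := by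
    unfold g4_f
    apply min_eq_left
    rw [le_div_iff₀ ht', one_mul]
    have : ((i + 1 + t : ℕ) : ℝ) ≤ (n : ℝ) := by exact_mod_cast (by omega)
    push_cast at this ⊢
    linarith
  simp only [hf1, Complex.ofReal_one, one_mul] at key
  rw [g4_x_norm w z i (by omega)] at key
  have e5 : 2 / (t : ℝ) * (Dz / m) = 2 * Dz / (t * m) := by
    field_simp
  rw [e5, le_div_iff₀ (by positivity)] at key
  calc m ^ 2 * t * ‖(KS w i).eval z‖ = m * ‖(KS w i).eval z‖ * (t * m) := by ring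
    _ ≤ 2 * Dz := key

theorem DecU_of_Unif {m : ℝ} (hm : 0 < m) {z : ℂ} (h : Unif m z) :
    DecU (4 / m ^ 2 + 1 / m) z := by
  intro w j hj
  have hD0 : 0 ≤ ‖(D w).eval z‖ := norm_nonneg _
  rcases Nat.eq_or_lt_of_le hj with h0 | h0
  · have e1 := g4_b1 h w (j + 1) (by omega)
    rw [g4_x_norm w z j hj] at e1
    have e2 : ((w.length : ℝ) - j + 1) = 1 := by rw [h0]; ring
    rw [e2, one_mul, add_mul]
    have e3 : ‖(KS w j).eval z‖ ≤ 1 / m * ‖(D w).eval z‖ := by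
      rw [one_div, le_inv_mul_iff₀ hm]
      exact e1
    have e4 : 0 ≤ 4 / m ^ 2 * ‖(D w).eval z‖ := by positivity
    linarith
  · have e1 := g4_b2 hm h w (w.length - j) (by omega) j (by omega)
    have ht : (1 : ℝ) ≤ ((w.length - j : ℕ) : ℝ) := by exact_mod_cast (by omega)
    have e2 : ((w.length - j : ℕ) : ℝ) = (w.length : ℝ) - j := by
      rw [Nat.cast_sub hj]
    rw [e2] at e1 ht
    have hK : 0 ≤ ‖(KS w j).eval z‖ := norm_nonneg _
    have e3 : ((w.length : ℝ) - j + 1) * ‖(KS w j).eval z‖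
        ≤ 2 * (((w.length : ℝ) - j) * ‖(KS w j).eval z‖) := by nlinarith
    have e4 : ((w.length : ℝ) - j) * ‖(KS w j).eval z‖ ≤ 2 / m ^ 2 * ‖(D w).eval z‖ := by
      rw [div_mul_eq_mul_div, le_div_iff₀ (by positivity)]
      calc _ = m ^ 2 * ((w.length : ℝ) - j) * ‖(KS w j).eval z‖ := by ring
        _ ≤ _ := e1
    rw [add_mul]
    have e5 : 0 ≤ 1 / m * ‖(D w).eval z‖ := by positivity
    have e6 : 4 / m ^ 2 * ‖(D w).eval z‖ = 2 * (2 / m ^ 2 * ‖(D w).eval z‖) := by ring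
    linarith

/- END fz_g4 -/

/- BEGIN fz_g5 : the set is compact.  |z| ≤ 2 by the supremum; closed: if ¬ BddSol z take m from
exists_unif {z}; a bounded solution at z' in the gauge has |Rs c z φ n| ≤ |z - z'| S, so
|z - z'| ≥ m. -/

theorem isCompact_bddSol : IsCompact {z : ℂ | BddSol z} := by
  refine Metric.isCompact_of_isClosed_isBounded ?_ ?_
  · rw [← isOpen_compl_iff, Metric.isOpen_iff]
    intro z hz
    obtain ⟨m, hm, hU⟩ := exists_unif {z} isCompact_singleton (by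
      intro w hw
      rw [Set.mem_singleton_iff.mp hw]
      exact hz)
    have hU := hU z rfl
    refine ⟨m, hm, fun z' hz' hb => ?_⟩
    obtain ⟨c, hc, φ, hφ, hne, hR⟩ := (bddSol_iff z').mp hb
    obtain ⟨S, hS, hS1, hS2⟩ := g2_sup φ hφ hne
    have h1 : ∀ n, m * ‖φ n‖ ≤ ‖z' - z‖ * S := hU c hc φ hφ _ (fun n => by
      have e : Rs c z φ n = (z' - z) * φ n + Rs c z' φ n := by
        unfold Rs; ring
      rw [e, hR n, add_zero, norm_mul]
      exact mul_le_mul_of_nonneg_left (hS1 n) (norm_nonneg _))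
    have h2 : ‖z' - z‖ < m := by
      rw [Metric.mem_ball, dist_eq_norm] at hz'
      exact hz'
    obtain ⟨n, hn⟩ := hS2 (‖z' - z‖ * S / m) (by
      rw [div_lt_iff₀ hm, mul_comm S m]
      exact mul_lt_mul_of_pos_right h2 hS)
    rw [div_lt_iff₀ hm] at hn
    linarith [h1 n]
  · rw [isBounded_iff_forall_norm_le]
    refine ⟨2, fun z hz => ?_⟩
    obtain ⟨c, hc, φ, hφ, hne, hR⟩ := (bddSol_iff z).mp hz
    obtain ⟨S, hS, hS1, hS2⟩ := g2_sup φ hφ hne
    by_contra hcon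
    push Not at hcon
    have hc1 : ∀ n, ‖c n‖ = 1 := fun n => by rcases hc n with h | h <;> simp [h]
    obtain ⟨n, hn⟩ := hS2 (2 * S / ‖z‖) (by
      rw [div_lt_iff₀ (by linarith), mul_comm S]
      exact mul_lt_mul_of_pos_right hcon hS)
    rw [div_lt_iff₀ (by linarith)] at hn
    have h1 : z * φ n = c n * φ (n + 1) + c (n - 1) * φ (n - 1) := by
      have := hR n
      unfold Rs at this
      linear_combination -this
    have h2 : ‖z * φ n‖ ≤ S + S := by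
      rw [h1]
      refine (norm_add_le _ _).trans ?_
      rw [norm_mul, norm_mul, hc1, hc1, one_mul, one_mul]
      exact add_le_add (hS1 _) (hS1 _)
    rw [norm_mul] at h2
    nlinarith

/- END fz_g5 -/

end Pool.Agent.FZC
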