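import Pool.Agent.FZC.Alg

set_option autoImplicit false

open Polynomial

/-!
Counting roots.  Modules `fz_h1` .. `fz_h3`.
-/

namespace Pool.Agent.FZC

/- BEGIN fz_h1 : homotopy.  `t ↦ cnt U (F + t (G - F))` is locally constant on `[0,1]`: if `t_k → t`
write the monic polynomial at `t_k` as `∏ i : Fin d, (X - C (r k i))`; the `r k i` are bounded, so a
subsequence of `r k : Fin d → ℂ` converges to `r'`, and `∏ (X - C (r' i))` is the polynomial at `t`
(compare values at every point). `r' i ∉ frontier U`, so `r k i ∈ U ↔ r' i ∈ U` for large `k`. -/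

private noncomputable def fz_h1_H (F G : ℂ[X]) (t : ℝ) : ℂ[X] := F + C (t : ℂ) * (G - F)

private theorem fz_h1_deg {F G : ℂ[X]} (hd : F.natDegree = G.natDegree) (t : ℝ) :
    (fz_h1_H F G t).natDegree ≤ F.natDegree := by
  refine natDegree_add_le_of_degree_le le_rfl ?_
  refine (natDegree_C_mul_le _ _).trans ?_
  refine (natDegree_sub_le _ _).trans ?_
  rw [← hd, max_self]

private theorem fz_h1_coeff {F G : ℂ[X]} (hF : F.Monic) (hG : G.Monic)
    (hd : F.natDegree = G.natDegree) (t : ℝ) : (fz_h1_H F G t).coeff F.natDegree = 1 := by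
  have h1 : F.coeff F.natDegree = 1 := hF
  have h2 : G.coeff F.natDegree = 1 := by rw [hd]; exact hG
  rw [fz_h1_H, coeff_add, coeff_C_mul, coeff_sub, h1, h2, sub_self, mul_zero, add_zero]

private theorem fz_h1_monic {F G : ℂ[X]} (hF : F.Monic) (hG : G.Monic)
    (hd : F.natDegree = G.natDegree) (t : ℝ) : (fz_h1_H F G t).Monic :=
  monic_of_natDegree_le_of_coeff_eq_one _ (fz_h1_deg hd t) (fz_h1_coeff hF hG hd t)

private theorem fz_h1_natDegree {F G : ℂ[X]} (hF : F.Monic) (hG : G.Monic)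
    (hd : F.natDegree = G.natDegree) (t : ℝ) : (fz_h1_H F G t).natDegree = F.natDegree :=
  natDegree_eq_of_le_of_coeff_ne_zero (fz_h1_deg hd t)
    (by rw [fz_h1_coeff hF hG hd t]; exact one_ne_zero)

/-- the roots as a family -/
private theorem fz_h1_rts {P : ℂ[X]} {d : ℕ} (hP : P.Monic) (hd : P.natDegree = d) :
    ∃ r : Fin d → ℂ, P = ∏ i, (X - C (r i)) := by
  have key : ∀ l : List ℂ, l.length = d → ∃ r : Fin d → ℂ,
      (l.map (fun a => X - C a)).prod = ∏ i, (X - C (r i)) := by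
    intro l hl
    subst hl
    refine ⟨l.get, ?_⟩
    rw [← List.prod_ofFn]
    congr 1
    conv_lhs => rw [← List.ofFn_get l]
    rw [List.map_ofFn]
    rfl
  have h1 : Multiset.card P.roots = P.natDegree := splits_iff_card_roots.1 (IsAlgClosed.splits P)
  obtain ⟨r, hr⟩ := key P.roots.toList (by rw [Multiset.length_toList, h1, hd])
  refine ⟨r, ?_⟩
  rw [← hr]
  conv_lhs => rw [← prod_multiset_X_sub_C_of_monic_of_roots_card_eq hP h1]
  rw [← Multiset.prod_coe, ← Multiset.map_coe, Multiset.coe_toList]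

open Classical in
private theorem fz_h1_cnt (U : Set ℂ) {d : ℕ} (r : Fin d → ℂ) :
    cnt U (∏ i, (X - C (r i))) =
      Multiset.card ((Finset.univ : Finset (Fin d)).val.filter fun i => r i ∈ U) := by
  have h1 : ∏ i, (X - C (r i)) =
      (((Finset.univ : Finset (Fin d)).val.map r).map fun a => X - C a).prod := by
    rw [Multiset.map_map]
    rfl
  rw [cnt, h1, roots_multiset_prod_X_sub_C, Multiset.countP_map]

/-- the roots are bounded -/
private theorem fz_h1_bdd {F G : ℂ[X]} (hF : F.Monic) (hG : G.Monic)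
    (hd : F.natDegree = G.natDegree) : ∃ R : ℝ, ∀ t : ℝ, 0 ≤ t → t ≤ 1 → ∀ z : ℂ,
      (fz_h1_H F G t).eval z = 0 → ‖z‖ ≤ R := by
  let b : NNReal := (Finset.range F.natDegree).sup fun i => ‖F.coeff i‖₊ + ‖G.coeff i - F.coeff i‖₊
  refine ⟨(b + 1 : NNReal), fun t h0 h1 z hz => ?_⟩
  have hm := fz_h1_monic hF hG hd t
  have h2 := (IsRoot.norm_lt_cauchyBound hm.ne_zero hz).le
  have h2' : ‖z‖ ≤ ((fz_h1_H F G t).cauchyBound : ℝ) := h2
  refine h2'.trans ?_
  rw [NNReal.coe_le_coe, cauchyBound, hm.leadingCoeff, nnnorm_one, div_one]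
  gcongr
  rw [fz_h1_natDegree hF hG hd t]
  refine Finset.sup_mono_fun fun i _ => ?_
  rw [fz_h1_H, coeff_add, coeff_C_mul, coeff_sub]
  refine (nnnorm_add_le _ _).trans ?_
  gcongr
  rw [nnnorm_mul]
  have h3 : ‖(t : ℂ)‖₊ ≤ 1 := by
    rw [← NNReal.coe_le_coe, coe_nnnorm, Complex.norm_real, Real.norm_eq_abs, abs_of_nonneg h0]
    exact h1
  calc ‖(t : ℂ)‖₊ * ‖G.coeff i - F.coeff i‖₊ ≤ 1 * ‖G.coeff i - F.coeff i‖₊ := by gcongr
    _ = _ := one_mul _

private theorem fz_h1_seq (U : Set ℂ) (hU : IsOpen U) (F G : ℂ[X]) (hF : F.Monic) (hG : G.Monic)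
    (hd : F.natDegree = G.natDegree) {t : ℝ}
    (h : ∀ z ∈ frontier U, (fz_h1_H F G t).eval z ≠ 0) (s : ℕ → ℝ)
    (hs : ∀ k, 0 ≤ s k ∧ s k ≤ 1) (hlim : Filter.Tendsto s Filter.atTop (nhds t)) :
    ∃ k, cnt U (fz_h1_H F G (s k)) = cnt U (fz_h1_H F G t) := by
  classical
  choose r hr using fun k => fz_h1_rts (fz_h1_monic hF hG hd (s k))
    (fz_h1_natDegree hF hG hd (s k))
  obtain ⟨R, hR⟩ := fz_h1_bdd hF hG hd
  have hprod : ∀ (q : Fin F.natDegree → ℂ) (z : ℂ), (∏ i, (X - C (q i))).eval z =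
      ∏ i, (z - q i) := by
    intro q z
    rw [eval_prod]
    simp
  have hball : ∀ k, r k ∈ Metric.closedBall (0 : Fin F.natDegree → ℂ) (max R 0) := by
    intro k
    rw [mem_closedBall_zero_iff, pi_norm_le_iff_of_nonneg (le_max_right _ _)]
    intro i
    refine (hR (s k) (hs k).1 (hs k).2 (r k i) ?_).trans (le_max_left _ _)
    rw [hr k, hprod]
    exact Finset.prod_eq_zero (Finset.mem_univ i) (sub_self _)
  obtain ⟨r', -, φ, hφ, hlim'⟩ := (isCompact_closedBall _ _).tendsto_subseq hball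
  have hev : ∀ z, (fz_h1_H F G t).eval z = ∏ i, (z - r' i) := by
    intro z
    have h1 : Filter.Tendsto (fun k => (fz_h1_H F G (s (φ k))).eval z) Filter.atTop
        (nhds ((fz_h1_H F G t).eval z)) := by
      simp only [fz_h1_H, eval_add, eval_mul, eval_C]
      have h2 : Filter.Tendsto (fun k => ((s (φ k) : ℝ) : ℂ)) Filter.atTop (nhds (t : ℂ)) :=
        (Complex.continuous_ofReal.tendsto t).comp (hlim.comp hφ.tendsto_atTop)
      exact tendsto_const_nhds.add (h2.mul tendsto_const_nhds)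
    have h3 : Filter.Tendsto (fun k => ∏ i, (z - r (φ k) i)) Filter.atTop
        (nhds (∏ i, (z - r' i))) := by
      refine tendsto_finsetProd _ fun i _ => ?_
      exact tendsto_const_nhds.sub ((tendsto_pi_nhds.1 hlim') i)
    have h4 : (fun k => (fz_h1_H F G (s (φ k))).eval z) = fun k => ∏ i, (z - r (φ k) i) := by
      funext k
      rw [hr (φ k), hprod]
    rw [h4] at h1
    exact tendsto_nhds_unique h1 h3
  have hpoly : fz_h1_H F G t = ∏ i, (X - C (r' i)) := by
    refine Polynomial.funext fun z => ?_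
    rw [hev, hprod]
  have hi : ∀ i, ∀ᶠ k in Filter.atTop, (r (φ k) i ∈ U ↔ r' i ∈ U) := by
    intro i
    have h1 : Filter.Tendsto (fun k => r (φ k) i) Filter.atTop (nhds (r' i)) :=
      (tendsto_pi_nhds.1 hlim') i
    by_cases h2 : r' i ∈ U
    · filter_upwards [h1 (hU.mem_nhds h2)] with k hk
      exact ⟨fun _ => h2, fun _ => hk⟩
    · have h3 : r' i ∉ closure U := by
        intro h4
        refine h (r' i) ⟨h4, ?_⟩ ?_
        · rwa [hU.interior_eq]
        · rw [hev]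
          exact Finset.prod_eq_zero (Finset.mem_univ i) (sub_self _)
      filter_upwards [h1 (isClosed_closure.isOpen_compl.mem_nhds h3)] with k hk
      exact ⟨fun h5 => absurd (subset_closure h5) hk, fun h5 => absurd h5 h2⟩
  obtain ⟨k, hk⟩ := (Filter.eventually_all.2 hi).exists
  refine ⟨φ k, ?_⟩
  rw [hr (φ k), hpoly, fz_h1_cnt, fz_h1_cnt]
  congr 1
  exact Multiset.filter_congr fun i _ => hk i

theorem cnt_hom (U : Set ℂ) (hU : IsOpen U) (F G : ℂ[X]) (hF : F.Monic) (hG : G.Monic)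
    (hd : F.natDegree = G.natDegree)
    (h : ∀ t : ℝ, 0 ≤ t → t ≤ 1 → ∀ z ∈ frontier U,
      (F.eval z) + (t : ℂ) * (G.eval z - F.eval z) ≠ 0) :
    cnt U F = cnt U G := by
  have hc : ContinuousOn (fun t => cnt U (fz_h1_H F G t)) (Set.Icc 0 1) := by
    intro t ht
    have h2 : ∀ z ∈ frontier U, (fz_h1_H F G t).eval z ≠ 0 := by
      intro z hz
      rw [fz_h1_H, eval_add, eval_mul, eval_C, eval_sub]
      exact h t ht.1 ht.2 z hz
    rw [ContinuousWithinAt, nhds_discrete, Filter.tendsto_pure]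
    by_contra hne
    have h3 : ∃ᶠ s in nhdsWithin t (Set.Icc 0 1),
        (s ∈ Set.Icc (0 : ℝ) 1 ∧ cnt U (fz_h1_H F G s) ≠ cnt U (fz_h1_H F G t)) :=
      (Filter.not_eventually.1 hne).and_eventually self_mem_nhdsWithin |>.mono
        fun s hs => ⟨hs.2, hs.1⟩
    obtain ⟨s, hs1, hs2⟩ := Filter.exists_seq_forall_of_frequently h3
    obtain ⟨k, hk⟩ := fz_h1_seq U hU F G hF hG hd h2 s (fun k => (hs2 k).1)
      (hs1.mono_right nhdsWithin_le_nhds)
    exact (hs2 k).2 hk
  have h1 := isPreconnected_Icc.constant hc (x := (0 : ℝ)) (y := 1)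
    (Set.left_mem_Icc.2 zero_le_one) (Set.right_mem_Icc.2 zero_le_one)
  have h2 : fz_h1_H F G 0 = F := by
    rw [fz_h1_H, Complex.ofReal_zero, C_0, zero_mul, add_zero]
  have h3 : fz_h1_H F G 1 = G := by
    rw [fz_h1_H, Complex.ofReal_one, C_1, one_mul, add_sub_cancel]
  simp only [h2, h3] at h1
  exact h1

/- END fz_h1 -/

/- BEGIN fz_h2 : elementary properties of cnt -/

theorem cnt_mul (U : Set ℂ) (F G : ℂ[X]) (hF : F ≠ 0) (hG : G ≠ 0) :
    cnt U (F * G) = cnt U F + cnt U G := by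
  rw [cnt, cnt, cnt, roots_mul (mul_ne_zero hF hG), Multiset.countP_add]

theorem cnt_eq_zero (U : Set ℂ) (F : ℂ[X]) (hF : F ≠ 0) :
    cnt U F = 0 ↔ ∀ z ∈ U, F.eval z ≠ 0 := by
  classical
  unfold cnt
  rw [Multiset.countP_eq_zero]
  constructor
  · intro h z hz h0
    exact h z ((mem_roots hF).2 h0) hz
  · intro h z hz hzU
    exact h z hzU ((mem_roots hF).1 hz)

theorem cnt_multiset_prod (U : Set ℂ) (S : Multiset ℂ[X]) (h : ∀ F ∈ S, F ≠ 0) :
    cnt U S.prod = (S.map (cnt U)).sum := by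
  induction S using Multiset.induction_on with
  | empty => simp [cnt]
  | cons F S ih =>
    rw [Multiset.prod_cons, Multiset.map_cons, Multiset.sum_cons,
      cnt_mul U F S.prod (h F (Multiset.mem_cons_self F S)) ?_,
      ih fun G hG => h G (Multiset.mem_cons_of_mem hG)]
    exact Multiset.prod_ne_zero fun h0 => h 0 (Multiset.mem_cons_of_mem h0) rfl

/- END fz_h2 -/

/- BEGIN fz_h3 : if all roots ζ of F can be moved to 0 off Q (frontier U), F.comp Q has
natDegree F * cnt U Q roots in U: F.comp Q = ∏ (Q - C ζ), cnt_hom for Q - C ζ and Q. -/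

theorem cnt_comp (U : Set ℂ) (hU : IsOpen U) (F Q : ℂ[X]) (hF : F.Monic) (hQ : Q.Monic)
    (hQ1 : 0 < Q.natDegree)
    (h : ∀ ζ ∈ F.roots, ∀ t : ℝ, 0 ≤ t → t ≤ 1 → ∀ z ∈ frontier U, Q.eval z ≠ (t : ℂ) * ζ) :
    cnt U (F.comp Q) = F.natDegree * cnt U Q := by
  have hcard : Multiset.card F.roots = F.natDegree :=
    splits_iff_card_roots.1 (IsAlgClosed.splits F)
  have hdeg : ∀ ζ : ℂ, (C ζ : ℂ[X]).degree < Q.degree := by
    intro ζ
    exact degree_C_le.trans_lt (natDegree_pos_iff_degree_pos.1 hQ1)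
  have hmon : ∀ ζ : ℂ, (Q - C ζ).Monic := fun ζ => hQ.sub_of_left (hdeg ζ)
  have h1 : F.comp Q = (F.roots.map fun ζ => Q - C ζ).prod := by
    conv_lhs => rw [← prod_multiset_X_sub_C_of_monic_of_roots_card_eq hF hcard]
    rw [← coe_compRingHom_apply, map_multiset_prod, Multiset.map_map]
    congr 1
    refine Multiset.map_congr rfl fun ζ _ => ?_
    simp
  have h2 : ∀ ζ ∈ F.roots, cnt U (Q - C ζ) = cnt U Q := by
    intro ζ hζ
    refine (cnt_hom U hU Q (Q - C ζ) hQ (hmon ζ) natDegree_sub_C.symm ?_).symm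
    intro t h0 h1 z hz
    rw [eval_sub, eval_C]
    have h3 := h ζ hζ t h0 h1 z hz
    intro h4
    apply h3
    linear_combination h4
  rw [h1, cnt_multiset_prod U _ (by
    intro G hG
    obtain ⟨ζ, -, rfl⟩ := Multiset.mem_map.1 hG
    exact (hmon ζ).ne_zero), Multiset.map_map]
  have h3 : F.roots.map (cnt U ∘ fun ζ => Q - C ζ) = F.roots.map fun _ => cnt U Q :=
    Multiset.map_congr rfl fun ζ hζ => h2 ζ hζ
  rw [h3, Multiset.map_const', Multiset.sum_replicate, hcard, smul_eq_mul]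

/- END fz_h3 -/

end Pool.Agent.FZC
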