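import Pool.Agent.FZC.Alg

set_option autoImplicit false

open Polynomial

/-!
Decay excludes bounded solutions.  Modules `fz_n1`, `fz_n2`.
-/

namespace Pool.Agent.FZC

/- BEGIN fz_n1 : solution formulas.  `LL β k n` are the letters of the bonds k, .., k+n-1, its sites
are k, .., k+n.  `one_sided` by induction on n (generalizing k):
LL β k (n+1) = β k :: LL β (k+1) n.  `two_sided`: window of the sites i-n, .., i+n.
Left formula (induction on n, prolonging to the left): with A_n = D (LL β (i-n) (n-1)) (sites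
i-n, .., i-1), A_n^- without the last site, A_n ψ (i-1) = e_n ψ (i-n-1) + A_n^- ψ i, |e_n| = 1. -/

private theorem n1_LL_def (β : ℤ → Bool) (k : ℤ) (n : ℕ) :
    LL β k n = (List.range n).map (fun j : ℕ => β (k + (j : ℤ))) := by
  unfold LL
  simp only [List.pure_def, List.bind_eq_flatMap, List.map_flatMap, List.map_cons, List.map_nil]
  exact List.map_eq_flatMap.symm

private theorem n1_LL_succ (β : ℤ → Bool) (k : ℤ) (n : ℕ) :
    LL β k (n + 1) = β k :: LL β (k + 1) n := by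
  rw [n1_LL_def, n1_LL_def]
  rw [List.range_succ_eq_map, List.map_cons, List.map_map]
  simp only [Nat.cast_zero, add_zero, List.cons.injEq, true_and]
  apply List.map_congr_left
  intro j _
  simp only [Function.comp_apply, Nat.cast_succ]
  congr 1
  ring

private theorem n1_LL_snoc (β : ℤ → Bool) (k : ℤ) (n : ℕ) :
    LL β k (n + 1) = LL β k n ++ [β (k + n)] := by
  rw [n1_LL_def, n1_LL_def]
  rw [List.range_succ, List.map_append]
  rfl

private theorem n1_LL_len (β : ℤ → Bool) (k : ℤ) (n : ℕ) : (LL β k n).length = n := by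
  rw [n1_LL_def]
  simp

private theorem n1_LL_zero (β : ℤ → Bool) (k : ℤ) : LL β k 0 = [] := by
  rw [n1_LL_def]
  simp

private theorem n1_LL_add (β : ℤ → Bool) (k : ℤ) (m n : ℕ) :
    LL β k (m + n) = LL β k m ++ LL β (k + m) n := by
  induction n with
  | zero => simp [n1_LL_zero]
  | succ n ih =>
    rw [← add_assoc, n1_LL_snoc, ih, n1_LL_snoc, List.append_assoc]
    congr 3
    push_cast
    ring_nf

theorem one_sided (β : ℤ → Bool) (z : ℂ) (ψ : ℤ → ℂ)
    (h : ∀ n, ψ (n + 1) + sg (β (n - 1)) * ψ (n - 1) = z * ψ n) (n : ℕ) (k : ℤ) :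
    (D (LL β k n)).eval z * ψ k
      = ψ (k + n + 1) + sg (β (k - 1)) * ψ (k - 1) * ((KK (LL β k n)).2).eval z := by
  induction n generalizing k with
  | zero =>
    have h1 := h k
    simp only [n1_LL_zero, D, KK, eval_X, Nat.cast_zero, add_zero, eval_one, mul_one]
    exact h1.symm
  | succ n ih =>
    have h1 := ih (k + 1)
    have h2 := h k
    rw [n1_LL_succ]
    simp only [D, KK, eval_sub, eval_mul, eval_X, eval_C]
    simp only [D] at h1
    rw [show k + 1 - 1 = k by ring, show k + 1 + (n : ℤ) + 1 = k + ((n + 1 : ℕ) : ℤ) + 1 by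
      push_cast; ring] at h1
    linear_combination h1 - ((KK (LL β (k + 1) n)).1.eval z) * h2

private theorem n1_left (β : ℤ → Bool) (z : ℂ) (ψ : ℤ → ℂ)
    (h : ∀ n, ψ (n + 1) + sg (β (n - 1)) * ψ (n - 1) = z * ψ n) (L : ℤ) (m : ℕ) :
    ∃ e : ℂ, ‖e‖ = 1 ∧ (D (LL β L m)).eval z * ψ (L + m)
      = e * ψ (L - 1) + (KS (LL β L m) m).eval z * ψ (L + m + 1) := by
  induction m with
  | zero =>
    refine ⟨sg (β (L - 1)), norm_sg _, ?_⟩
    have h1 := h L
    rw [KS_zero]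
    simp only [n1_LL_zero, D, KK, eval_X, Nat.cast_zero, add_zero, eval_one, one_mul]
    linear_combination (-1 : ℂ) * h1
  | succ m ih =>
    obtain ⟨e, he, h1⟩ := ih
    refine ⟨sg (β (L + m)) * e, by rw [norm_mul, norm_sg, he, mul_one], ?_⟩
    have h2 := h (L + m + 1)
    have hD : D (LL β L (m + 1)) = D (LL β L m) * X - C (sg (β (L + m))) * KS (LL β L m) m := by
      rw [n1_LL_snoc, D_append, n1_LL_len]
      simp only [D, KK, mul_one]
    have hK : KS (LL β L (m + 1)) (m + 1) = D (LL β L m) := by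
      rw [n1_LL_snoc, KS_append _ _ _ (by rw [n1_LL_len])]
      have := KS_last (LL β L m)
      rwa [n1_LL_len] at this
    rw [hD, hK]
    rw [show L + (m : ℤ) + 1 - 1 = L + m by ring] at h2
    rw [show L + ((m + 1 : ℕ) : ℤ) = L + m + 1 by push_cast; ring]
    simp only [eval_sub, eval_mul, eval_X, eval_C]
    linear_combination (sg (β (L + m))) * h1 - ((D (LL β L m)).eval z) * h2

theorem two_sided (β : ℤ → Bool) (z : ℂ) (ψ : ℤ → ℂ)
    (h : ∀ n, ψ (n + 1) + sg (β (n - 1)) * ψ (n - 1) = z * ψ n) (n : ℕ) (i : ℤ) :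
    ∃ e : ℂ, ‖e‖ = 1 ∧ (D (LL β (i - n) (2 * n))).eval z * ψ i
      = (KS (LL β (i - n) (2 * n)) n).eval z * ψ (i + n + 1)
        + e * (KS (LL β (i - n) (2 * n)).reverse n).eval z * ψ (i - n - 1) := by
  rcases Nat.eq_zero_or_pos n with rfl | hn
  · refine ⟨sg (β (i - 1)), norm_sg _, ?_⟩
    have h1 := h i
    rw [KS_zero, KS_zero]
    simp only [n1_LL_zero, mul_zero, D, KK, eval_X, eval_one, Nat.cast_zero, add_zero, sub_zero]
    linear_combination (-1 : ℂ) * h1
  · obtain ⟨m, rfl⟩ : ∃ m, n = m + 1 := ⟨n - 1, by omega⟩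
    obtain ⟨e, he, h1⟩ := n1_left β z ψ h (i - ((m + 1 : ℕ) : ℤ)) m
    have h2 := one_sided β z ψ h (m + 1) i
    refine ⟨sg (β (i - 1)) * e, by rw [norm_mul, norm_sg, he, mul_one], ?_⟩
    have e1 : i - ((m + 1 : ℕ) : ℤ) + m = i - 1 := by push_cast; ring
    have e2 : i - ((m + 1 : ℕ) : ℤ) + ((m + 1 : ℕ) : ℤ) = i := by ring
    have hw : LL β (i - ((m + 1 : ℕ) : ℤ)) (2 * (m + 1)) =
        LL β (i - ((m + 1 : ℕ) : ℤ)) (m + 1) ++ LL β i (m + 1) := by
      rw [show 2 * (m + 1) = (m + 1) + (m + 1) by ring, n1_LL_add, e2]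
    have hp : LL β (i - ((m + 1 : ℕ) : ℤ)) (m + 1) =
        LL β (i - ((m + 1 : ℕ) : ℤ)) m ++ [β (i - 1)] := by
      rw [n1_LL_snoc, e1]
    have hD : D (LL β (i - ((m + 1 : ℕ) : ℤ)) (2 * (m + 1))) =
        D (LL β (i - ((m + 1 : ℕ) : ℤ)) m) * D (LL β i (m + 1)) -
          C (sg (β (i - 1))) * KS (LL β (i - ((m + 1 : ℕ) : ℤ)) m) m * (KK (LL β i (m + 1))).2 := by
      rw [hw, hp, List.append_assoc, List.singleton_append, D_append, n1_LL_len]
    have hK1 : KS (LL β (i - ((m + 1 : ℕ) : ℤ)) (2 * (m + 1))) (m + 1) =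
        D (LL β (i - ((m + 1 : ℕ) : ℤ)) m) := by
      rw [hw, hp, List.append_assoc, KS_append _ _ _ (by rw [n1_LL_len])]
      have := KS_last (LL β (i - ((m + 1 : ℕ) : ℤ)) m)
      rwa [n1_LL_len] at this
    have hK2 : KS (LL β (i - ((m + 1 : ℕ) : ℤ)) (2 * (m + 1))).reverse (m + 1) =
        (KK (LL β i (m + 1))).2 := by
      rw [hw, List.reverse_append, KS_append _ _ _ (by rw [List.length_reverse, n1_LL_len]; omega),
        KK_snd, n1_LL_len]
    rw [hD, hK1, hK2]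
    rw [e1] at h1
    rw [show i - 1 + 1 = i by ring] at h1
    simp only [eval_sub, eval_mul, eval_C]
    linear_combination ((D (LL β (i - ((m + 1 : ℕ) : ℤ)) m)).eval z) * h2 +
      (sg (β (i - 1)) * ((KK (LL β i (m + 1))).2).eval z) * h1

/- END fz_n1 -/

/- BEGIN fz_n2 : with DecU the right side is ≤ 2 C M / (n+1) times |D|, and D ≠ 0 -/

theorem not_bddSol_of_DecU {M : ℝ} {z : ℂ} (h : DecU M z) : ¬ BddSol z := by
  rintro ⟨b, hb, ψ, ⟨C, hC⟩, ⟨i, hi⟩, hψ⟩
  classical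
  obtain ⟨β, hβ⟩ : ∃ β : ℤ → Bool, ∀ n, sg (β n) = b n := by
    refine ⟨fun n => decide (b n = 1), fun n => ?_⟩
    rcases hb n with h1 | h1
    · simp [sg, h1]
    · have h2 : ¬ ((-1 : ℂ) = 1) := by norm_num
      simp [sg, h1, h2]
  have hψ' : ∀ n, ψ (n + 1) + sg (β (n - 1)) * ψ (n - 1) = z * ψ n := by
    intro n
    rw [hβ]
    exact hψ n
  have hC0 : 0 ≤ C := (norm_nonneg _).trans (hC 0)
  have hi0 : 0 < ‖ψ i‖ := norm_pos_iff.2 hi
  have key : ∀ n : ℕ, ((n : ℝ) + 1) * ‖ψ i‖ ≤ 2 * M * C := by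
    intro n
    obtain ⟨e, he, h1⟩ := two_sided β z ψ hψ' n i
    obtain ⟨w, hw⟩ : ∃ w, w = LL β (i - n) (2 * n) := ⟨_, rfl⟩
    have hwl : w.length = 2 * n := by rw [hw, n1_LL_len]
    rw [← hw] at h1
    have d1 := h w n (by omega)
    have d2 := h w.reverse n (by rw [List.length_reverse]; omega)
    rw [List.length_reverse, D_reverse, hwl] at d2
    rw [hwl] at d1
    have e1 : ((2 * n : ℕ) : ℝ) - n + 1 = (n : ℝ) + 1 := by push_cast; ring
    rw [e1] at d1 d2
    have hD0 : 0 < ‖(D w).eval z‖ := by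
      rw [norm_pos_iff]
      intro h0
      have d0 := h w 0 (Nat.zero_le _)
      rw [KS_zero, h0] at d0
      simp only [eval_one, norm_one, norm_zero, mul_zero, mul_one, Nat.cast_zero, sub_zero] at d0
      have : (0 : ℝ) ≤ (w.length : ℝ) := by positivity
      linarith
    have h2 : ‖(D w).eval z‖ * ‖ψ i‖ ≤ ‖(KS w n).eval z‖ * C + ‖(KS w.reverse n).eval z‖ * C := by
      rw [← norm_mul, h1]
      refine (norm_add_le _ _).trans ?_
      rw [norm_mul, norm_mul, norm_mul, he, one_mul]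
      exact add_le_add (mul_le_mul_of_nonneg_left (hC _) (norm_nonneg _))
        (mul_le_mul_of_nonneg_left (hC _) (norm_nonneg _))
    have h3 : ‖(D w).eval z‖ * (((n : ℝ) + 1) * ‖ψ i‖) ≤ ‖(D w).eval z‖ * (2 * M * C) := by
      calc ‖(D w).eval z‖ * (((n : ℝ) + 1) * ‖ψ i‖) = ((n : ℝ) + 1) * (‖(D w).eval z‖ * ‖ψ i‖) := by
            ring
        _ ≤ ((n : ℝ) + 1) * (‖(KS w n).eval z‖ * C + ‖(KS w.reverse n).eval z‖ * C) :=
            mul_le_mul_of_nonneg_left h2 (by positivity)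
        _ = (((n : ℝ) + 1) * ‖(KS w n).eval z‖ + ((n : ℝ) + 1) * ‖(KS w.reverse n).eval z‖) * C := by
            ring
        _ ≤ (M * ‖(D w).eval z‖ + M * ‖(D w).eval z‖) * C :=
            mul_le_mul_of_nonneg_right (add_le_add d1 d2) hC0
        _ = _ := by ring
    exact le_of_mul_le_mul_left h3 hD0
  obtain ⟨n, hn⟩ := exists_nat_gt (2 * M * C / ‖ψ i‖)
  have h1 := key n
  rw [div_lt_iff₀ hi0] at hn
  nlinarith

/- END fz_n2 -/

end Pool.Agent.FZC
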