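import Pool.Agent.FZC.Alg

set_option autoImplicit false

open Polynomial

/-!
The constant words and the segments `[-2,2]`, `i[-2,2]`.  Modules `fz_r1`, `fz_r2`.
-/

namespace Pool.Agent.FZC

/- BEGIN fz_r1 : roots.  For `z = μ + μ⁻¹`, `(KS (replicate n true) j).eval z * (μ - μ⁻¹) =
μ^(j+1) - μ⁻¹^(j+1)`, so a root has `|μ| = 1`, `z = 2 Re μ` (or `μ = ± 1`, `z = ± 2`).  Same for
`false` with `z = μ - μ⁻¹`. -/

private theorem r1_formula (a : Bool) (z μ ν : ℂ) (h1 : μ + ν = z) (h2 : μ * ν = sg a) (n : ℕ) :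
    (D (List.replicate n a)).eval z * (μ - ν) = μ ^ (n + 2) - ν ^ (n + 2) ∧
      ((KK (List.replicate n a)).2).eval z * (μ - ν) = μ ^ (n + 1) - ν ^ (n + 1) := by
  induction n with
  | zero =>
    simp only [List.replicate_zero, D, KK, eval_X, eval_one]
    constructor
    · rw [← h1]; ring
    · ring
  | succ n ih =>
    obtain ⟨ih1, ih2⟩ := ih
    simp only [D] at ih1
    rw [List.replicate_succ]
    simp only [D, KK, eval_sub, eval_mul, eval_X, eval_C]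
    refine ⟨?_, ih1⟩
    rw [← h2, ← h1] at *
    linear_combination (μ + ν) * ih1 - μ * ν * ih2

private theorem r1_root (a : Bool) (n : ℕ) (z : ℂ) (h : (D (List.replicate n a)).eval z = 0) :
    ∃ μ : ℂ, ‖μ‖ = 1 ∧ z = μ + sg a * (starRingEnd ℂ) μ := by
  obtain ⟨w, hw⟩ := IsAlgClosed.exists_pow_nat_eq (z ^ 2 - 4 * sg a) (n := 2) (by norm_num)
  have h1 : (z + w) / 2 + (z - w) / 2 = z := by ring
  have h2 : (z + w) / 2 * ((z - w) / 2) = sg a := by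
    linear_combination (-1 / 4 : ℂ) * hw
  obtain ⟨h3, _⟩ := r1_formula a z _ _ h1 h2 n
  rw [h, zero_mul] at h3
  obtain ⟨μ, hμ⟩ : ∃ μ, μ = (z + w) / 2 := ⟨_, rfl⟩
  obtain ⟨ν, hν⟩ : ∃ ν, ν = (z - w) / 2 := ⟨_, rfl⟩
  rw [← hμ, ← hν] at h1 h2 h3
  have h4 : μ ^ (n + 2) = ν ^ (n + 2) := by
    linear_combination (-1 : ℂ) * h3
  have h5 : ‖μ‖ = ‖ν‖ := by
    have := congrArg norm h4
    rw [norm_pow, norm_pow] at this
    exact (pow_left_inj₀ (norm_nonneg _) (norm_nonneg _) (by omega)).1 this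
  have h6 : ‖μ‖ * ‖ν‖ = 1 := by rw [← norm_mul, h2, norm_sg]
  have h7 : ‖μ‖ = 1 := by
    rw [← h5] at h6
    nlinarith [norm_nonneg μ]
  have h8 : μ * (starRingEnd ℂ) μ = 1 := by
    rw [Complex.mul_conj, Complex.normSq_eq_norm_sq, h7]
    norm_num
  have hμ0 : μ ≠ 0 := by
    intro h0
    rw [h0, norm_zero] at h7
    norm_num at h7
  refine ⟨μ, h7, ?_⟩
  have h9 : ν = sg a * (starRingEnd ℂ) μ := by
    apply mul_left_cancel₀ hμ0
    rw [h2]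
    linear_combination (-(sg a)) * h8
  rw [← h9]
  exact h1.symm

theorem root_true (n : ℕ) (z : ℂ) (h : (D (List.replicate n true)).eval z = 0) :
    ∃ r : ℝ, |r| ≤ 2 ∧ z = (r : ℂ) := by
  obtain ⟨μ, h1, h2⟩ := r1_root true n z h
  refine ⟨2 * μ.re, ?_, ?_⟩
  · have := Complex.abs_re_le_norm μ
    rw [h1] at this
    rw [abs_mul, abs_two]
    linarith
  · rw [h2]
    apply Complex.ext <;> simp [sg] <;> ring

theorem root_false (n : ℕ) (z : ℂ) (h : (D (List.replicate n false)).eval z = 0) :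
    ∃ r : ℝ, |r| ≤ 2 ∧ z = (r : ℂ) * Complex.I := by
  obtain ⟨μ, h1, h2⟩ := r1_root false n z h
  refine ⟨2 * μ.im, ?_, ?_⟩
  · have := Complex.abs_im_le_norm μ
    rw [h1] at this
    rw [abs_mul, abs_two]
    linarith
  · rw [h2]
    apply Complex.ext <;> simp [sg] <;> ring

/- END fz_r1 -/

/- BEGIN fz_r2 : bounded solutions ψ n = μ ^ n (zpow), |μ| = 1 -/

private theorem r2_bdd (s μ z : ℂ) (hs : s = 1 ∨ s = -1) (h1 : ‖μ‖ = 1) (h2 : μ + s * μ⁻¹ = z) :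
    BddSol z := by
  have hμ0 : μ ≠ 0 := by
    intro h0
    rw [h0, norm_zero] at h1
    norm_num at h1
  refine ⟨fun _ => s, fun _ => hs, fun n => μ ^ n, ⟨1, fun n => ?_⟩, ⟨0, by simp⟩, fun n => ?_⟩
  · rw [norm_zpow, h1, one_zpow]
  · simp only
    rw [zpow_add_one₀ hμ0, zpow_sub_one₀ hμ0, ← h2]
    ring

theorem bdd_real (r : ℝ) (h : |r| ≤ 2) : BddSol (r : ℂ) := by
  have h0 := abs_le.1 h
  have hsq : 0 ≤ 1 - (r / 2) ^ 2 := by nlinarith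
  have hn : (r / 2) ^ 2 + Real.sqrt (1 - (r / 2) ^ 2) ^ 2 = 1 := by
    rw [Real.sq_sqrt hsq]
    ring
  obtain ⟨t, ht⟩ : ∃ t : ℝ, t = Real.sqrt (1 - (r / 2) ^ 2) := ⟨_, rfl⟩
  rw [← ht] at hn
  have hm : (⟨r / 2, t⟩ : ℂ) * ⟨r / 2, -t⟩ = 1 := by
    apply Complex.ext
    · simp
      nlinarith
    · simp
      ring
  have hinv : (⟨r / 2, t⟩ : ℂ)⁻¹ = ⟨r / 2, -t⟩ := inv_eq_of_mul_eq_one_right hm
  refine r2_bdd 1 ⟨r / 2, t⟩ r (Or.inl rfl) ?_ ?_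
  · rw [Complex.norm_def, Complex.normSq_mk, Real.sqrt_eq_one]
    nlinarith
  · rw [hinv]
    apply Complex.ext <;> simp

theorem bdd_imag (r : ℝ) (h : |r| ≤ 2) : BddSol ((r : ℂ) * Complex.I) := by
  have h0 := abs_le.1 h
  have hsq : 0 ≤ 1 - (r / 2) ^ 2 := by nlinarith
  have hn : (r / 2) ^ 2 + Real.sqrt (1 - (r / 2) ^ 2) ^ 2 = 1 := by
    rw [Real.sq_sqrt hsq]
    ring
  obtain ⟨t, ht⟩ : ∃ t : ℝ, t = Real.sqrt (1 - (r / 2) ^ 2) := ⟨_, rfl⟩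
  rw [← ht] at hn
  have hm : (⟨t, r / 2⟩ : ℂ) * ⟨t, -(r / 2)⟩ = 1 := by
    apply Complex.ext
    · simp
      nlinarith
    · simp
      ring
  have hinv : (⟨t, r / 2⟩ : ℂ)⁻¹ = ⟨t, -(r / 2)⟩ := inv_eq_of_mul_eq_one_right hm
  refine r2_bdd (-1) ⟨t, r / 2⟩ ((r : ℂ) * Complex.I) (Or.inr rfl) ?_ ?_
  · rw [Complex.norm_def, Complex.normSq_mk, Real.sqrt_eq_one]
    nlinarith
  · rw [hinv]
    apply Complex.ext <;> simp

/- END fz_r2 -/

end Pool.Agent.FZC
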