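import Pool.Agent.FZC.Blk
import Pool.Agent.FZC.Comb
import Pool.Agent.FZC.Hom
import Pool.Agent.FZC.Rts
import Pool.Agent.FZC.Nb

set_option autoImplicit false

open Polynomial

/-!
The main lemma.  Modules `fz_m1` .. `fz_m5`.
-/

namespace Pool.Agent.FZC

/- BEGIN fz_m1 : locality (L_s).  s = ⌈M⌉₊.  For p = [] or y = [] trivial.  Otherwise D_cont and DecU
(for the word p ++ x, and for (x ++ y).reverse with D_reverse) give at ζ = Q z, z ∈ frontier U:
(|x|+2)^2 |D(pxy) D(x) - D(px) D(xy)| ≤ M^2 |D(px) D(xy)|, strictly less than |..| ; cnt_hom, cnt_mul. -/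

private theorem m1_ne {M : ℝ} {z : ℂ} (h : DecU M z) : 0 < M := by
  have d0 := h [] 0 (Nat.zero_le _)
  rw [KS_zero] at d0
  simp only [List.length_nil, Nat.cast_zero, sub_zero, zero_add, eval_one, norm_one, mul_one] at d0
  by_contra hcon
  push Not at hcon
  have := mul_nonpos_of_nonpos_of_nonneg hcon (norm_nonneg ((D []).eval z))
  linarith

private theorem m1_comp_monic {F Q : ℂ[X]} (hF : F.Monic) (hQ : Q.Monic) (hQ1 : 0 < Q.natDegree) :
    (F.comp Q).Monic := hF.comp hQ hQ1.ne'

theorem loc_NQ (U : Set ℂ) (hU : IsOpen U) (M : ℝ) (Q : ℂ[X]) (hQ : Q.Monic)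
    (hQ1 : 0 < Q.natDegree) (hd : ∀ z ∈ frontier U, DecU M (Q.eval z)) :
    Loc (NQ U Q) ⌈M⌉₊ := by
  intro p x y hx
  rcases eq_or_ne p [] with rfl | hp
  · simp only [List.nil_append]
    ring
  rcases eq_or_ne y [] with rfl | hy
  · simp only [List.append_nil]
  obtain ⟨e, he, hE⟩ := D_cont p x y hp hy
  have hp1 : 1 ≤ p.length := List.length_pos_iff.2 hp
  have hy1 : 1 ≤ y.length := List.length_pos_iff.2 hy
  have c1 : ((D (p ++ x ++ y)).comp Q).Monic := m1_comp_monic (D_monic _) hQ hQ1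
  have c2 : ((D x).comp Q).Monic := m1_comp_monic (D_monic _) hQ hQ1
  have c3 : ((D (p ++ x)).comp Q).Monic := m1_comp_monic (D_monic _) hQ hQ1
  have c4 : ((D (x ++ y)).comp Q).Monic := m1_comp_monic (D_monic _) hQ hQ1
  have hcnt : cnt U ((D (p ++ x ++ y)).comp Q * (D x).comp Q) =
      cnt U ((D (p ++ x)).comp Q * (D (x ++ y)).comp Q) := by
    apply cnt_hom U hU _ _ (c1.mul c2) (c3.mul c4)
    · rw [c1.natDegree_mul c2, c3.natDegree_mul c4, natDegree_comp, natDegree_comp, natDegree_comp,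
        natDegree_comp, D_natDegree, D_natDegree, D_natDegree, D_natDegree]
      simp only [List.length_append]
      ring
    · intro t ht0 ht1 z hz
      have hdz := hd z hz
      have hM := m1_ne hdz
      simp only [eval_mul, eval_comp]
      obtain ⟨ζ, hζ⟩ : ∃ ζ, ζ = Q.eval z := ⟨_, rfl⟩
      rw [← hζ] at hdz ⊢
      have d1 := hdz (p ++ x) (p.length - 1) (by rw [List.length_append]; omega)
      have d2 := hdz (x ++ y).reverse (y.length - 1) (by
        rw [List.length_reverse, List.length_append]; omega)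
      rw [List.length_reverse, D_reverse] at d2
      have e1 : (((p ++ x).length : ℕ) : ℝ) - ((p.length - 1 : ℕ) : ℝ) + 1 = (x.length : ℝ) + 2 := by
        rw [List.length_append, Nat.cast_sub hp1]
        push_cast
        ring
      have e2 : (((x ++ y).length : ℕ) : ℝ) - ((y.length - 1 : ℕ) : ℝ) + 1 = (x.length : ℝ) + 2 := by
        rw [List.length_append, Nat.cast_sub hy1]
        push_cast
        ring
      rw [e1] at d1
      rw [e2] at d2
      have hb1 : 0 < ‖(D (p ++ x)).eval ζ‖ := norm_pos_iff.2 (DecU_ne_zero hdz _)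
      have hb2 : 0 < ‖(D (x ++ y)).eval ζ‖ := norm_pos_iff.2 (DecU_ne_zero hdz _)
      have hMx : M < (x.length : ℝ) + 2 := by
        have h1 : M ≤ (⌈M⌉₊ : ℝ) := Nat.le_ceil M
        have h2 : (⌈M⌉₊ : ℝ) ≤ (x.length : ℝ) := by exact_mod_cast hx
        linarith
      have hX : (0 : ℝ) < (x.length : ℝ) + 2 := by positivity
      have hEv := congrArg (fun F => F.eval ζ) hE
      simp only [eval_sub, eval_mul, eval_C] at hEv
      obtain ⟨a, ha⟩ : ∃ a, a = (D (p ++ x ++ y)).eval ζ * (D x).eval ζ := ⟨_, rfl⟩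
      obtain ⟨b, hb⟩ : ∃ b, b = (D (p ++ x)).eval ζ * (D (x ++ y)).eval ζ := ⟨_, rfl⟩
      rw [← ha, ← hb] at hEv
      rw [← ha, ← hb]
      have hbn : ‖b‖ = ‖(D (p ++ x)).eval ζ‖ * ‖(D (x ++ y)).eval ζ‖ := by rw [hb, norm_mul]
      have hb0 : 0 < ‖b‖ := by rw [hbn]; positivity
      have hab : ((x.length : ℝ) + 2) ^ 2 * ‖a - b‖ ≤ M ^ 2 * ‖b‖ := by
        rw [hEv, norm_mul, norm_mul, he, one_mul, hbn]
        calc ((x.length : ℝ) + 2) ^ 2 * (‖(KS (p ++ x) (p.length - 1)).eval ζ‖ *
              ‖(KS (x ++ y).reverse (y.length - 1)).eval ζ‖)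
            = (((x.length : ℝ) + 2) * ‖(KS (p ++ x) (p.length - 1)).eval ζ‖) *
              (((x.length : ℝ) + 2) * ‖(KS (x ++ y).reverse (y.length - 1)).eval ζ‖) := by ring
          _ ≤ (M * ‖(D (p ++ x)).eval ζ‖) * (M * ‖(D (x ++ y)).eval ζ‖) :=
              mul_le_mul d1 d2 (by positivity) (by positivity)
          _ = _ := by ring
      have hlt : ‖a - b‖ < ‖b‖ := by
        have h1 : M ^ 2 < ((x.length : ℝ) + 2) ^ 2 := by
          apply pow_lt_pow_left₀ hMx hM.le (by norm_num)
        have h2 : ((x.length : ℝ) + 2) ^ 2 * ‖a - b‖ < ((x.length : ℝ) + 2) ^ 2 * ‖b‖ :=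
          lt_of_le_of_lt hab (mul_lt_mul_of_pos_right h1 hb0)
        exact lt_of_mul_lt_mul_left h2 (by positivity)
      intro h0
      have h1 : b = -(((1 - t : ℝ) : ℂ) * (a - b)) := by
        push_cast
        linear_combination h0
      have h2 : ‖b‖ ≤ ‖a - b‖ := by
        rw [h1, norm_neg, norm_mul, Complex.norm_real, Real.norm_eq_abs, abs_of_nonneg (by linarith)]
        rw [← h1]
        calc (1 - t) * ‖a - b‖ ≤ 1 * ‖a - b‖ := by
              apply mul_le_mul_of_nonneg_right _ (norm_nonneg _)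
              linarith
          _ = _ := one_mul _
      linarith
  rw [cnt_mul U _ _ c1.ne_zero c2.ne_zero, cnt_mul U _ _ c3.ne_zero c4.ne_zero] at hcnt
  unfold NQ
  have hc : (cnt U ((D (p ++ x ++ y)).comp Q) : ℤ) + cnt U ((D x).comp Q) =
      cnt U ((D (p ++ x)).comp Q) + cnt U ((D (x ++ y)).comp Q) := by exact_mod_cast hcnt
  simp only [List.length_append] at hc ⊢
  push_cast
  linear_combination hc

/- END fz_m1 -/

/- BEGIN fz_m2 : constant words (cnt_comp, root_true, bdd_real, not_bddSol_of_DecU) -/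

theorem NQ_true (U : Set ℂ) (hU : IsOpen U) (M : ℝ) (Q : ℂ[X]) (hQ : Q.Monic)
    (hQ1 : 0 < Q.natDegree) (hd : ∀ z ∈ frontier U, DecU M (Q.eval z)) (n : ℕ) :
    NQ U Q (List.replicate n true) = 0 := by
  unfold NQ
  have hcomp := cnt_comp U hU (D (List.replicate n true)) Q (D_monic _) hQ hQ1 (by
    intro ζ hζ t ht0 ht1 z hz hQz
    have hr := root_true n ζ ((mem_roots (D_monic _).ne_zero).1 hζ)
    obtain ⟨r, hr1, hr2⟩ := hr
    have h1 : BddSol (((t * r : ℝ)) : ℂ) := by
      apply bdd_real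
      rw [abs_mul, abs_of_nonneg ht0]
      calc t * |r| ≤ 1 * 2 := mul_le_mul ht1 hr1 (abs_nonneg r) (by norm_num)
        _ = 2 := by norm_num
    have h2 := not_bddSol_of_DecU (hd z hz)
    rw [hQz, hr2] at h2
    apply h2
    have e : ((t * r : ℝ) : ℂ) = (t : ℂ) * (r : ℂ) := by push_cast; ring
    rw [← e]
    exact h1)
  rw [hcomp, D_natDegree]
  simp

theorem NQ_false (U : Set ℂ) (hU : IsOpen U) (M : ℝ) (Q : ℂ[X]) (hQ : Q.Monic)
    (hQ1 : 0 < Q.natDegree) (hd : ∀ z ∈ frontier U, DecU M (Q.eval z)) (n : ℕ) :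
    NQ U Q (List.replicate n false) = 0 := by
  unfold NQ
  have hcomp := cnt_comp U hU (D (List.replicate n false)) Q (D_monic _) hQ hQ1 (by
    intro ζ hζ t ht0 ht1 z hz hQz
    have hr := root_false n ζ ((mem_roots (D_monic _).ne_zero).1 hζ)
    obtain ⟨r, hr1, hr2⟩ := hr
    have h1 : BddSol (((t * r : ℝ) : ℂ) * Complex.I) := by
      apply bdd_imag
      rw [abs_mul, abs_of_nonneg ht0]
      calc t * |r| ≤ 1 * 2 := mul_le_mul ht1 hr1 (abs_nonneg r) (by norm_num)
        _ = 2 := by norm_num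
    have h2 := not_bddSol_of_DecU (hd z hz)
    rw [hQz, hr2] at h2
    apply h2
    have e : ((t * r : ℝ) : ℂ) * Complex.I = (t : ℂ) * ((r : ℂ) * Complex.I) := by push_cast; ring
    rw [← e]
    exact h1)
  rw [hcomp, D_natDegree]
  simp

/- END fz_m2 -/

/- BEGIN fz_m3 : the composite with P v.  (D_W), cnt_mul, W_length, J_length -/

theorem NQ_P (U : Set ℂ) (Q : ℂ[X]) (hQ : Q.Monic) (hQ1 : 0 < Q.natDegree) (v : List Bool)
    (a : Bool) (u : List Bool) :
    NQ U ((P v).comp Q) u = NQ U Q (W v (J (pb v) a u)) - ((u.length : ℤ) + 2) * NQ U Q v := by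
  have c1 : ((D v).comp Q).Monic := m1_comp_monic (D_monic _) hQ hQ1
  have hPm : (P v).Monic := monic_X.mul (D_monic v)
  have hPQ : (P v).comp Q = Q * (D v).comp Q := by
    unfold P
    rw [mul_comp, X_comp]
  have hPQm : ((P v).comp Q).Monic := m1_comp_monic hPm hQ hQ1
  have hPQd : 0 < ((P v).comp Q).natDegree := by
    rw [hPQ, hQ.natDegree_mul c1]
    omega
  have c2 : ((D u).comp ((P v).comp Q)).Monic := m1_comp_monic (D_monic _) hPQm hPQd
  have hDW : (D (W v (J (pb v) a u))).comp Q = (D v).comp Q * (D u).comp ((P v).comp Q) := by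
    rw [D_W, mul_comp, comp_assoc]
  unfold NQ
  rw [hDW, cnt_mul U _ _ c1.ne_zero c2.ne_zero, W_length, J_length]
  have h1 : cnt U ((P v).comp Q) = cnt U Q + cnt U ((D v).comp Q) := by
    rw [hPQ, cnt_mul U _ _ hQ.ne_zero c1.ne_zero]
  rw [h1]
  push_cast
  ring

theorem loc_P (U : Set ℂ) (Q : ℂ[X]) (hQ : Q.Monic) (hQ1 : 0 < Q.natDegree) (v : List Bool)
    (s s' : ℕ) (hs : s ≤ 2 * s' + 2) (h : Loc (NQ U Q) s) : Loc (NQ U ((P v).comp Q)) s' := by
  intro p x y hx
  obtain ⟨a⟩ : Nonempty Bool := ⟨true⟩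
  obtain ⟨P', v', a', hv', hW⟩ := W_left (pb v) a v p
  obtain ⟨Y, hY⟩ := W_right (pb v) a' v' x y
  have hpb : pb v' = pb v := by
    rcases hv' with rfl | rfl
    · rfl
    · exact pb_reverse v
  have hPv : P v' = P v := by
    rcases hv' with rfl | rfl
    · rfl
    · exact P_reverse v
  have hNv : NQ U Q v' = NQ U Q v := by
    rcases hv' with rfl | rfl
    · rfl
    · unfold NQ
      rw [D_reverse, List.length_reverse]
  have hlen : v'.length = v.length := by
    rcases hv' with rfl | rfl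
    · rfl
    · exact List.length_reverse
  have n1 := NQ_P U Q hQ hQ1 v a (p ++ (x ++ y))
  have n2 := NQ_P U Q hQ hQ1 v a (p ++ x)
  have n3 := NQ_P U Q hQ hQ1 v' a' (x ++ y)
  have n4 := NQ_P U Q hQ hQ1 v' a' x
  rw [hPv, hpb, hNv] at n3 n4
  rw [hW, hY] at n1
  rw [hW] at n2
  rw [hY] at n3
  have hl := h P' (W v' (J (pb v) a' x)) Y (by
    rw [W_length, J_length]
    have : 0 ≤ (x.length + 1 + 1) * v'.length := Nat.zero_le _
    omega)
  rw [List.append_assoc] at hl
  rw [List.append_assoc, n1, n2, n3, n4]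
  simp only [List.length_append]
  push_cast
  linear_combination hl

/- END fz_m3 -/

/- BEGIN fz_m4 : the induction on s, for all Q at once.  s = 0: N (p ++ y) + N [] = N p + N y and
NQ_true, NQ_false.  s ≥ 1: (P v).comp Q is admissible (DecU_P), has Loc with s' = (s-1)/2, so
NQ of it vanishes; NQ_P and J_surj give BRel.blk; then `comb`. -/

theorem main_lemma (U : Set ℂ) (hU : IsOpen U) (M : ℝ) (s : ℕ) : ∀ (Q : ℂ[X]), Q.Monic →
    0 < Q.natDegree → (∀ z ∈ frontier U, DecU M (Q.eval z)) → Loc (NQ U Q) s →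
    ∀ w : List Bool, NQ U Q w = 0 := by
  induction s using Nat.strong_induction_on with
  | _ s ih =>
    intro Q hQ hQ1 hd hloc w
    rcases Nat.eq_zero_or_pos s with hs | hs
    · subst hs
      have h0 : NQ U Q [] = 0 := NQ_true U hU M Q hQ hQ1 hd 0
      have hadd : ∀ p y, NQ U Q (p ++ y) = NQ U Q p + NQ U Q y := by
        intro p y
        have := hloc p [] y (Nat.zero_le _)
        simp only [List.append_nil, List.nil_append] at this
        rw [h0, add_zero] at this
        exact this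
      have ht : NQ U Q [true] = 0 := NQ_true U hU M Q hQ hQ1 hd 1
      have hf : NQ U Q [false] = 0 := NQ_false U hU M Q hQ hQ1 hd 1
      induction w with
      | nil => exact h0
      | cons a w ihw =>
        have := hadd [a] w
        rw [List.singleton_append] at this
        rw [this, ihw, add_zero]
        cases a
        · exact hf
        · exact ht
    · have hIH : ∀ v u : List Bool, NQ U ((P v).comp Q) u = 0 := by
        intro v u
        have c1 : ((D v).comp Q).Monic := m1_comp_monic (D_monic _) hQ hQ1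
        have hPm : (P v).Monic := monic_X.mul (D_monic v)
        have hPQ : (P v).comp Q = Q * (D v).comp Q := by
          unfold P
          rw [mul_comp, X_comp]
        have hPQm : ((P v).comp Q).Monic := m1_comp_monic hPm hQ hQ1
        have hPQd : 0 < ((P v).comp Q).natDegree := by
          rw [hPQ, hQ.natDegree_mul c1]
          omega
        refine ih ((s - 1) / 2) (by omega) ((P v).comp Q) hPQm hPQd ?_
          (loc_P U Q hQ hQ1 v s ((s - 1) / 2) (by omega) hloc) u
        intro z hz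
        rw [eval_comp]
        exact DecU_P (hd z hz) v
      have hB : BRel (NQ U Q) := by
        refine ⟨?_, fun n => NQ_true U hU M Q hQ hQ1 hd n, fun n => NQ_false U hU M Q hQ hQ1 hd n⟩
        intro v as
        rcases eq_or_ne as [] with rfl | has
        · simp [W]
        · obtain ⟨a, u, hau⟩ := J_surj (pb v) as has
          have n1 := NQ_P U Q hQ hQ1 v a u
          rw [hIH v u, hau] at n1
          have hlen : as.length = u.length + 1 := by rw [← hau, J_length]
          rw [hlen]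
          push_cast
          linear_combination (-1 : ℤ) * n1
      exact comb hloc hB w

/-- The count for `Q = X`. -/
theorem cnt_D (U : Set ℂ) (hU : IsOpen U) (M : ℝ) (hd : ∀ z ∈ frontier U, DecU M z)
    (h0 : (0 : ℂ) ∉ U) (w : List Bool) : cnt U (D w) = 0 := by
  have hd' : ∀ z ∈ frontier U, DecU M ((X : ℂ[X]).eval z) := by
    intro z hz
    rw [eval_X]
    exact hd z hz
  have hdeg : 0 < (X : ℂ[X]).natDegree := by rw [natDegree_X]; norm_num
  have h1 := main_lemma U hU M ⌈M⌉₊ X monic_X hdeg hd'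
    (loc_NQ U hU M X monic_X hdeg hd') w
  unfold NQ at h1
  have h2 : cnt U (X : ℂ[X]) = 0 := by
    rw [cnt_eq_zero U X X_ne_zero]
    intro z hz h3
    rw [eval_X] at h3
    rw [h3] at hz
    exact h0 hz
  rw [h2, comp_X] at h1
  simp only [Nat.cast_zero, mul_zero, sub_zero] at h1
  exact_mod_cast h1

/- END fz_m4 -/

/- BEGIN fz_m5 : maximum principle, f = KS w j / D w is bounded by M / (|w| - j + 1) on the frontier
(Complex.norm_le_of_forall_mem_frontier_norm_le); D w has no zero in closure U. -/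

theorem DecU_inside (U : Set ℂ) (hU : IsOpen U) (hb : Bornology.IsBounded U) (M : ℝ)
    (hd : ∀ z ∈ frontier U, DecU M z) (hn : ∀ w : List Bool, cnt U (D w) = 0) (z : ℂ)
    (hz : z ∈ U) : DecU M z := by
  intro w j hj
  have hne : ∀ x ∈ closure U, (D w).eval x ≠ 0 := by
    intro x hx
    by_cases hxU : x ∈ U
    · exact (cnt_eq_zero U (D w) (D_monic w).ne_zero).1 (hn w) x hxU
    · have : x ∈ frontier U := by
        rw [hU.frontier_eq]
        exact ⟨hx, hxU⟩
      exact DecU_ne_zero (hd x this) w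
  have hL : 0 < (w.length : ℝ) - j + 1 := by
    have : (j : ℝ) ≤ (w.length : ℝ) := by exact_mod_cast hj
    linarith
  have hcont : DiffContOnCl ℂ (fun x => (KS w j).eval x / (D w).eval x) U := by
    refine ⟨?_, ?_⟩
    · exact (KS w j).differentiable.differentiableOn.div (D w).differentiable.differentiableOn
        (fun x hx => hne x (subset_closure hx))
    · exact (KS w j).continuous.continuousOn.div (D w).continuous.continuousOn hne
  have hb' := Complex.norm_le_of_forall_mem_frontier_norm_le (C := M / ((w.length : ℝ) - j + 1)) hb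
    hcont (fun x hx => by
      have h1 := hd x hx w j hj
      have h2 : 0 < ‖(D w).eval x‖ := norm_pos_iff.2 (DecU_ne_zero (hd x hx) w)
      rw [norm_div, div_le_div_iff₀ h2 hL]
      linarith) (subset_closure hz)
  have h2 : 0 < ‖(D w).eval z‖ := norm_pos_iff.2 (hne z (subset_closure hz))
  rw [norm_div, div_le_div_iff₀ h2 hL] at hb'
  linarith

/- END fz_m5 -/

end Pool.Agent.FZC
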